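import Pool.Agent.Work.MP_e17eac_co.RP.Stmts2

/-!
# Block RP, part 2, item Ck: counting the subsets with a given directed edge

Variant of item Ct (helper76).
-/

set_option autoImplicit false

namespace Pool.Agent.Work.MP_e17eac_co.RP

open Finset

namespace ICk

lemma side_left (p q : ℝ × ℝ) : side p q p = 0 := by
  unfold side
  ring

lemma side_right (p q : ℝ × ℝ) : side p q q = 0 := by
  unfold side
  ring

section
open Classical

variable {M : ℕ} (x : Fin (M + 2) → ℝ × ℝ) (i j : Fin (M + 2))

/-- points on the left -/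
noncomputable def L : Finset (Fin (M + 2)) := univ.filter fun l => 0 < side (x i) (x j) (x l)

/-- points on the right -/
noncomputable def R : Finset (Fin (M + 2)) := univ.filter fun l => side (x i) (x j) (x l) < 0

variable {x i j}

lemma mem_L {l : Fin (M + 2)} : l ∈ L x i j ↔ 0 < side (x i) (x j) (x l) := by
  unfold L
  simp only [mem_filter, mem_univ, true_and]

lemma mem_R {l : Fin (M + 2)} : l ∈ R x i j ↔ side (x i) (x j) (x l) < 0 := by
  unfold R
  simp only [mem_filter, mem_univ, true_and]

lemma i_L : i ∉ L x i j := by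
  rw [mem_L, side_left]
  exact lt_irrefl _

lemma j_L : j ∉ L x i j := by
  rw [mem_L, side_right]
  exact lt_irrefl _

lemma i_R : i ∉ R x i j := by
  rw [mem_R, side_left]
  exact lt_irrefl _

lemma j_R : j ∉ R x i j := by
  rw [mem_R, side_right]
  exact lt_irrefl _

lemma disj : Disjoint (L x i j) (R x i j) := by
  rw [Finset.disjoint_left]
  intro l h1 h2
  rw [mem_L] at h1
  rw [mem_R] at h2
  exact lt_asymm h1 h2

/-- every point is on one side or one of the two -/
lemma cases_pt (hx : GP x) (hij : i ≠ j) (l : Fin (M + 2)) :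
    l = i ∨ l = j ∨ l ∈ L x i j ∨ l ∈ R x i j := by
  by_cases h1 : l = i
  · exact Or.inl h1
  by_cases h2 : l = j
  · exact Or.inr (Or.inl h2)
  have h3 := hx i j l hij (Ne.symm h1) (Ne.symm h2)
  rcases lt_or_gt_of_ne h3 with h | h
  · exact Or.inr (Or.inr (Or.inr (mem_R.2 h)))
  · exact Or.inr (Or.inr (Or.inl (mem_L.2 h)))

lemma card_un {A B : Finset (Fin (M + 2))} (hij : i ≠ j) (hA : A ⊆ L x i j) (hB : B ⊆ R x i j) :
    (insert i (insert j (A ∪ B))).card = A.card + B.card + 2 := by
  have h1 : Disjoint A B := Finset.disjoint_of_subset_left hA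
    (Finset.disjoint_of_subset_right hB disj)
  have h2 : j ∉ A ∪ B := by
    rw [mem_union]
    rintro (h | h)
    · exact j_L (hA h)
    · exact j_R (hB h)
  have h3 : i ∉ insert j (A ∪ B) := by
    rw [mem_insert, mem_union]
    rintro (h | h | h)
    · exact hij h
    · exact i_L (hA h)
    · exact i_R (hB h)
  rw [card_insert_of_notMem h3, card_insert_of_notMem h2, card_union_of_disjoint h1]

lemma un_L {A B : Finset (Fin (M + 2))} (hA : A ⊆ L x i j) (hB : B ⊆ R x i j) :
    (insert i (insert j (A ∪ B))).filter (fun l => 0 < side (x i) (x j) (x l)) = A := by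
  ext l
  rw [mem_filter, mem_insert, mem_insert, mem_union]
  constructor
  · rintro ⟨h, h0⟩
    rw [← mem_L] at h0
    rcases h with h | h | h | h
    · exact absurd (h ▸ h0) i_L
    · exact absurd (h ▸ h0) j_L
    · exact h
    · exact absurd h0 (Finset.disjoint_right.1 disj (hB h))
  · intro h
    exact ⟨Or.inr (Or.inr (Or.inl h)), mem_L.1 (hA h)⟩

lemma un_R {A B : Finset (Fin (M + 2))} (hA : A ⊆ L x i j) (hB : B ⊆ R x i j) :
    (insert i (insert j (A ∪ B))).filter (fun l => side (x i) (x j) (x l) < 0) = B := by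
  ext l
  rw [mem_filter, mem_insert, mem_insert, mem_union]
  constructor
  · rintro ⟨h, h0⟩
    rw [← mem_R] at h0
    rcases h with h | h | h | h
    · exact absurd (h ▸ h0) i_R
    · exact absurd (h ▸ h0) j_R
    · exact absurd h0 (Finset.disjoint_left.1 disj (hA h))
    · exact h
  · intro h
    exact ⟨Or.inr (Or.inr (Or.inr h)), mem_R.1 (hB h)⟩

lemma fL (T : Finset (Fin (M + 2))) :
    (T.filter fun l => 0 < side (x i) (x j) (x l)) ⊆ L x i j := by
  intro l h
  exact mem_L.2 (mem_filter.1 h).2

lemma fR (T : Finset (Fin (M + 2))) :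
    (T.filter fun l => side (x i) (x j) (x l) < 0) ⊆ R x i j := by
  intro l h
  exact mem_R.2 (mem_filter.1 h).2

lemma rec_T (hx : GP x) (hij : i ≠ j) {T : Finset (Fin (M + 2))} (hi : i ∈ T) (hj : j ∈ T) :
    insert i (insert j ((T.filter fun l => 0 < side (x i) (x j) (x l)) ∪
      (T.filter fun l => side (x i) (x j) (x l) < 0))) = T := by
  ext l
  rw [mem_insert, mem_insert, mem_union, mem_filter, mem_filter]
  constructor
  · rintro (h | h | h | h)
    · exact h ▸ hi
    · exact h ▸ hj
    · exact h.1
    · exact h.1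
  · intro h
    rcases cases_pt hx hij l with h1 | h1 | h1 | h1
    · exact Or.inl h1
    · exact Or.inr (Or.inl h1)
    · exact Or.inr (Or.inr (Or.inl ⟨h, mem_L.1 h1⟩))
    · exact Or.inr (Or.inr (Or.inr ⟨h, mem_R.1 h1⟩))

lemma card_LR (hx : GP x) (hij : i ≠ j) : (R x i j).card = M - lev x i j := by
  have h1 := rec_T hx hij (mem_univ i) (mem_univ j)
  have h2 := card_un hij (fL (x := x) (i := i) (j := j) univ) (fR (x := x) (i := i) (j := j) univ)
  rw [h1, card_univ, Fintype.card_fin] at h2
  have h3 : (univ.filter fun l => 0 < side (x i) (x j) (x l)).card = lev x i j := rfl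
  have h4 : (univ.filter fun l => side (x i) (x j) (x l) < 0).card = (R x i j).card := rfl
  rw [h3, h4] at h2
  omega

/-- the number of the subsets with a given directed edge -/
lemma count (k s : ℕ) (hx : GP x) (hne : i ≠ j) :
    ((powersetCard (k + s + 2) (univ : Finset (Fin (M + 2)))).filter
      fun T => (i, j) ∈ ke x T k).card = v k s M (lev x i j) := by
  have h0 : v k s M (lev x i j) = (powersetCard k (L x i j) ×ˢ powersetCard s (R x i j)).card := by
    rw [card_product, card_powersetCard, card_powersetCard, card_LR hx hne]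
    rfl
  rw [h0]
  refine Finset.card_nbij' (fun T => (T.filter fun l => 0 < side (x i) (x j) (x l),
    T.filter fun l => side (x i) (x j) (x l) < 0)) (fun P => insert i (insert j (P.1 ∪ P.2)))
    ?_ ?_ ?_ ?_
  · intro T hT
    rw [mem_coe, mem_filter, mem_powersetCard] at hT
    obtain ⟨⟨-, hc⟩, hb⟩ := hT
    unfold ke at hb
    rw [mem_filter, mem_product] at hb
    obtain ⟨⟨hi, hj⟩, -, h1⟩ := hb
    have hk : (T.filter fun l => 0 < side (x i) (x j) (x l)).card = k := h1
    have h2 := card_un hne (fL (x := x) (i := i) (j := j) T) (fR (x := x) (i := i) (j := j) T)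
    rw [rec_T hx hne hi hj, hc, hk] at h2
    rw [mem_coe, mem_product, mem_powersetCard, mem_powersetCard]
    refine ⟨⟨fL T, hk⟩, ⟨fR T, ?_⟩⟩
    show (T.filter fun l => side (x i) (x j) (x l) < 0).card = s
    omega
  · rintro ⟨A, B⟩ hP
    rw [mem_coe, mem_product, mem_powersetCard, mem_powersetCard] at hP
    obtain ⟨⟨hA, hA'⟩, ⟨hB, hB'⟩⟩ := hP
    change A ⊆ L x i j at hA
    change A.card = k at hA'
    change B ⊆ R x i j at hB
    change B.card = s at hB'
    show insert i (insert j (A ∪ B)) ∈ _
    have hc : (insert i (insert j (A ∪ B))).card = k + s + 2 := by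
      rw [card_un hne hA hB, hA', hB']
    rw [mem_coe, mem_filter, mem_powersetCard]
    refine ⟨⟨subset_univ _, hc⟩, ?_⟩
    unfold ke
    rw [mem_filter]
    refine ⟨mem_product.2 ⟨mem_insert_self _ _, mem_insert_of_mem (mem_insert_self _ _)⟩, hne, ?_⟩
    show ((insert i (insert j (A ∪ B))).filter
        (fun l => 0 < side (x i) (x j) (x l))).card = k
    rw [un_L hA hB, hA']
  · intro T hT
    rw [mem_coe, mem_filter] at hT
    have hb := hT.2
    unfold ke at hb
    rw [mem_filter, mem_product] at hb
    exact rec_T hx hne hb.1.1 hb.1.2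
  · rintro ⟨A, B⟩ hP
    rw [mem_coe, mem_product, mem_powersetCard, mem_powersetCard] at hP
    obtain ⟨⟨hA, -⟩, ⟨hB, -⟩⟩ := hP
    exact Prod.ext (un_L hA hB) (un_R hA hB)

end

end ICk

open Classical in
theorem pr_Ck : St_Ck := by
  intro k s M x hx
  have h1 : ∀ T : Finset (Fin (M + 2)), (ke x T k).card =
      ∑ e ∈ (univ : Finset (Fin (M + 2) × Fin (M + 2))).filter (fun e => e.1 ≠ e.2),
        if e ∈ ke x T k then 1 else 0 := by
    intro T
    rw [← Finset.card_filter]
    congr 1
    ext e
    rw [mem_filter, mem_filter]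
    constructor
    · intro h
      refine ⟨⟨mem_univ _, ?_⟩, h⟩
      unfold ke at h
      exact (mem_filter.1 h).2.1
    · intro h
      exact h.2
  rw [Finset.sum_congr rfl fun T _ => h1 T, Finset.sum_comm]
  refine Finset.sum_congr rfl fun e he => ?_
  rw [← Finset.card_filter]
  exact ICk.count k s hx (mem_filter.1 he).2

end Pool.Agent.Work.MP_e17eac_co.RP
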