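import Pool.Agent.Work.MP_e17eac_co.RP.Stmts2

/-!
# Block RP, item Fk: the finite theorem for `k`-edges
-/

set_option autoImplicit false

namespace Pool.Agent.Work.MP_e17eac_co.RP

open Finset MeasureTheory

namespace IFk

theorem lev_le {M : ℕ} (x : Fin (M + 2) → ℝ × ℝ) (i j : Fin (M + 2)) (hij : i ≠ j) :
    lev x i j ≤ M := by
  classical
  unfold lev
  have hsub : (univ.filter fun l => 0 < side (x i) (x j) (x l)) ⊆ (univ.erase i).erase j := by
    intro l hl
    rw [mem_filter] at hl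
    rw [mem_erase, mem_erase]
    refine ⟨?_, ?_, mem_univ _⟩
    · rintro rfl
      have h := hl.2
      unfold side at h
      nlinarith
    · rintro rfl
      have h := hl.2
      unfold side at h
      nlinarith
  refine (card_le_card hsub).trans ?_
  rw [card_erase_of_mem (mem_erase.2 ⟨hij.symm, mem_univ _⟩), card_erase_of_mem (mem_univ _),
    card_univ, Fintype.card_fin]
  omega

end IFk

/-- Fk. -/
theorem pr_Fk (hWc : St_Wc) (hSk : St_Sk) (hYk : St_Yk) (hOk : St_Ok) (hLk : St_Lk)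
    (hCk : St_Ck) (hRk : St_Rk) : St_Fk := by
  intro k s d hks hd x hx
  classical
  have h0 := hCk k s (k + s + d) x hx
  have h1 : ∑ T ∈ powersetCard (k + s + 2) (univ : Finset (Fin (k + s + d + 2))),
      ((ke x T k).card : ℝ) =
      ∑ e ∈ (univ : Finset (Fin (k + s + d + 2) × Fin (k + s + d + 2))).filter
        (fun e => e.1 ≠ e.2), (v k s (k + s + d) (lev x e.1 e.2) : ℝ) := by
    exact_mod_cast h0
  rw [h1]
  obtain ⟨P, hP⟩ : ∃ P, P = (univ : Finset (Fin (k + s + d + 2) × Fin (k + s + d + 2))).filter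
        (fun e => e.1 ≠ e.2) := ⟨_, rfl⟩
  rw [← hP]
  have hmaps : ∀ e ∈ P, lev x e.1 e.2 ∈ range (k + s + d + 1) := by
    intro e he
    rw [hP, mem_filter] at he
    rw [mem_range]
    have := IFk.lev_le x e.1 e.2 he.2
    omega
  rw [← sum_fiberwise_of_maps_to hmaps]
  obtain ⟨a, ha⟩ : ∃ a : ℕ → ℝ, a = fun j => ((P.filter fun e => lev x e.1 e.2 = j).card : ℝ) :=
    ⟨_, rfl⟩
  obtain ⟨u, hu⟩ : ∃ u : ℕ → ℝ, u = fun j => (v k s (k + s + d) j : ℝ) := ⟨_, rfl⟩
  have h2 : ∀ j ∈ range (k + s + d + 1), ∑ e ∈ P.filter (fun e => lev x e.1 e.2 = j),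
      (v k s (k + s + d) (lev x e.1 e.2) : ℝ) = a j * u j := by
    intro j _
    rw [ha, hu]
    show _ = ((P.filter fun e => lev x e.1 e.2 = j).card : ℝ) * (v k s (k + s + d) j : ℝ)
    rw [← nsmul_eq_mul, ← sum_const]
    refine sum_congr rfl fun e he => ?_
    rw [(mem_filter.1 he).2]
  rw [sum_congr rfl h2]
  have hdr : (0 : ℝ) < d := by exact_mod_cast hd
  have hkr : (0 : ℝ) ≤ k := Nat.cast_nonneg _
  have hsr : (0 : ℝ) ≤ s := Nat.cast_nonneg _
  have hch : 0 < (k + s + d).choose (k + s) := Nat.choose_pos (by omega)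
  have hchr : (0 : ℝ) < ((k + s + d).choose (k + s) : ℕ) := by exact_mod_cast hch
  have hden : (0 : ℝ) < (k + s + d) + (k + 1) * d := by positivity
  have hW0 : (0 : ℝ) < Real.sqrt (600 * (k + s + d) / ((k + s + d) + (k + 1) * d)) *
      ((k + s + d).choose (k + s) : ℕ) := by
    refine mul_pos (Real.sqrt_pos.2 ?_) hchr
    positivity
  have hZ0 : (0 : ℝ) < (((k + s + d + 1).choose (k + s + 1) : ℕ) : ℝ) := by
    have : 0 < (k + s + d + 1).choose (k + s + 1) := Nat.choose_pos (by omega)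
    exact_mod_cast this
  have hZY : (((k + s + d + 1).choose (k + s + 1) : ℕ) : ℝ) ≤
      ((k : ℝ) + 1) * ((k + s + d + 2).choose (k + s + 2) : ℕ) := by
    have h3 : (k + s + d + 1).choose (k + s + 1) ≤ (k + s + d + 2).choose (k + s + 2) := by
      have h5 : (k + s + d + 2).choose (k + s + 2) =
          (k + s + d + 1).choose (k + s + 1) + (k + s + d + 1).choose (k + s + 1 + 1) :=
        Nat.choose_succ_succ' (k + s + d + 1) (k + s + 1)
      rw [h5]
      exact Nat.le_add_right _ _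
    have h4 : (((k + s + d + 1).choose (k + s + 1) : ℕ) : ℝ) ≤
        ((k + s + d + 2).choose (k + s + 2) : ℕ) := by exact_mod_cast h3
    nlinarith
  have hbound : ∀ j ≤ k + s + d, 0 ≤ u j ∧ u j ≤
      Real.sqrt (600 * (k + s + d) / ((k + s + d) + (k + 1) * d)) *
        ((k + s + d).choose (k + s) : ℕ) := by
    intro j hj
    rw [hu]
    refine ⟨Nat.cast_nonneg _, ?_⟩
    show (v k s (k + s + d) j : ℝ) ≤ _
    have h3 := hWc k s d j hks hd hj
    have h4 : (((k : ℝ) + s + d) + (k + 1) * d) * (v k s (k + s + d) j : ℝ) ^ 2 ≤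
        600 * (k + s + d) * (((k + s + d).choose (k + s) : ℕ) : ℝ) ^ 2 := by exact_mod_cast h3
    refine abs_le_of_sq_le_sq' ?_ hW0.le |>.2
    rw [mul_pow, Real.sq_sqrt (by positivity), div_mul_eq_mul_div, le_div_iff₀ hden]
    linarith
  have hsumv : ∑ j ∈ range (k + s + d + 1), u j ≤
      (((k + s + d + 1).choose (k + s + 1) : ℕ) : ℝ) := by
    rw [hu, ← hSk k s (k + s + d), Nat.cast_sum]
  have hsumy : ∑ j ∈ range (k + s + d + 1), ((j : ℝ) + 1) * u j ≤
      ((k : ℝ) + 1) * ((k + s + d + 2).choose (k + s + 2) : ℕ) := by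
    have h3 := hYk k s (k + s + d)
    have h5 : ((∑ j ∈ range (k + s + d + 1), (j + 1) * v k s (k + s + d) j : ℕ) : ℝ) =
        (((k + 1) * (k + s + d + 2).choose (k + s + 2) : ℕ) : ℝ) := by rw [h3]
    rw [Nat.cast_sum, Nat.cast_mul, Nat.cast_add, Nat.cast_one] at h5
    rw [hu, ← h5]
    refine le_of_eq (sum_congr rfl fun j _ => ?_)
    show ((j : ℝ) + 1) * (v k s (k + s + d) j : ℝ) = _
    rw [Nat.cast_mul, Nat.cast_add, Nat.cast_one]
  have hR : ∀ (K : ℕ) (R : Finset ℕ), R ⊆ range (k + s + d + 1) → (∀ j ∈ R, j ≤ K) →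
      ∑ j ∈ R, a j ≤ 16 * ((k + s + d + 2 : ℕ) : ℝ) * ((K : ℝ) + 1) ^ ((1 : ℝ) / 3) *
        (R.card : ℝ) ^ ((2 : ℝ) / 3) := by
    intro K R _ hK
    have h3 := hLk (k + s + d + 2) x (by omega) hx K R hK
    obtain ⟨F, hF⟩ : ∃ F : Finset (Fin (k + s + d + 2) × Fin (k + s + d + 2)),
      F = (univ : Finset (Fin (k + s + d + 2) × Fin (k + s + d + 2))).filter
        fun e => e.1 ≠ e.2 ∧ lev x e.1 e.2 ∈ R := ⟨_, rfl⟩
    rw [← hF] at h3
    refine le_trans (le_of_eq ?_) h3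
    have hm : ∀ e : Fin (k + s + d + 2) × Fin (k + s + d + 2), e ∈ F ↔
        (e.1 ≠ e.2 ∧ lev x e.1 e.2 ∈ R) := by
      intro e
      rw [hF, mem_filter]
      exact ⟨fun h => h.2, fun h => ⟨mem_univ _, h⟩⟩
    have hmP : ∀ e : Fin (k + s + d + 2) × Fin (k + s + d + 2), e ∈ P ↔ e.1 ≠ e.2 := by
      intro e
      rw [hP, mem_filter]
      exact ⟨fun h => h.2, fun h => ⟨mem_univ _, h⟩⟩
    have hc : F.card = ∑ j ∈ R, (F.filter fun e => lev x e.1 e.2 = j).card :=
      card_eq_sum_card_fiberwise (fun e he => ((hm e).1 (mem_coe.1 he)).2)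
    rw [hc, Nat.cast_sum, ha]
    refine sum_congr rfl fun j hj => ?_
    have hfe : (P.filter fun e => lev x e.1 e.2 = j) = F.filter fun e => lev x e.1 e.2 = j := by
      ext e
      rw [mem_filter, mem_filter, hm, hmP]
      constructor
      · rintro ⟨h5, h6⟩
        exact ⟨⟨h5, by rw [h6]; exact hj⟩, h6⟩
      · rintro ⟨⟨h5, -⟩, h6⟩
        exact ⟨h5, h6⟩
    show ((P.filter fun e => lev x e.1 e.2 = j).card : ℝ) = _
    rw [hfe]
  have h5 := hOk (k + s + d) a u (16 * ((k + s + d + 2 : ℕ) : ℝ))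
    (Real.sqrt (600 * (k + s + d) / ((k + s + d) + (k + 1) * d)) *
      ((k + s + d).choose (k + s) : ℕ))
    (((k + s + d + 1).choose (k + s + 1) : ℕ) : ℝ)
    (((k : ℝ) + 1) * ((k + s + d + 2).choose (k + s + 2) : ℕ))
    (fun j _ => by rw [ha]; exact Nat.cast_nonneg _) hbound hW0 hZ0 hZY hsumv hsumy
    (by positivity) hR
  exact h5.trans (hRk k s d hks hd)

end Pool.Agent.Work.MP_e17eac_co.RP
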