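import Pool.Agent.Work.MP_e17eac_co.RP.Stmts

/-!
# Block RP, item Ge: general position almost surely
-/

set_option autoImplicit false

namespace Pool.Agent.Work.MP_e17eac_co.RP

open Finset MeasureTheory

namespace IGe

theorem point_null (μ : Measure (ℝ × ℝ)) (h : ∀ p q : ℝ × ℝ, p ≠ q → μ {r | side p q r = 0} = 0)
    (x : ℝ × ℝ) : ∀ᵐ y ∂μ, x ≠ y := by
  rw [ae_iff]
  have hne : x ≠ x + (1, 0) := by
    intro h1
    have h2 := congrArg Prod.fst h1
    rw [Prod.fst_add] at h2
    linarith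
  refine measure_mono_null ?_ (h x (x + (1, 0)) hne)
  intro y hy
  have hy' : x = y := not_not.1 hy
  subst hy'
  change side x (x + (1, 0)) x = 0
  unfold side
  ring

theorem line_null (μ : Measure (ℝ × ℝ)) (h : ∀ p q : ℝ × ℝ, p ≠ q → μ {r | side p q r = 0} = 0)
    (x y : ℝ × ℝ) (hxy : x ≠ y) : ∀ᵐ z ∂μ, side x y z ≠ 0 := by
  rw [ae_iff]
  refine measure_mono_null ?_ (h x y hxy)
  intro z hz
  exact not_not.1 hz

theorem two (μ : Measure (ℝ × ℝ)) [IsProbabilityMeasure μ]
    (h : ∀ p q : ℝ × ℝ, p ≠ q → μ {r | side p q r = 0} = 0) (x : ℝ × ℝ) :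
    ∀ᵐ Y ∂(Measure.pi fun _ : Fin 2 => μ), side x (Y 0) (Y 1) ≠ 0 := by
  have h1 : ∀ᵐ z ∂(μ.prod (Measure.pi fun _ : Fin 1 => μ)), side x z.1 (z.2 0) ≠ 0 := by
    rw [Measure.ae_prod_iff_ae_ae]
    · filter_upwards [point_null μ h x] with y hy
      exact (measurePreserving_eval (fun _ : Fin 1 => μ) 0).quasiMeasurePreserving.ae
        (line_null μ h x y hy)
    · refine (isOpen_ne_fun ?_ continuous_const).measurableSet
      unfold side
      fun_prop
  exact (measurePreserving_piFinSuccAbove (fun _ : Fin 2 => μ) 0).quasiMeasurePreserving.ae h1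

theorem three (μ : Measure (ℝ × ℝ)) [IsProbabilityMeasure μ]
    (h : ∀ p q : ℝ × ℝ, p ≠ q → μ {r | side p q r = 0} = 0) :
    ∀ᵐ Y ∂(Measure.pi fun _ : Fin 3 => μ), side (Y 0) (Y 1) (Y 2) ≠ 0 := by
  have h1 : ∀ᵐ z ∂(μ.prod (Measure.pi fun _ : Fin 2 => μ)), side z.1 (z.2 0) (z.2 1) ≠ 0 := by
    rw [Measure.ae_prod_iff_ae_ae]
    · exact Filter.Eventually.of_forall fun x => two μ h x
    · refine (isOpen_ne_fun ?_ continuous_const).measurableSet
      unfold side
      fun_prop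
  exact (measurePreserving_piFinSuccAbove (fun _ : Fin 3 => μ) 0).quasiMeasurePreserving.ae h1

end IGe

theorem pr_Ge (hMp : St_Mp) : St_Ge := by
  intro N μ _ h
  unfold GP
  rw [ae_all_iff]
  intro i
  rw [ae_all_iff]
  intro j
  rw [ae_all_iff]
  intro l
  rw [ae_all_iff]
  intro hij
  rw [ae_all_iff]
  intro hil
  rw [ae_all_iff]
  intro hjl
  have he : Function.Injective ![i, j, l] := by
    intro a b hab
    fin_cases a <;> fin_cases b
    · rfl
    · exact absurd hab hij
    · exact absurd hab hil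
    · exact absurd hab.symm hij
    · rfl
    · exact absurd hab hjl
    · exact absurd hab.symm hil
    · exact absurd hab.symm hjl
    · rfl
  exact (hMp N 3 ![i, j, l] he μ).quasiMeasurePreserving.ae (IGe.three μ h)

end Pool.Agent.Work.MP_e17eac_co.RP
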