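import Pool.Agent.Work.MP_e17eac_co.RP.Stmts2

/-! # Item Ik of block RP: directed edges of independent points (variant of item Ii) -/

set_option autoImplicit false

namespace Pool.Agent.Work.MP_e17eac_co.RP

open Finset MeasureTheory

namespace IIk

/-- the number of pairs is bounded -/
theorem ke_le {N : ℕ} (X : Fin N → ℝ × ℝ) (T : Finset (Fin N)) (k : ℕ) :
    (ke X T k).card ≤ N * N := by
  classical
  have h1 : (ke X T k).card ≤ (T ×ˢ T).card := by
    unfold ke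
    exact Finset.card_filter_le _ _
  have h2 : T.card ≤ N := by simpa using Finset.card_le_univ T
  have h3 : (T ×ˢ T).card ≤ N * N := by
    rw [Finset.card_product]
    exact Nat.mul_le_mul h2 h2
  exact h1.trans h3

/-- measurability of the real function -/
theorem meas_ke (hMk : St_Mk) (N k : ℕ) (T : Finset (Fin N)) :
    Measurable fun X : Fin N → ℝ × ℝ => ((ke X T k).card : ℝ) :=
  (measurable_from_nat (f := fun n : ℕ => (n : ℝ))).comp (hMk N k T)

/-- integrability -/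
theorem int_ke (hMk : St_Mk) (N k : ℕ) (T : Finset (Fin N)) (μ : Measure (ℝ × ℝ))
    [IsProbabilityMeasure μ] :
    Integrable (fun X : Fin N → ℝ × ℝ => ((ke X T k).card : ℝ))
      (Measure.pi fun _ => μ) := by
  refine Integrable.of_bound (C := (N * N : ℕ)) (meas_ke hMk N k T).aestronglyMeasurable ?_
  refine Filter.Eventually.of_forall fun X => ?_
  rw [Real.norm_of_nonneg (Nat.cast_nonneg _)]
  exact_mod_cast ke_le X T k

/-- the expectation for a subfamily -/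
theorem exp_eq (hMp : St_Mp) (hMk : St_Mk) (hRf : St_Rf) (N n k : ℕ) (T : Finset (Fin N))
    (h : T.card = n) (μ : Measure (ℝ × ℝ)) [IsProbabilityMeasure μ] :
    ∫ Y : Fin N → ℝ × ℝ, ((ke Y T k).card : ℝ) ∂(Measure.pi fun _ => μ) =
      ∫ X : Fin n → ℝ × ℝ, ((ke X univ k).card : ℝ) ∂(Measure.pi fun _ => μ) := by
  have mp := hMp N n (T.orderEmbOfFin h) (T.orderEmbOfFin h).injective μ
  rw [← mp.map_eq, integral_map mp.measurable.aemeasurable
    (meas_ke hMk n k univ).aestronglyMeasurable]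
  refine integral_congr_ae (Filter.Eventually.of_forall fun Y => ?_)
  simp only
  rw [hRf N n k T h Y]

/-- the numbers -/
theorem num (n C k : ℝ) (hk : 0 ≤ k) (hn : 0 < n) (hC : 0 ≤ C) :
    1400 * n * (k + 1) ^ ((1 : ℝ) / 3) * (1 + (k + 1) * n / n) ^ (-(1 : ℝ) / 6) * C ≤
      (1400 * n * (k + 1) ^ ((1 : ℝ) / 6)) * C := by
  refine mul_le_mul_of_nonneg_right ?_ hC
  have h1 : (k + 1) * n / n = k + 1 := by field_simp
  have h2 : (1 + (k + 1)) ^ (-(1 : ℝ) / 6) ≤ (k + 1) ^ (-(1 : ℝ) / 6) :=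
    Real.rpow_le_rpow_of_nonpos (by linarith) (by linarith) (by norm_num)
  have h3 : (k + 1) ^ ((1 : ℝ) / 3) * (k + 1) ^ (-(1 : ℝ) / 6) = (k + 1) ^ ((1 : ℝ) / 6) := by
    rw [← Real.rpow_add (by linarith)]
    norm_num
  rw [h1]
  calc 1400 * n * (k + 1) ^ ((1 : ℝ) / 3) * (1 + (k + 1)) ^ (-(1 : ℝ) / 6)
      ≤ 1400 * n * (k + 1) ^ ((1 : ℝ) / 3) * (k + 1) ^ (-(1 : ℝ) / 6) :=
        mul_le_mul_of_nonneg_left h2 (by positivity)
    _ = 1400 * n * ((k + 1) ^ ((1 : ℝ) / 3) * (k + 1) ^ (-(1 : ℝ) / 6)) := by ring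
    _ = 1400 * n * (k + 1) ^ ((1 : ℝ) / 6) := by rw [h3]

end IIk

/-- INDEPENDENT POINTS, directed edges. -/
theorem pr_Ik (hFk : St_Fk) (hMp : St_Mp) (hGe : St_Ge) (hMk : St_Mk) (hRf : St_Rf) :
    St_Ik := by
  intro k s hks μ _ hμ
  refine ⟨IIk.int_ke hMk _ _ _ μ, ?_⟩
  set I : ℝ := ∫ X : Fin (k + s + 2) → ℝ × ℝ, ((ke X univ k).card : ℝ)
    ∂(Measure.pi fun _ => μ) with hI
  have h1 : ∑ T ∈ powersetCard (k + s + 2) (univ : Finset (Fin (k + s + (k + s + 2) + 2))),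
      ∫ Y : Fin (k + s + (k + s + 2) + 2) → ℝ × ℝ, ((ke Y T k).card : ℝ)
        ∂(Measure.pi fun _ => μ) =
      (((k + s + (k + s + 2) + 2).choose (k + s + 2) : ℕ) : ℝ) * I := by
    rw [Finset.sum_congr rfl (fun T hT => IIk.exp_eq hMp hMk hRf _ (k + s + 2) k T
      (Finset.mem_powersetCard.1 hT).2 μ), Finset.sum_const, Finset.card_powersetCard,
      nsmul_eq_mul, Finset.card_univ, Fintype.card_fin]
  rw [← integral_finsetSum _ (fun T _ => IIk.int_ke hMk _ _ T μ)] at h1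
  have h2 : ∫ Y : Fin (k + s + (k + s + 2) + 2) → ℝ × ℝ,
      ∑ T ∈ powersetCard (k + s + 2) (univ : Finset (Fin (k + s + (k + s + 2) + 2))),
        ((ke Y T k).card : ℝ) ∂(Measure.pi fun _ => μ) ≤
      ∫ _Y : Fin (k + s + (k + s + 2) + 2) → ℝ × ℝ,
        ((1400 * ((k + s + 2 : ℕ) : ℝ) * ((k : ℝ) + 1) ^ ((1 : ℝ) / 6)) *
          (((k + s + (k + s + 2) + 2).choose (k + s + 2) : ℕ) : ℝ)) ∂(Measure.pi fun _ => μ) := by
    refine integral_mono_ae (integrable_finsetSum _ (fun T _ => IIk.int_ke hMk _ _ T μ))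
      (integrable_const _) ?_
    filter_upwards [hGe (k + s + (k + s + 2) + 2) μ hμ] with Y hY
    have h3 := hFk k s (k + s + 2) hks (by omega) Y hY
    rw [min_self] at h3
    exact h3.trans (IIk.num ((k + s + 2 : ℕ) : ℝ) _ (k : ℝ) (Nat.cast_nonneg _)
      (by exact_mod_cast Nat.succ_pos _) (Nat.cast_nonneg _))
  rw [h1, integral_const] at h2
  simp only [probReal_univ, one_smul] at h2
  have hc : (0 : ℝ) < (((k + s + (k + s + 2) + 2).choose (k + s + 2) : ℕ) : ℝ) := by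
    exact_mod_cast Nat.choose_pos (by omega)
  rw [mul_comm _ I] at h2
  exact le_of_mul_le_mul_right h2 hc

end Pool.Agent.Work.MP_e17eac_co.RP
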