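import Pool.Agent.Work.MP_e17eac_co.RP.Stmts2
import Pool.Agent.Work.MP_e17eac_co.Bd.B16

/-!
# Item KD of block RP: several low levels

A variant of the multilevel bound of Dey (`I_MDey` in `Bd/B16.lean`) in which the bottom token of the
crossing pair takes only `Q + 1` values.
-/

set_option autoImplicit false

namespace Pool.Agent.Work.MP_e17eac_co.RP

open Finset
open Pool.Agent.Work.MP_e17eac_co.DH
open Pool.Agent.Work.MP_e17eac_co.PS
open Pool.Agent.Work.MP_e17eac_co.DH.XSWEEP (EE tm)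

namespace IKD

variable {ι : Type} [Fintype ι] [DecidableEq ι]

/-- The bottom set before the edge `n` is the set of the positions of the tokens of `S 0`. -/
theorem S_image (K : KSys ι) : ∀ n, n ≤ K.N → ∀ i, K.pos n i ∈ K.S n ↔ i ∈ K.S 0 := by
  intro n
  induction n with
  | zero =>
    intro _ i
    exact Iff.rfl
  | succ n ih =>
    intro hn i
    have hn' : n < K.N := hn
    have h1 := K.a_mem n hn'
    have h2 := K.b_mem n hn'
    have h3 : K.a n ≠ K.b n := fun h => h2 (h ▸ h1)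
    have e : K.pos (n + 1) i = Equiv.swap (K.a n) (K.b n) (K.pos n i) := rfl
    rw [e, K.S_succ n hn', ← ih hn'.le i]
    generalize K.pos n i = j
    by_cases ha : j = K.a n
    · subst ha
      rw [Equiv.swap_apply_left]
      exact ⟨fun _ => h1, fun _ => mem_insert_self _ _⟩
    · by_cases hb : j = K.b n
      · subst hb
        rw [Equiv.swap_apply_right]
        constructor
        · intro h
          rcases mem_insert.1 h with h | h
          · exact absurd h h3
          · exact absurd rfl (ne_of_mem_erase h)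
        · intro h
          exact absurd h h2
      · rw [Equiv.swap_apply_of_ne_of_ne ha hb, mem_insert, mem_erase]
        constructor
        · rintro (h | h)
          · exact absurd h hb
          · exact h.2
        · intro h
          exact Or.inr ⟨ha, h⟩

/-- All bottom sets have the same size. -/
theorem S_card (K : KSys ι) (n : ℕ) (hn : n ≤ K.N) : (K.S n).card = (K.S 0).card := by
  have h : K.S n = (K.S 0).map (K.pos n).toEmbedding := by
    ext j
    rw [mem_map_equiv, ← S_image K n hn, Equiv.apply_symm_apply]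
  rw [h, card_map]

/-- The bottom token of an edge is an element of `S 0`. -/
theorem tokB_mem (K : KSys ι) (n : ℕ) (hn : n < K.N) : K.tokB n ∈ K.S 0 := by
  rw [← S_image K n hn.le]
  unfold KSys.tokB
  rw [Equiv.apply_symm_apply]
  exact K.a_mem n hn

/-- The number of lines below the common point of the lines of the edge `n`. -/
theorem cnt_card (K : KSys ι) (n : ℕ) (hn : n < K.N)
    (ht : tm K.x K.y (K.b n, K.a n) = K.t n) :
    XSWEEP.cnt K.x K.y (K.b n) (K.a n) + 1 = (K.S n).card := by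
  classical
  have h1 := K.a_mem n hn
  have h2 := K.b_mem n hn
  have hlo : ∀ k, k < n → K.t k ≤ K.t n := fun k hk => (K.t_lt k n hk hn).le
  have hhi : ∀ k, n ≤ k → k < K.N → K.t n ≤ K.t k := by
    intro k hk hkN
    rcases hk.lt_or_eq with h | h
    · exact (K.t_lt n k h hkN).le
    · rw [h]
  have hb := K.below n hn.le (K.t n) hlo hhi
  have hab := K.above n hn.le (K.t n) hlo hhi
  have hm := K.meet n hn
  have hL : K.L (K.t n) = K.y (K.a n) + K.x (K.a n) * K.t n := by
    have g1 := hb _ h1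
    have g2 := hab _ h2
    linarith
  have hset : (univ.filter (fun l => XSWEEP.ht K.x K.y l (XSWEEP.cm K.x K.y (K.b n) (K.a n)) <
      XSWEEP.ht K.x K.y (K.b n) (XSWEEP.cm K.x K.y (K.b n) (K.a n)))) = (K.S n).erase (K.a n) := by
    have ht' : XSWEEP.cm K.x K.y (K.b n) (K.a n) = K.t n := ht
    rw [ht']
    ext l
    rw [mem_filter, mem_erase]
    unfold XSWEEP.ht
    constructor
    · rintro ⟨_, h⟩
      have hla : l ≠ K.a n := by
        rintro rfl
        linarith
      refine ⟨hla, ?_⟩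
      by_contra hS
      have := hab l hS
      linarith
    · rintro ⟨hla, hS⟩
      refine ⟨mem_univ _, ?_⟩
      have hlb : l ≠ K.b n := fun h => h2 (h ▸ hS)
      have g1 := hb l hS
      have g2 := K.third n hn l hla hlb
      rcases g1.lt_or_eq with h | h
      · linarith
      · exact absurd (h.trans hL) g2
  unfold XSWEEP.cnt
  have hc := card_erase_add_one h1
  rw [← hset] at hc
  exact hc

theorem arith (V n s X R q : ℕ) (h1 : 8 * n * s ≤ V) (h2 : V ≤ 16 * n * s)
    (h : V * s ^ 2 ≤ 4 * n * s ^ 3 + X) (hX : X ≤ R ^ 2 * (q * n)) :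
    V ^ 3 ≤ 512 * n ^ 3 * q * R ^ 2 := by
  have h3 : V * s ^ 2 ≤ 2 * X := by
    have h4 : 8 * n * s * s ^ 2 ≤ V * s ^ 2 := Nat.mul_le_mul_right _ h1
    nlinarith [h4, h]
  calc V ^ 3 = V * V * V := by ring
    _ ≤ (16 * n * s) * (16 * n * s) * V := Nat.mul_le_mul_right _ (Nat.mul_le_mul h2 h2)
    _ = 256 * n ^ 2 * (V * s ^ 2) := by ring
    _ ≤ 256 * n ^ 2 * (2 * X) := Nat.mul_le_mul_left _ h3
    _ ≤ 256 * n ^ 2 * (2 * (R ^ 2 * (q * n))) :=
        Nat.mul_le_mul_left _ (Nat.mul_le_mul_left _ hX)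
    _ = 512 * n ^ 3 * q * R ^ 2 := by ring

theorem cross_card (h1 : StSweepAll) (h2 : StCinj2) [Nonempty ι] (x y : ι → ℝ)
    (h01 : ∀ i, 0 ≤ x i ∧ x i ≤ 1) (hinj : Function.Injective x)
    (hGP : XSWEEP.GP x y) (Rs : Finset ℕ) (Q : ℕ) (hQ : ∀ r ∈ Rs, r ≤ Q) :
    (pcp x y (Rs.biUnion (EE x y))).card ≤ Rs.card ^ 2 * ((Q + 1) * Fintype.card ι) := by
  classical
  choose K hKx hKy hKN hK1 hK2 using fun k => h1 ι x y k h01 hinj hGP
  choose g hg1 hg2 using hK2
  set lv : ι × ι → ℕ := fun e => XSWEEP.cnt x y e.1 e.2 with hlv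
  set idx : ι × ι → ℕ := fun e => if h : e ∈ EE x y (lv e) then g (lv e) e h else 0 with hidx
  have hmem : ∀ e ∈ Rs.biUnion (EE x y), lv e ∈ Rs ∧ e ∈ EE x y (lv e) := by
    intro e he
    obtain ⟨r, hr, her⟩ := Finset.mem_biUnion.1 he
    have : lv e = r := (XSWEEP.mem_EE.1 her).2
    rw [this]
    exact ⟨hr, her⟩
  have hprop : ∀ e ∈ Rs.biUnion (EE x y), idx e < (K (lv e)).N ∧
      ((K (lv e)).b (idx e), (K (lv e)).a (idx e)) = e := by
    intro e he
    have h := (hmem e he).2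
    have hi : idx e = g (lv e) e h := by simp only [hidx, dif_pos h]
    rw [hi]
    exact ⟨hg1 _ _ h, hg2 _ _ h⟩
  have htm : ∀ e ∈ Rs.biUnion (EE x y), tm x y e = (K (lv e)).t (idx e) := by
    intro e he
    obtain ⟨h3, h4⟩ := hprop e he
    have := (hK1 (lv e) (idx e) h3).2
    rw [h4] at this
    exact this
  have hhE : ∀ e ∈ Rs.biUnion (EE x y), hE x y e = (K (lv e)).h (idx e) := by
    intro e he
    obtain ⟨h3, h4⟩ := hprop e he
    have hm := (K (lv e)).meet (idx e) h3
    have hb : (K (lv e)).b (idx e) = e.1 := congrArg Prod.fst h4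
    unfold hE KSys.h KSys.ht XSWEEP.ht
    rw [hm, htm e he, hb, hKx, hKy]
  have hxa : ∀ e ∈ Rs.biUnion (EE x y), (K (lv e)).x ((K (lv e)).a (idx e)) = x e.2 := by
    intro e he
    have h4 := (hprop e he).2
    have ha : (K (lv e)).a (idx e) = e.2 := congrArg Prod.snd h4
    rw [ha, hKx]
  have hxb : ∀ e ∈ Rs.biUnion (EE x y), (K (lv e)).x ((K (lv e)).b (idx e)) = x e.1 := by
    intro e he
    have h4 := (hprop e he).2
    have ha : (K (lv e)).b (idx e) = e.1 := congrArg Prod.fst h4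
    rw [ha, hKx]
  set T : ℕ → Finset ι := fun r => if 0 < (K r).N then (K r).S 0 else ∅ with hT
  have hTc : ∀ r, (T r).card ≤ r + 1 := by
    intro r
    simp only [hT]
    by_cases h0 : 0 < (K r).N
    · rw [if_pos h0]
      obtain ⟨h3, h4⟩ := hK1 r 0 h0
      have h5 := (XSWEEP.mem_EE.1 h3).2
      have h6 := cnt_card (K r) 0 h0 (by rw [hKx, hKy]; exact h4)
      rw [hKx, hKy] at h6
      rw [← h6]
      exact (congrArg (fun u => u + 1) h5).le
    · rw [if_neg h0]
      simp
  have hTm : ∀ e ∈ Rs.biUnion (EE x y), (K (lv e)).tokB (idx e) ∈ T (lv e) := by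
    intro e he
    have h3 := (hprop e he).1
    simp only [hT]
    rw [if_pos (lt_of_le_of_lt (Nat.zero_le _) h3)]
    exact tokB_mem _ _ h3
  set φ : (ι × ι) × (ι × ι) → (ℕ × ℕ) × (ι × ι) := fun z =>
    ((lv z.1, lv z.2), ((K (lv z.1)).tokB (idx z.1), (K (lv z.2)).tokT (idx z.2))) with hφ
  set tgt : Finset ((ℕ × ℕ) × (ι × ι)) :=
    (Rs ×ˢ Rs).biUnion (fun p => ({p} : Finset (ℕ × ℕ)) ×ˢ (T p.1 ×ˢ (univ : Finset ι))) with htgt
  have hcard : tgt.card ≤ Rs.card ^ 2 * ((Q + 1) * Fintype.card ι) := by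
    refine card_biUnion_le.trans ?_
    have hs : ∀ p ∈ Rs ×ˢ Rs,
        (({p} : Finset (ℕ × ℕ)) ×ˢ (T p.1 ×ˢ (univ : Finset ι))).card ≤
          (Q + 1) * Fintype.card ι := by
      intro p hp
      rw [card_product, card_product, card_singleton, one_mul, card_univ]
      exact Nat.mul_le_mul_right _ ((hTc p.1).trans
        (Nat.succ_le_succ (hQ _ (mem_product.1 hp).1)))
    refine (sum_le_card_nsmul _ _ _ hs).trans ?_
    rw [card_product, smul_eq_mul, sq]
  refine le_trans (Finset.card_le_card_of_injOn φ (t := tgt) ?_ ?_) hcard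
  · intro z hz
    have hz' := (Finset.mem_filter.1 (Finset.mem_coe.1 hz)).1
    obtain ⟨hz1, hz2⟩ := Finset.mem_product.1 hz'
    rw [Finset.mem_coe, htgt, mem_biUnion]
    exact ⟨(lv z.1, lv z.2), mem_product.2 ⟨(hmem _ hz1).1, (hmem _ hz2).1⟩,
      mem_product.2 ⟨mem_singleton.2 rfl, mem_product.2 ⟨hTm _ hz1, mem_univ _⟩⟩⟩
  · intro z hz w hw hzw
    obtain ⟨hz', hzc⟩ := Finset.mem_filter.1 (Finset.mem_coe.1 hz)
    obtain ⟨hz1, hz2⟩ := Finset.mem_product.1 hz'
    obtain ⟨hw', hwc⟩ := Finset.mem_filter.1 (Finset.mem_coe.1 hw)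
    obtain ⟨hw1, hw2⟩ := Finset.mem_product.1 hw'
    obtain ⟨e, f⟩ := z
    obtain ⟨e', f'⟩ := w
    simp only [hφ, Prod.mk.injEq] at hzw hz1 hz2 hw1 hw2 hzc hwc
    obtain ⟨⟨he, hf⟩, hB, hTT⟩ := hzw
    have p1 := hprop e hz1
    have p2 := hprop f hz2
    have p3 := hprop e' hw1
    have p4 := hprop f' hw2
    have q1 := htm e hz1
    have q2 := htm f hz2
    have q3 := htm e' hw1
    have q4 := htm f' hw2
    have r1 := hhE e hz1
    have r2 := hhE f hz2
    have r3 := hhE e' hw1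
    have r4 := hhE f' hw2
    have a1 := hxa e hz1
    have a2 := hxa f hz2
    have a3 := hxa e' hw1
    have a4 := hxa f' hw2
    have b1 := hxb e hz1
    have b2 := hxb f hz2
    have b3 := hxb e' hw1
    have b4 := hxb f' hw2
    rw [← he] at p3 q3 r3 a3 b3 hB
    rw [← hf] at p4 q4 r4 a4 b4 hTT
    obtain ⟨c1, c2, c3, c4, c5⟩ := hzc
    obtain ⟨d1, d2, d3, d4, d5⟩ := hwc
    rw [r1, r2, q1, q2] at c2 c3 c4 c5
    rw [r3, r4, q3, q4] at d2 d3 d4 d5
    rw [q1, q2] at c1
    rw [q3, q4] at d1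
    rw [← b1] at c2
    rw [← a1] at c3
    rw [← b2] at c4
    rw [← a2] at c5
    rw [← b3] at d2
    rw [← a3] at d3
    rw [← b4] at d4
    rw [← a4] at d5
    obtain ⟨u1, u2⟩ := h2 ι (K (lv e)) (K (lv f)) (idx e) (idx f) (idx e') (idx f')
      p1.1 p3.1 p2.1 p4.1 c1 d1 ⟨c2, c3, c4, c5⟩ ⟨d2, d3, d4, d5⟩ hB hTT
    have v1 : e = e' := by rw [← p1.2, ← p3.2, u1]
    have v2 : f = f' := by rw [← p2.2, ← p4.2, u2]
    rw [v1, v2]

theorem aux (h1 : StSweepAll) (h2 : StCinj2) (h3 : StCrlP) : St_KD := by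
  classical
  intro ι _ _ x y h01 hinj hGP Rs Q hQ hV
  rcases isEmpty_or_nonempty ι with hι | hι
  · have : ∑ r ∈ Rs, (EE x y r).card = 0 := by
      refine Finset.sum_eq_zero fun r _ => ?_
      rw [Finset.card_eq_zero, Finset.eq_empty_iff_forall_notMem]
      intro e _
      exact hι.elim e.1
    rw [this]
    simp
  · have hcard : (Rs.biUnion (EE x y)).card = ∑ r ∈ Rs, (EE x y r).card := by
      refine Finset.card_biUnion ?_
      intro r _ r' _ hrr
      rw [Function.onFun, Finset.disjoint_left]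
      intro e he he'
      exact hrr ((XSWEEP.mem_EE.1 he).2.symm.trans (XSWEEP.mem_EE.1 he').2)
    have hX := cross_card h1 h2 x y h01 hinj hGP Rs Q hQ
    have hn : 1 ≤ Fintype.card ι := Fintype.card_pos
    rw [← hcard] at hV ⊢
    obtain ⟨s1, s2, s3⟩ := XMDey.half _ _ hn hV
    have hF : ∀ e ∈ Rs.biUnion (EE x y), x e.1 < x e.2 := by
      intro e he
      obtain ⟨r, _, her⟩ := Finset.mem_biUnion.1 he
      exact (XSWEEP.mem_EE.1 her).1
    exact arith _ _ _ _ _ _ s2 s3 (h3 ι x y hinj hGP _ hF _ s1) hX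

end IKD

/-- **KD**: several low levels. -/
theorem pr_KD : St_KD := IKD.aux I_SweepAll.1 I_Cinj2 I_CrlP

end Pool.Agent.Work.MP_e17eac_co.RP
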