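import Pool.Agent.Work.MP_e17eac_co.RP.Stmts2

/-!
# Block RP, item Lk: several low levels
-/

set_option autoImplicit false

namespace Pool.Agent.Work.MP_e17eac_co.RP

open Finset MeasureTheory
open Pool.Agent.Work.MP_e17eac_co.DH

namespace ILk

/-- The determinant. -/
def dt {N : ℕ} (X Y : Fin N → ℝ) (i j l : Fin N) : ℝ :=
  (X j - X i) * (Y l - Y i) - (Y j - Y i) * (X l - X i)

open Classical in
/-- The number of the lines below a meeting point is the number of the points on one side. -/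
theorem cnt_eq {N : ℕ} (X Y : Fin N → ℝ) (i j : Fin N) (h : X i < X j) :
    XSWEEP.cnt X Y i j = ((univ : Finset (Fin N)).filter fun l => dt X Y i j l < 0).card := by
  unfold XSWEEP.cnt
  congr 1
  ext l
  simp only [mem_filter, mem_univ, true_and]
  have h0 : 0 < X j - X i := by linarith
  have hs : (X j - X i) * XSWEEP.cm X Y i j = Y i - Y j := by
    unfold XSWEEP.cm
    field_simp
  have e : (X j - X i) * (XSWEEP.ht X Y l (XSWEEP.cm X Y i j) -
      XSWEEP.ht X Y i (XSWEEP.cm X Y i j)) = dt X Y i j l := by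
    unfold XSWEEP.ht dt
    have : (X j - X i) * (Y l + X l * XSWEEP.cm X Y i j - (Y i + X i * XSWEEP.cm X Y i j)) =
        (X j - X i) * (Y l - Y i) + (X l - X i) * ((X j - X i) * XSWEEP.cm X Y i j) := by ring
    rw [this, hs]
    ring
  rw [← e]
  constructor
  · intro h1
    exact mul_neg_of_pos_of_neg h0 (by linarith)
  · intro h1
    by_contra h2
    have := mul_nonneg h0.le (show (0 : ℝ) ≤ XSWEEP.ht X Y l (XSWEEP.cm X Y i j) -
      XSWEEP.ht X Y i (XSWEEP.cm X Y i j) by linarith)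
    linarith

/-- The points are different. -/
theorem inj {N : ℕ} (x : Fin N → ℝ × ℝ) (hN : 3 ≤ N) (hg : GP x) : Function.Injective x := by
  intro i j h
  by_contra hne
  obtain ⟨l, hl⟩ : ∃ l : Fin N, l ∉ ({i, j} : Finset (Fin N)) := by
    by_contra hc
    push Not at hc
    have h1 : (univ : Finset (Fin N)) ⊆ {i, j} := fun l _ => hc l
    have h2 := card_le_card h1
    rw [card_univ, Fintype.card_fin] at h2
    have h3 : ({i, j} : Finset (Fin N)).card ≤ 2 := card_le_two
    omega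
  simp only [mem_insert, mem_singleton, not_or] at hl
  apply hg i j l hne (fun h => hl.1 h.symm) (fun h => hl.2 h.symm)
  unfold side
  rw [h]
  ring

/-- Coordinates in the unit interval with different abscissae. -/
theorem coords {N : ℕ} (x : Fin N → ℝ × ℝ) (hN : 3 ≤ N) (hg : GP x) :
    ∃ (X Y : Fin N → ℝ) (u : ℝ), 0 < u ∧ (∀ i, 0 ≤ X i ∧ X i ≤ 1) ∧ Function.Injective X ∧
      ∀ i j l, side (x i) (x j) (x l) = u * dt X Y i j l := by
  have hx := inj x hN hg
  obtain ⟨ε, hε⟩ := Set.Infinite.exists_notMem_finset (Set.infinite_univ (α := ℝ))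
    ((univ : Finset (Fin N × Fin N)).image
      fun e => ((x e.1).1 - (x e.2).1) / ((x e.2).2 - (x e.1).2))
  have hsep : ∀ i j, (x i).1 + ε * (x i).2 = (x j).1 + ε * (x j).2 → i = j := by
    intro i j h
    by_contra hne
    rw [Finset.mem_image] at hε
    apply hε.2
    refine ⟨(i, j), mem_univ _, ?_⟩
    have h1 : (x i).1 - (x j).1 = ε * ((x j).2 - (x i).2) := by linarith
    have h2 : (x j).2 - (x i).2 ≠ 0 := by
      intro h3
      rw [h3, mul_zero] at h1
      exact hne (hx (Prod.ext (by linarith) (by linarith)))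
    show ((x i).1 - (x j).1) / ((x j).2 - (x i).2) = ε
    rw [h1]
    field_simp
  have hne : (univ : Finset (Fin N)).Nonempty := ⟨⟨0, by omega⟩, mem_univ _⟩
  obtain ⟨p0, -, hmin⟩ := Finset.exists_min_image univ
    (fun i => (x i).1 + ε * (x i).2) hne
  obtain ⟨p1, -, hmax⟩ := Finset.exists_max_image univ
    (fun i => (x i).1 + ε * (x i).2) hne
  set A : Fin N → ℝ := fun i => (x i).1 + ε * (x i).2 with hA
  have hmin' : ∀ i, A p0 ≤ A i := fun i => hmin i (mem_univ i)
  have hmax' : ∀ i, A i ≤ A p1 := fun i => hmax i (mem_univ i)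
  have hu : 0 < A p1 - A p0 + 1 := by
    have := hmin' p1
    linarith
  refine ⟨fun i => (A i - A p0) / (A p1 - A p0 + 1), fun i => (x i).2, A p1 - A p0 + 1, hu,
    ?_, ?_, ?_⟩
  · intro i
    constructor
    · exact div_nonneg (by linarith [hmin' i]) hu.le
    · rw [div_le_one hu]
      linarith [hmax' i]
  · intro i j h
    apply hsep
    have h1 : (A i - A p0) / (A p1 - A p0 + 1) = (A j - A p0) / (A p1 - A p0 + 1) := h
    rw [div_left_inj' hu.ne'] at h1
    show A i = A j
    linarith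
  · intro i j l
    unfold side dt
    have h1 : ∀ a b : Fin N, (A p1 - A p0 + 1) *
        ((A a - A p0) / (A p1 - A p0 + 1) - (A b - A p0) / (A p1 - A p0 + 1)) = A a - A b := by
      intro a b
      field_simp
      ring
    have h2 : (A p1 - A p0 + 1) *
        (((A j - A p0) / (A p1 - A p0 + 1) - (A i - A p0) / (A p1 - A p0 + 1)) *
          ((x l).2 - (x i).2) - ((x j).2 - (x i).2) *
          ((A l - A p0) / (A p1 - A p0 + 1) - (A i - A p0) / (A p1 - A p0 + 1))) =
        ((A p1 - A p0 + 1) *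
          ((A j - A p0) / (A p1 - A p0 + 1) - (A i - A p0) / (A p1 - A p0 + 1))) *
          ((x l).2 - (x i).2) - ((x j).2 - (x i).2) * ((A p1 - A p0 + 1) *
          ((A l - A p0) / (A p1 - A p0 + 1) - (A i - A p0) / (A p1 - A p0 + 1))) := by ring
    rw [h2, h1, h1]
    simp only [hA]
    ring

/-- The bound for the sum over the levels. -/
theorem sum_le (hKD : St_KD) {N : ℕ} (X Y : Fin N → ℝ)
    (h01 : ∀ i, 0 ≤ X i ∧ X i ≤ 1) (hinj : Function.Injective X) (hg : XSWEEP.GP X Y)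
    (K : ℕ) (R : Finset ℕ) (hR : ∀ r ∈ R, r ≤ K) :
    ((∑ r ∈ R, (XSWEEP.EE X Y r).card : ℕ) : ℝ) ≤
      8 * (N : ℝ) * ((K : ℝ) + 1) ^ ((1 : ℝ) / 3) * (R.card : ℝ) ^ ((2 : ℝ) / 3) := by
  rcases R.eq_empty_or_nonempty with hR0 | hR0
  · subst hR0
    simp only [sum_empty, Nat.cast_zero]
    positivity
  have hc1 : (1 : ℝ) ≤ (R.card : ℝ) := by exact_mod_cast card_pos.2 hR0
  have hk1 : (1 : ℝ) ≤ (K : ℝ) + 1 := by
    have : (0 : ℝ) ≤ (K : ℝ) := by positivity
    linarith
  by_cases h : 8 * N ≤ ∑ r ∈ R, (XSWEEP.EE X Y r).card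
  · have h1 := hKD (Fin N) X Y h01 hinj hg R K hR (by rw [Fintype.card_fin]; exact h)
    rw [Fintype.card_fin] at h1
    have h2 : ((∑ r ∈ R, (XSWEEP.EE X Y r).card : ℕ) : ℝ) ^ 3 ≤
        512 * (N : ℝ) ^ 3 * ((K : ℝ) + 1) * (R.card : ℝ) ^ 2 := by exact_mod_cast h1
    have e1 : (((K : ℝ) + 1) ^ ((1 : ℝ) / 3)) ^ 3 = (K : ℝ) + 1 := by
      rw [← Real.rpow_natCast, ← Real.rpow_mul (by linarith)]
      norm_num
    have e2 : ((R.card : ℝ) ^ ((2 : ℝ) / 3)) ^ 3 = (R.card : ℝ) ^ 2 := by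
      rw [← Real.rpow_natCast, ← Real.rpow_mul (by linarith)]
      norm_num
    have e3 : (8 * (N : ℝ) * ((K : ℝ) + 1) ^ ((1 : ℝ) / 3) *
        (R.card : ℝ) ^ ((2 : ℝ) / 3)) ^ 3 = 512 * (N : ℝ) ^ 3 * ((K : ℝ) + 1) *
        (R.card : ℝ) ^ 2 := by
      rw [mul_pow, mul_pow, mul_pow, e1, e2]
      norm_num
    rw [← e3] at h2
    exact le_of_pow_le_pow_left₀ (by norm_num) (by positivity) h2
  · have h1 : ((∑ r ∈ R, (XSWEEP.EE X Y r).card : ℕ) : ℝ) ≤ 8 * (N : ℝ) := by
      exact_mod_cast (not_le.1 h).le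
    have e1 : (1 : ℝ) ≤ ((K : ℝ) + 1) ^ ((1 : ℝ) / 3) :=
      Real.one_le_rpow hk1 (by norm_num)
    have e2 : (1 : ℝ) ≤ (R.card : ℝ) ^ ((2 : ℝ) / 3) :=
      Real.one_le_rpow hc1 (by norm_num)
    have e0 : (0 : ℝ) ≤ 8 * (N : ℝ) := by positivity
    calc ((∑ r ∈ R, (XSWEEP.EE X Y r).card : ℕ) : ℝ) ≤ 8 * (N : ℝ) := h1
      _ = 8 * (N : ℝ) * 1 * 1 := by ring
      _ ≤ _ := mul_le_mul (mul_le_mul_of_nonneg_left e1 e0) e2 (by norm_num) (by positivity)

end ILk

open Classical in
/-- Lk: several low levels. -/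
theorem pr_Lk (hKD : St_KD) : St_Lk := by
  intro N x hN hg K R hR
  obtain ⟨X, Y, u, hu, h01, hinj, hs⟩ := ILk.coords x hN hg
  have hdt : ∀ i j l : Fin N, i ≠ j → i ≠ l → j ≠ l → ILk.dt X Y i j l ≠ 0 := by
    intro i j l h1 h2 h3 h4
    apply hg i j l h1 h2 h3
    rw [hs, h4, mul_zero]
  have hg1 : XSWEEP.GP X Y := by
    intro i j l h1 h2 h3 h4
    apply hdt i j l h1 h2 h3
    unfold ILk.dt
    linarith
  have hg2 : XSWEEP.GP X (fun i => - Y i) := by
    intro i j l h1 h2 h3 h4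
    apply hdt i j l h1 h2 h3
    unfold ILk.dt
    have h5 : (X j - X i) * (- Y l - - Y i) = (- Y j - - Y i) * (X l - X i) := h4
    linarith
  have hb1 := ILk.sum_le hKD X Y h01 hinj hg1 K R hR
  have hb2 := ILk.sum_le hKD X (fun i => - Y i) h01 hinj hg2 K R hR
  set F := (univ : Finset (Fin N × Fin N)).filter
    fun e => e.1 ≠ e.2 ∧ lev x e.1 e.2 ∈ R with hF
  set F1 := F.filter fun e => X e.2 < X e.1 with hF1
  set F2 := F.filter fun e => ¬ X e.2 < X e.1 with hF2
  have hcard : F1.card + F2.card = F.card := card_filter_add_card_filter_not _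
  have h1 : F1.card ≤ ∑ r ∈ R, (XSWEEP.EE X Y r).card := by
    rw [card_eq_sum_card_fiberwise (f := fun e => lev x e.1 e.2) (t := R)
      (fun e he => by
        have h1 := mem_filter.1 (mem_filter.1 (mem_coe.1 he)).1
        exact mem_coe.2 h1.2.2)]
    apply sum_le_sum
    intro r hr
    apply card_le_card_of_injOn (fun e => (e.2, e.1))
    · intro e he
      have h2 := mem_filter.1 (mem_coe.1 he)
      have h3 := mem_filter.1 h2.1
      rw [mem_coe, XSWEEP.mem_EE]
      refine ⟨h3.2, ?_⟩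
      rw [← h2.2]
      show XSWEEP.cnt X Y e.2 e.1 = lev x e.1 e.2
      rw [ILk.cnt_eq X Y e.2 e.1 h3.2]
      unfold lev
      congr 1
      ext l
      simp only [mem_filter, mem_univ, true_and]
      rw [hs]
      have e1 : ILk.dt X Y e.1 e.2 l = - ILk.dt X Y e.2 e.1 l := by
        unfold ILk.dt
        ring
      rw [e1]
      constructor
      · intro h4
        exact mul_pos hu (by linarith)
      · intro h4
        by_contra h5
        have := mul_nonneg hu.le (not_lt.1 h5)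
        linarith
    · intro e _ e' _ h
      have h4 : (e.2, e.1) = (e'.2, e'.1) := h
      rw [Prod.mk.injEq] at h4
      exact Prod.ext h4.2 h4.1
  have h2 : F2.card ≤ ∑ r ∈ R, (XSWEEP.EE X (fun i => - Y i) r).card := by
    rw [card_eq_sum_card_fiberwise (f := fun e => lev x e.1 e.2) (t := R)
      (fun e he => by
        have h1 := mem_filter.1 (mem_filter.1 (mem_coe.1 he)).1
        exact mem_coe.2 h1.2.2)]
    apply sum_le_sum
    intro r hr
    apply card_le_card
    intro e he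
    have h2 := mem_filter.1 he
    have h3 := mem_filter.1 h2.1
    have h4 := mem_filter.1 h3.1
    have hlt : X e.1 < X e.2 := by
      rcases lt_or_eq_of_le (not_lt.1 h3.2) with h | h
      · exact h
      · exact absurd (hinj h) h4.2.1
    rw [XSWEEP.mem_EE]
    refine ⟨hlt, ?_⟩
    rw [← h2.2]
    show XSWEEP.cnt X (fun i => - Y i) e.1 e.2 = lev x e.1 e.2
    rw [ILk.cnt_eq X (fun i => - Y i) e.1 e.2 hlt]
    unfold lev
    congr 1
    ext l
    simp only [mem_filter, mem_univ, true_and]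
    rw [hs]
    have e1 : ILk.dt X (fun i => - Y i) e.1 e.2 l = - ILk.dt X Y e.1 e.2 l := by
      unfold ILk.dt
      ring
    rw [e1]
    constructor
    · intro h5
      exact mul_pos hu (by linarith)
    · intro h5
      by_contra h6
      have := mul_nonneg hu.le (not_lt.1 h6)
      linarith
  have h3 : (F.card : ℝ) ≤ ((∑ r ∈ R, (XSWEEP.EE X Y r).card : ℕ) : ℝ) +
      ((∑ r ∈ R, (XSWEEP.EE X (fun i => - Y i) r).card : ℕ) : ℝ) := by
    rw [← hcard]
    exact_mod_cast add_le_add h1 h2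
  linarith

end Pool.Agent.Work.MP_e17eac_co.RP
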