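import Pool.Agent.Work.MP_e17eac_co.RP.Stmts2

/-!
# Block RP, part 2, item Md: the mode of a product of binomials (helper37)
-/

set_option autoImplicit false

namespace Pool.Agent.Work.MP_e17eac_co.RP

open Finset MeasureTheory

namespace IMd

/-- one step up -/
theorem up (hRt : St_Rt) (k s d j : ℕ) (hk : 1 ≤ k) (hks : k ≤ s) (hd : 1 ≤ d) (hkj : k ≤ j)
    (hjM : j < k + s + d) (h : (k + s) * j + s ≤ k * (k + s + d)) :
    v k s (k + s + d) j ≤ v k s (k + s + d) (j + 1) := by
  have h1 := hRt k s (k + s + d) j hkj hjM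
  have hs : s ≤ k + s + d - j := by
    by_contra hcon
    push Not at hcon
    obtain ⟨e, he⟩ : ∃ e, j = k + d + e := ⟨j - (k + d), by omega⟩
    have he1 : 1 ≤ e := by omega
    subst he
    have h2 : (k + s) * (k + d + e) = k * (k + s + d) + s * d + (k + s) * e := by ring
    have h3 : 0 < s * d := Nat.mul_pos (by omega) (by omega)
    omega
  obtain ⟨a, ha⟩ : ∃ a, k + s + d - j = a + s := ⟨k + s + d - j - s, by omega⟩
  obtain ⟨b, hb⟩ : ∃ b, j + 1 = b + k := ⟨j + 1 - k, by omega⟩
  have hb1 : 1 ≤ b := by omega
  have hb2 : j + 1 - k = b := by omega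
  have ha2 : k + s + d - j - s = a := by omega
  rw [hb2, ha2, ha] at h1
  have hle : b * (a + s) ≤ (j + 1) * a := by
    have hj : j = b + k - 1 := by omega
    have hM : k + s + d = a + s + j := by omega
    have h2 : (k + s) * j + s ≤ k * (a + s + j) := by rw [← hM]; exact h
    have h3 : k * (a + s + j) = k * a + k * s + k * j := by ring
    have h4 : (k + s) * j + s = k * j + s * (j + 1) := by ring
    have h5 : s * (j + 1) = s * b + k * s := by rw [hb]; ring
    have h6 : s * b ≤ k * a := by omega
    rw [hb]
    calc b * (a + s) = b * a + s * b := by ring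
      _ ≤ b * a + k * a := by omega
      _ = (b + k) * a := by ring
  have hpos : 0 < b * (a + s) := Nat.mul_pos (by omega) (by omega)
  refine Nat.le_of_mul_le_mul_left ?_ hpos
  rw [h1]
  exact Nat.mul_le_mul_right _ hle

/-- one step down -/
theorem down (hRt : St_Rt) (k s d j : ℕ) (hk : 1 ≤ k) (hks : k ≤ s) (hd : 1 ≤ d) (hkj : k ≤ j)
    (hjM : j < k + s + d) (h : k * (k + s + d) ≤ (k + s) * j + s) :
    v k s (k + s + d) (j + 1) ≤ v k s (k + s + d) j := by
  have h1 := hRt k s (k + s + d) j hkj hjM
  have hpos : 0 < (j + 1 - k) * (k + s + d - j) := Nat.mul_pos (by omega) (by omega)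
  refine Nat.le_of_mul_le_mul_left ?_ hpos
  rw [h1]
  refine Nat.mul_le_mul_right _ ?_
  by_cases hs : s ≤ k + s + d - j
  · obtain ⟨a, ha⟩ : ∃ a, k + s + d - j = a + s := ⟨k + s + d - j - s, by omega⟩
    obtain ⟨b, hb⟩ : ∃ b, j + 1 = b + k := ⟨j + 1 - k, by omega⟩
    have hb2 : j + 1 - k = b := by omega
    have ha2 : k + s + d - j - s = a := by omega
    rw [hb2, ha2, ha]
    have hM : k + s + d = a + s + j := by omega
    have h2 : k * (a + s + j) ≤ (k + s) * j + s := by rw [← hM]; exact h
    have h3 : k * (a + s + j) = k * a + k * s + k * j := by ring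
    have h4 : (k + s) * j + s = k * j + s * (j + 1) := by ring
    have h5 : s * (j + 1) = s * b + k * s := by rw [hb]; ring
    have h6 : k * a ≤ s * b := by omega
    rw [hb]
    calc (b + k) * a = b * a + k * a := by ring
      _ ≤ b * a + s * b := by omega
      _ = b * (a + s) := by ring
  · have : k + s + d - j - s = 0 := by omega
    rw [this, Nat.mul_zero]
    exact Nat.zero_le _

/-- the place of the mode -/
theorem place (k s d : ℕ) (hk : 1 ≤ k) (hks : k ≤ s) :
    ∃ J : ℕ, (k + s) * J ≤ k * (k + s + d) + k ∧ k * (k + s + d) + 1 ≤ (k + s) * J + s := by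
  have hs : s ≤ k * (k + s + d) := by
    calc s ≤ 1 * (k + s + d) := by omega
      _ ≤ k * (k + s + d) := Nat.mul_le_mul_right _ hk
  refine ⟨(k * (k + s + d) - s) / (k + s) + 1, ?_, ?_⟩
  · have h1 := Nat.div_add_mod (k * (k + s + d) - s) (k + s)
    have h3 : (k + s) * ((k * (k + s + d) - s) / (k + s) + 1) =
        (k + s) * ((k * (k + s + d) - s) / (k + s)) + (k + s) := Nat.mul_succ _ _
    omega
  · have h1 := Nat.div_add_mod (k * (k + s + d) - s) (k + s)
    have h2 := Nat.mod_lt (k * (k + s + d) - s) (show 0 < k + s by omega)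
    have h3 : (k + s) * ((k * (k + s + d) - s) / (k + s) + 1) =
        (k + s) * ((k * (k + s + d) - s) / (k + s)) + (k + s) := Nat.mul_succ _ _
    omega

end IMd

theorem pr_Md (hRt : St_Rt) : St_Md := by
  intro k s d hk hks hd
  obtain ⟨J, hJ1, hJ2⟩ := IMd.place k s d hk hks
  have hkM : k * (k + s + d) = (k + s) * k + k * d := by ring
  -- `k ≤ J`
  have hkJ : k ≤ J := by
    by_contra hcon
    push Not at hcon
    obtain ⟨e, he⟩ : ∃ e, k = J + 1 + e := ⟨k - (J + 1), by omega⟩
    have h1 : (k + s) * k = (k + s) * J + (k + s) + (k + s) * e := by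
      conv_lhs => rw [show (k + s) * k = (k + s) * (J + 1 + e) from by rw [← he]]
      ring
    have h2 : 0 ≤ (k + s) * e := Nat.zero_le _
    omega
  have hJM : J ≤ k + s + d := by
    by_contra hcon
    push Not at hcon
    obtain ⟨e, he⟩ : ∃ e, J = k + s + d + 1 + e := ⟨J - (k + s + d + 1), by omega⟩
    have h1 : (k + s) * J = k * (k + s + d) + s * (k + s + d) + (k + s) + (k + s) * e := by
      rw [he]; ring
    have h2 : 0 ≤ (k + s) * e := Nat.zero_le _
    omega
  refine ⟨J, hkJ, hJM, ?_, ?_, hJ1, by omega⟩
  · -- the maximum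
    have hup : ∀ t, k ≤ J - t → v k s (k + s + d) (J - t) ≤ v k s (k + s + d) J := by
      intro t
      induction t with
      | zero => intro _; exact le_rfl
      | succ t ih =>
        intro ht
        have h1 : J - t = J - (t + 1) + 1 := by
          rcases Nat.lt_or_ge t J with h | h
          · omega
          · exfalso; omega
        have h2 : J - (t + 1) + 1 ≤ J := by omega
        refine le_trans ?_ (ih (by omega))
        rw [h1]
        refine IMd.up hRt k s d _ hk hks hd ht (by omega) ?_
        have h3 : (k + s) * (J - (t + 1) + 1) ≤ (k + s) * J := Nat.mul_le_mul_left _ h2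
        rw [Nat.mul_add, Nat.mul_one] at h3
        omega
    have hdn : ∀ t, J + t ≤ k + s + d → v k s (k + s + d) (J + t) ≤ v k s (k + s + d) J := by
      intro t
      induction t with
      | zero => intro _; exact le_rfl
      | succ t ih =>
        intro ht
        refine le_trans ?_ (ih (by omega))
        refine IMd.down hRt k s d (J + t) hk hks hd (by omega) (by omega) ?_
        have h3 : (k + s) * J ≤ (k + s) * (J + t) := Nat.mul_le_mul_left _ (by omega)
        omega
    intro j hj
    rcases Nat.lt_or_ge j k with h | h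
    · have : v k s (k + s + d) j = 0 := by
        rw [v, Nat.choose_eq_zero_of_lt h, Nat.zero_mul]
      rw [this]
      exact Nat.zero_le _
    · rcases Nat.le_total j J with h' | h'
      · have := hup (J - j) (by omega)
        rwa [show J - (J - j) = j by omega] at this
      · have := hdn (j - J) (by omega)
        rwa [show J + (j - J) = j by omega] at this
  · obtain ⟨e, he⟩ : ∃ e, J = k + e := ⟨J - k, by omega⟩
    have h1 : J + 1 - k = e + 1 := by omega
    rw [h1]
    have h2 : (k + s) * J = (k + s) * k + (k + s) * e := by rw [he]; ring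
    have h3 : (k + s) * (e + 1) = (k + s) * e + (k + s) := by ring
    have h4 : k * (d + 1) = k * d + k := by ring
    omega

end Pool.Agent.Work.MP_e17eac_co.RP
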