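import Pool.Agent.Work.MP_e17eac_co.RP.Stmts2

/-!
# Item Mk: measurability of the number of directed `k`-edges
-/

set_option autoImplicit false

namespace Pool.Agent.Work.MP_e17eac_co.RP

open Finset MeasureTheory

namespace IMk

theorem side_meas {N : ℕ} (i j l : Fin N) :
    Measurable fun X : Fin N → ℝ × ℝ => side (X i) (X j) (X l) := by
  unfold side
  fun_prop

/-- The number of the elements of a finite set which satisfy measurable conditions. -/
theorem card_meas {α β : Type} [MeasurableSpace α] (S : Finset β) (p : α → β → Prop)
    [∀ a, DecidablePred (p a)] (h : ∀ b ∈ S, MeasurableSet {a | p a b}) :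
    Measurable fun a => (S.filter (p a)).card := by
  classical
  have e : (fun a => (S.filter (p a)).card) = fun a => ∑ b ∈ S, if p a b then 1 else 0 := by
    funext a
    rw [Finset.card_filter]
  rw [e]
  refine Finset.measurable_sum _ fun b hb => ?_
  exact Measurable.ite (h b hb) measurable_const measurable_const

end IMk

theorem pr_Mk : St_Mk := by
  classical
  intro N k T
  unfold ke
  refine IMk.card_meas _ _ fun e _ => ?_
  by_cases he : e.1 = e.2
  · have : {X : Fin N → ℝ × ℝ | e.1 ≠ e.2 ∧
        (T.filter fun l => 0 < side (X e.1) (X e.2) (X l)).card = k} = ∅ := by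
      ext X
      simp [he]
    rw [this]
    exact MeasurableSet.empty
  · have : {X : Fin N → ℝ × ℝ | e.1 ≠ e.2 ∧
        (T.filter fun l => 0 < side (X e.1) (X e.2) (X l)).card = k} =
        (fun X : Fin N → ℝ × ℝ => (T.filter fun l => 0 < side (X e.1) (X e.2) (X l)).card) ⁻¹'
          {k} := by
      ext X
      simp [he]
    rw [this]
    refine IMk.card_meas _ _ (fun l _ => ?_) (MeasurableSet.singleton k)
    exact measurableSet_lt measurable_const (IMk.side_meas _ _ _)

end Pool.Agent.Work.MP_e17eac_co.RP
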