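import Pool.Agent.Work.MP_e17eac_co.RP.Stmts

set_option autoImplicit false

namespace Pool.Agent.Work.MP_e17eac_co.RP

open Finset MeasureTheory

theorem pr_Mp13 : St_Mp := by
  classical
  intro N n e he μ _
  have hf : Measurable (fun (X : Fin N → ℝ × ℝ) (i : Fin n) => X (e i)) :=
    measurable_pi_lambda _ fun i => measurable_pi_apply _
  refine ⟨hf, ?_⟩
  symm
  apply Measure.pi_eq
  intro s hs
  rw [Measure.map_apply hf (MeasurableSet.univ_pi hs)]
  let t : Fin N → Set (ℝ × ℝ) := fun j => if h : ∃ i, e i = j then s h.choose else Set.univ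
  have ht : ∀ i, t (e i) = s i := by
    intro i
    have h : ∃ i', e i' = e i := ⟨i, rfl⟩
    show (if h : ∃ i', e i' = e i then s h.choose else Set.univ) = s i
    rw [dif_pos h, he h.choose_spec]
  have hset : (fun (X : Fin N → ℝ × ℝ) (i : Fin n) => X (e i)) ⁻¹' (Set.univ.pi s) =
      Set.univ.pi t := by
    ext X
    simp only [Set.mem_preimage, Set.mem_pi, Set.mem_univ, true_implies]
    constructor
    · intro h j
      by_cases hj : ∃ i, e i = j
      · obtain ⟨i, rfl⟩ := hj
        rw [ht i]
        exact h i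
      · show X j ∈ (if h : ∃ i, e i = j then s h.choose else Set.univ)
        rw [dif_neg hj]
        trivial
    · intro h i
      rw [← ht i]
      exact h (e i)
  rw [hset, Measure.pi_pi]
  have h1 : ∏ i, μ (s i) = ∏ i, μ (t (e i)) := by
    refine Finset.prod_congr rfl fun i _ => by rw [ht i]
  rw [h1, ← Finset.prod_image (s := univ) (g := e) (f := fun j => μ (t j)) (fun a _ b _ h => he h)]
  symm
  apply Finset.prod_subset (Finset.subset_univ _)
  intro j _ hj
  have hj' : ¬ ∃ i, e i = j := by
    rintro ⟨i, rfl⟩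
    exact hj (Finset.mem_image_of_mem _ (Finset.mem_univ i))
  show μ (if h : ∃ i, e i = j then s h.choose else Set.univ) = 1
  rw [dif_neg hj']
  exact measure_univ

end Pool.Agent.Work.MP_e17eac_co.RP
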