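import Pool.Agent.Work.MP_e17eac_co.RP.Stmts2

/-!
# Block RP, item Ok: dyadic blocks
-/

set_option autoImplicit false

namespace Pool.Agent.Work.MP_e17eac_co.RP

namespace IOk

open Finset

/-- the dyadic block -/
def blk (M i : ℕ) : Finset ℕ := (range (M + 1)).filter fun j => Nat.log 2 (j + 1) = i

theorem blk_sub (M i : ℕ) : blk M i ⊆ range (M + 1) := Finset.filter_subset _ _

theorem blk_low {M i j : ℕ} (h : j ∈ blk M i) : 2 ^ i ≤ j + 1 := by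
  have h2 := (Finset.mem_filter.mp h).2
  rw [← h2]
  exact Nat.pow_log_le_self 2 (Nat.succ_ne_zero j)

theorem blk_high {M i j : ℕ} (h : j ∈ blk M i) : j + 1 < 2 ^ (i + 1) := by
  have h2 := (Finset.mem_filter.mp h).2
  rw [← h2]
  exact Nat.lt_pow_succ_log_self (by norm_num) (j + 1)

theorem pow_third (i : ℕ) : ((2 : ℝ) ^ (i + 1)) ^ ((1 : ℝ) / 3)
    = (2 : ℝ) ^ ((1 : ℝ) / 3) * (2 : ℝ) ^ ((i : ℝ) / 3) := by
  rw [← Real.rpow_natCast (2 : ℝ) (i + 1), ← Real.rpow_mul (by norm_num : (0 : ℝ) ≤ 2),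
    ← Real.rpow_add (by norm_num : (0 : ℝ) < 2)]
  congr 1
  push_cast
  ring

theorem two_third : (2 : ℝ) ^ ((1 : ℝ) / 3) ≤ 1.26 := by
  have h : (1.26 : ℝ) = (1.26 ^ 3) ^ ((1 : ℝ) / 3) := by
    rw [← Real.rpow_natCast (1.26 : ℝ) 3, ← Real.rpow_mul (by norm_num : (0 : ℝ) ≤ 1.26)]
    norm_num
  rw [h]
  exact Real.rpow_le_rpow (by norm_num) (by norm_num) (by norm_num)

end IOk

open Finset IOk in
/-- **Ok**: dyadic blocks -/
theorem pr_Ok (hOp : St_Op) (hDy : St_Dy) : St_Ok := by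
  intro M a u A W Z Y ha hu hW hZ hZY hsZ hsY hA hR
  have hu0 : ∀ j ∈ range (M + 1), 0 ≤ u j := fun j hj =>
    (hu j (Nat.lt_succ_iff.mp (Finset.mem_range.mp hj))).1
  have huW : ∀ j ∈ range (M + 1), u j ≤ W := fun j hj =>
    (hu j (Nat.lt_succ_iff.mp (Finset.mem_range.mp hj))).2
  have ha0 : ∀ j ∈ range (M + 1), 0 ≤ a j := fun j hj =>
    ha j (Nat.lt_succ_iff.mp (Finset.mem_range.mp hj))
  set z : ℕ → ℝ := fun i => ∑ j ∈ blk M i, u j with hz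
  have hz0 : ∀ i, 0 ≤ z i := fun i => Finset.sum_nonneg fun j hj => hu0 j (blk_sub M i hj)
  have hzZ : ∀ i, z i ≤ Z := fun i =>
    le_trans (Finset.sum_le_sum_of_subset_of_nonneg (blk_sub M i) fun j hj _ => hu0 j hj) hsZ
  have hzY : ∀ i, 2 ^ i * z i ≤ Y := by
    intro i
    calc 2 ^ i * z i = ∑ j ∈ blk M i, (2 : ℝ) ^ i * u j := Finset.mul_sum _ _ _
      _ ≤ ∑ j ∈ blk M i, ((j : ℝ) + 1) * u j := by
          refine Finset.sum_le_sum fun j hj => ?_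
          refine mul_le_mul_of_nonneg_right ?_ (hu0 j (blk_sub M i hj))
          have := blk_low hj
          exact_mod_cast this
      _ ≤ ∑ j ∈ range (M + 1), ((j : ℝ) + 1) * u j := by
          refine Finset.sum_le_sum_of_subset_of_nonneg (blk_sub M i) fun j hj _ => ?_
          have := hu0 j hj
          positivity
      _ ≤ Y := hsY
  have hW3 : 0 ≤ W ^ ((1 : ℝ) / 3) := Real.rpow_nonneg hW.le _
  -- one block
  have hblk : ∀ i, ∑ j ∈ blk M i, a j * u j ≤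
      2 * (A * ((2 : ℝ) ^ (i + 1)) ^ ((1 : ℝ) / 3)) * W ^ ((1 : ℝ) / 3)
        * (z i) ^ ((2 : ℝ) / 3) := by
    intro i
    have hA' : 0 ≤ A * ((2 : ℝ) ^ (i + 1)) ^ ((1 : ℝ) / 3) :=
      mul_nonneg hA (Real.rpow_nonneg (by positivity) _)
    rcases (hz0 i).lt_or_eq with hpos | hzero
    · refine hOp (blk M i) a u (A * ((2 : ℝ) ^ (i + 1)) ^ ((1 : ℝ) / 3)) W (z i)
        (fun j hj => ha0 j (blk_sub M i hj))
        (fun j hj => ⟨hu0 j (blk_sub M i hj), huW j (blk_sub M i hj)⟩) hW hpos le_rfl hA' ?_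
      intro R hRs
      have hK := hR (2 ^ (i + 1) - 1) R (hRs.trans (blk_sub M i)) (fun j hj => by
        have := blk_high (hRs hj)
        omega)
      have hcast : (((2 ^ (i + 1) - 1 : ℕ) : ℝ) + 1) = (2 : ℝ) ^ (i + 1) := by
        have h1 : 1 ≤ 2 ^ (i + 1) := Nat.one_le_two_pow
        rw [Nat.cast_sub h1]
        push_cast
        ring
      rw [hcast] at hK
      exact hK
    · have hall : ∀ j ∈ blk M i, u j = 0 :=
        (Finset.sum_eq_zero_iff_of_nonneg fun j hj => hu0 j (blk_sub M i hj)).mp hzero.symm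
      rw [Finset.sum_eq_zero fun j hj => by rw [hall j hj, mul_zero]]
      have := Real.rpow_nonneg (hz0 i) ((2 : ℝ) / 3)
      positivity
  -- the sum over the blocks
  have hfib : ∑ j ∈ range (M + 1), a j * u j
      = ∑ i ∈ range (M + 1), ∑ j ∈ blk M i, a j * u j := by
    unfold blk
    rw [Finset.sum_fiberwise_of_maps_to]
    intro j hj
    have h1 := Finset.mem_range.mp hj
    have h2 : Nat.log 2 (j + 1) < j + 1 := Nat.log_lt_self 2 (Nat.succ_ne_zero j)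
    exact Finset.mem_range.mpr (by omega)
  have hD := hDy (M + 1) z Z Y hZ hZY (fun i _ => hz0 i) (fun i _ => hzZ i) (fun i _ => hzY i)
  have hY : 0 < Y := lt_of_lt_of_le hZ hZY
  have hZ3 : 0 ≤ Z ^ ((1 : ℝ) / 3) := Real.rpow_nonneg hZ.le _
  have hY3 : 0 ≤ Y ^ ((1 : ℝ) / 3) := Real.rpow_nonneg hY.le _
  have h23 : (0 : ℝ) ≤ (2 : ℝ) ^ ((1 : ℝ) / 3) := Real.rpow_nonneg (by norm_num) _
  rw [hfib]
  calc ∑ i ∈ range (M + 1), ∑ j ∈ blk M i, a j * u j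
      ≤ ∑ i ∈ range (M + 1), 2 * (A * ((2 : ℝ) ^ (i + 1)) ^ ((1 : ℝ) / 3)) * W ^ ((1 : ℝ) / 3)
        * (z i) ^ ((2 : ℝ) / 3) := Finset.sum_le_sum fun i _ => hblk i
    _ = (2 * A * W ^ ((1 : ℝ) / 3) * (2 : ℝ) ^ ((1 : ℝ) / 3)) *
        ∑ i ∈ range (M + 1), (2 : ℝ) ^ ((i : ℝ) / 3) * (z i) ^ ((2 : ℝ) / 3) := by
          rw [Finset.mul_sum]
          refine Finset.sum_congr rfl fun i _ => ?_
          rw [pow_third]
          ring
    _ ≤ (2 * A * W ^ ((1 : ℝ) / 3) * (2 : ℝ) ^ ((1 : ℝ) / 3)) *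
        (9.7 * Z ^ ((1 : ℝ) / 3) * Y ^ ((1 : ℝ) / 3)) :=
          mul_le_mul_of_nonneg_left hD (by positivity)
    _ = (19.4 * (2 : ℝ) ^ ((1 : ℝ) / 3)) *
        (A * W ^ ((1 : ℝ) / 3) * Z ^ ((1 : ℝ) / 3) * Y ^ ((1 : ℝ) / 3)) := by ring
    _ ≤ 25 * (A * W ^ ((1 : ℝ) / 3) * Z ^ ((1 : ℝ) / 3) * Y ^ ((1 : ℝ) / 3)) := by
          refine mul_le_mul_of_nonneg_right ?_ (by positivity)
          have := two_third
          linarith
    _ = 25 * A * W ^ ((1 : ℝ) / 3) * Z ^ ((1 : ℝ) / 3) * Y ^ ((1 : ℝ) / 3) := by ring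

end Pool.Agent.Work.MP_e17eac_co.RP
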