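import Pool.Agent.Work.MP_e17eac_co.RP.Stmts

/-!
# Item Op of block RP: a real inequality
-/

set_option autoImplicit false

namespace Pool.Agent.Work.MP_e17eac_co.RP

open Finset

namespace IOp

/-- the cube of the third root -/
theorem cube (y : ℝ) (hy : 0 ≤ y) : (y ^ ((1 : ℝ) / 3)) ^ 3 = y := by
  rw [← Real.rpow_natCast, ← Real.rpow_mul hy]
  norm_num

/-- the square of the third root -/
theorem square (y : ℝ) (hy : 0 ≤ y) : y ^ ((2 : ℝ) / 3) = (y ^ ((1 : ℝ) / 3)) ^ 2 := by
  rw [← Real.rpow_natCast, ← Real.rpow_mul hy]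
  norm_num

end IOp

open IOp in
/-- Op -/
theorem pr_Op : St_Op := by
  intro J a v A W Z ha hv hW hZ hsum hA hR
  have hx : 0 < W ^ ((1 : ℝ) / 3) := Real.rpow_pos_of_pos hW _
  have hz : 0 < Z ^ ((1 : ℝ) / 3) := Real.rpow_pos_of_pos hZ _
  have hx3 := cube W hW.le
  have hz3 := cube Z hZ.le
  rw [square Z hZ.le]
  set x := W ^ ((1 : ℝ) / 3) with hxdef
  set z := Z ^ ((1 : ℝ) / 3) with hzdef
  rcases hA.eq_or_lt with h0 | hApos
  · -- `A = 0`
    have hzero : ∀ j ∈ J, a j * v j = 0 := by
      intro j hj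
      have h1 := hR {j} (Finset.singleton_subset_iff.2 hj)
      rw [Finset.sum_singleton, ← h0, zero_mul] at h1
      have h2 : a j = 0 := le_antisymm h1 (ha j hj)
      rw [h2, zero_mul]
    rw [Finset.sum_eq_zero hzero, ← h0]
    simp
  · classical
    have hlam : 0 < A * x / z := by positivity
    set R := J.filter fun j => A * x / z < a j with hRdef
    have hRJ : R ⊆ J := Finset.filter_subset _ _
    have hs0 : 0 ≤ (R.card : ℝ) := Nat.cast_nonneg _
    have hs3 := cube (R.card : ℝ) hs0
    have hRsum := hR R hRJ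
    rw [square (R.card : ℝ) hs0] at hRsum
    have hsn : 0 ≤ (R.card : ℝ) ^ ((1 : ℝ) / 3) := Real.rpow_nonneg hs0 _
    set s := (R.card : ℝ) ^ ((1 : ℝ) / 3) with hsdef
    have hlow : A * x / z * (R.card : ℝ) ≤ ∑ j ∈ R, a j := by
      rw [mul_comm, ← nsmul_eq_mul]
      refine Finset.card_nsmul_le_sum R a _ fun j hj => ?_
      rw [hRdef, Finset.mem_filter] at hj
      exact hj.2.le
    have hsz : s * x ≤ z := by
      rcases hsn.eq_or_lt with h | hspos
      · rw [← h, zero_mul]
        exact hz.le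
      · have h1 : A * x / z * s ^ 3 ≤ A * s ^ 2 := by
          rw [hs3]
          exact hlow.trans hRsum
        have h2 : A * x * s ^ 3 ≤ A * s ^ 2 * z := by
          have h3 := mul_le_mul_of_nonneg_right h1 hz.le
          have h4 : A * x / z * s ^ 3 * z = A * x * s ^ 3 := by
            field_simp
          rw [h4] at h3
          exact h3
        have h5 : (A * s ^ 2) * (s * x) ≤ (A * s ^ 2) * z := by
          calc (A * s ^ 2) * (s * x) = A * x * s ^ 3 := by ring
            _ ≤ A * s ^ 2 * z := h2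
        exact le_of_mul_le_mul_left h5 (by positivity)
    have hpart1 : ∑ j ∈ R, a j * v j ≤ A * x * z ^ 2 := by
      have h1 : ∑ j ∈ R, a j * v j ≤ ∑ j ∈ R, a j * W := by
        refine Finset.sum_le_sum fun j hj => ?_
        exact mul_le_mul_of_nonneg_left (hv j (hRJ hj)).2 (ha j (hRJ hj))
      rw [← Finset.sum_mul] at h1
      have h2 : (∑ j ∈ R, a j) * W ≤ A * s ^ 2 * W := mul_le_mul_of_nonneg_right hRsum hW.le
      have h3 : A * s ^ 2 * W = A * x * (s * x) ^ 2 := by
        rw [← hx3]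
        ring
      have h4 : (s * x) ^ 2 ≤ z ^ 2 := pow_le_pow_left₀ (by positivity) hsz 2
      have h5 : A * x * (s * x) ^ 2 ≤ A * x * z ^ 2 :=
        mul_le_mul_of_nonneg_left h4 (by positivity)
      linarith
    have hpart2 : ∑ j ∈ J \ R, a j * v j ≤ A * x * z ^ 2 := by
      have h1 : ∑ j ∈ J \ R, a j * v j ≤ ∑ j ∈ J \ R, A * x / z * v j := by
        refine Finset.sum_le_sum fun j hj => ?_
        rw [Finset.mem_sdiff] at hj
        have h2 : a j ≤ A * x / z := by
          by_contra hcon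
          push Not at hcon
          exact hj.2 (by rw [hRdef, Finset.mem_filter]; exact ⟨hj.1, hcon⟩)
        exact mul_le_mul_of_nonneg_right h2 (hv j hj.1).1
      have h3 : ∑ j ∈ J \ R, A * x / z * v j ≤ ∑ j ∈ J, A * x / z * v j := by
        refine Finset.sum_le_sum_of_subset_of_nonneg Finset.sdiff_subset fun j hj _ => ?_
        exact mul_nonneg hlam.le (hv j hj).1
      rw [← Finset.mul_sum J] at h3
      have h4 : A * x / z * ∑ j ∈ J, v j ≤ A * x / z * Z :=
        mul_le_mul_of_nonneg_left hsum hlam.le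
      have h5 : A * x / z * Z = A * x * z ^ 2 := by
        rw [← hz3]
        field_simp
      linarith
    have hsplit : ∑ j ∈ J, a j * v j = ∑ j ∈ J \ R, a j * v j + ∑ j ∈ R, a j * v j :=
      (Finset.sum_sdiff hRJ).symm
    rw [hsplit]
    nlinarith [hpart1, hpart2]

end Pool.Agent.Work.MP_e17eac_co.RP
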