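import Pool.Agent.Work.MP_e17eac_co.RP.Stmts2

/-!
# Block RP, item Rk: the numbers
-/

set_option autoImplicit false

namespace Pool.Agent.Work.MP_e17eac_co.RP

namespace IRk

lemma third {x : ℝ} (hx : 0 ≤ x) : (x ^ ((1 : ℝ) / 3)) ^ 3 = x := by
  rw [← Real.rpow_natCast, ← Real.rpow_mul hx]
  norm_num

lemma sixth {q : ℝ} (hq : 0 < q) : (q ^ (-(1 : ℝ) / 6)) ^ 3 * Real.sqrt q = 1 := by
  rw [← Real.rpow_natCast, ← Real.rpow_mul hq.le, Real.sqrt_eq_rpow, ← Real.rpow_add hq]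
  norm_num

/-- the binomial coefficients -/
lemma binom (m d : ℕ) :
    (((m + d + 2 : ℕ) : ℝ)) ^ 3 * (((m + d).choose m : ℕ) : ℝ) *
        (((m + d + 1).choose (m + 1) : ℕ) : ℝ) ≤
      ((m + 2 : ℕ) : ℝ) ^ 3 * (((m + d + 2).choose (m + 2) : ℕ) : ℝ) ^ 2 := by
  have h1 : (m + d + 2) * (m + d + 1).choose (m + 1) = (m + d + 2).choose (m + 2) * (m + 2) :=
    Nat.add_one_mul_choose_eq (m + d + 1) (m + 1)
  have h2 : (m + d + 1) * (m + d).choose m = (m + d + 1).choose (m + 1) * (m + 1) :=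
    Nat.add_one_mul_choose_eq (m + d) m
  have h1' : ((m : ℝ) + d + 2) * (((m + d + 1).choose (m + 1) : ℕ) : ℝ) =
      (((m + d + 2).choose (m + 2) : ℕ) : ℝ) * ((m : ℝ) + 2) := by exact_mod_cast h1
  have h2' : ((m : ℝ) + d + 1) * (((m + d).choose m : ℕ) : ℝ) =
      (((m + d + 1).choose (m + 1) : ℕ) : ℝ) * ((m : ℝ) + 1) := by exact_mod_cast h2
  have hc : (0 : ℝ) ≤ (((m + d).choose m : ℕ) : ℝ) := Nat.cast_nonneg _
  have he : (0 : ℝ) ≤ (((m + d + 1).choose (m + 1) : ℕ) : ℝ) := Nat.cast_nonneg _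
  have hB : (0 : ℝ) ≤ (((m + d + 2).choose (m + 2) : ℕ) : ℝ) := Nat.cast_nonneg _
  have hm : (0 : ℝ) ≤ (m : ℝ) := Nat.cast_nonneg _
  have hd : (0 : ℝ) ≤ (d : ℝ) := Nat.cast_nonneg _
  push_cast
  generalize (((m + d).choose m : ℕ) : ℝ) = c at *
  generalize (((m + d + 1).choose (m + 1) : ℕ) : ℝ) = e at *
  generalize (((m + d + 2).choose (m + 2) : ℕ) : ℝ) = B at *
  generalize (m : ℝ) = x at *
  generalize (d : ℝ) = y at *
  -- `(x + y + 2) c ≤ (x + 2) e`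
  have h3 : (x + y + 2) * c ≤ (x + 2) * e := by
    have h4 : (x + y + 1) * ((x + y + 2) * c) ≤ (x + y + 1) * ((x + 2) * e) := by
      have e1 : (x + y + 1) * ((x + y + 2) * c) = (x + y + 2) * ((x + y + 1) * c) := by ring
      rw [e1, h2']
      have e2 : (x + y + 1) * ((x + 2) * e) - (x + y + 2) * (e * (x + 1)) = e * y := by ring
      nlinarith [mul_nonneg he hd]
    exact le_of_mul_le_mul_left h4 (by linarith)
  have h5 : (x + y + 2) ^ 2 * c ≤ (x + 2) ^ 2 * B := by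
    calc (x + y + 2) ^ 2 * c = (x + y + 2) * ((x + y + 2) * c) := by ring
      _ ≤ (x + y + 2) * ((x + 2) * e) := mul_le_mul_of_nonneg_left h3 (by linarith)
      _ = (x + 2) * ((x + y + 2) * e) := by ring
      _ = (x + 2) ^ 2 * B := by rw [h1']; ring
  calc (x + y + 2) ^ 3 * c * e = ((x + y + 2) ^ 2 * c) * ((x + y + 2) * e) := by ring
    _ = ((x + y + 2) ^ 2 * c) * (B * (x + 2)) := by rw [h1']
    _ ≤ ((x + 2) ^ 2 * B) * (B * (x + 2)) :=
        mul_le_mul_of_nonneg_right h5 (mul_nonneg hB (by linarith))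
    _ = (x + 2) ^ 3 * B ^ 2 := by ring

/-- the minimum -/
lemma quot (M n D a K : ℝ) (hM : 0 < M) (hn : 0 < n) (hD : 0 ≤ D) (hK : 0 ≤ K)
    (ha : a ≤ n) (ha' : a ≤ D) (ha0 : 0 ≤ a) (hMn : M ≤ n + D) :
    600 * M / (M + K * D) * (1 + K * a / n) ≤ 1200 := by
  have h1 : M * a ≤ 2 * D * n := by
    calc M * a ≤ (n + D) * a := mul_le_mul_of_nonneg_right hMn ha0
      _ = n * a + D * a := by ring
      _ ≤ n * D + D * n := add_le_add (mul_le_mul_of_nonneg_left ha' hn.le)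
          (mul_le_mul_of_nonneg_left ha hD)
      _ = 2 * D * n := by ring
  have h2 : M * (a / n) ≤ 2 * D := by
    rw [← mul_div_assoc, div_le_iff₀ hn]
    exact h1
  have h3 : 0 < M + K * D := by
    have := mul_nonneg hK hD
    linarith
  have h4 : 600 * M / (M + K * D) * (1 + K * a / n) =
      600 * (M + K * (M * (a / n))) / (M + K * D) := by
    field_simp
  rw [h4, div_le_iff₀ h3]
  have h5 : K * (M * (a / n)) ≤ K * (2 * D) := mul_le_mul_of_nonneg_left h2 hK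
  have h6 := mul_nonneg hK hD
  nlinarith

/-- the final inequality, with the rational powers as hypotheses -/
lemma fin (N n c e B K S q u v w t : ℝ) (hN : 0 ≤ N) (hn : 0 ≤ n) (hB : 0 ≤ B) (hK : 0 ≤ K)
    (hS : 0 ≤ S) (hu0 : 0 ≤ u) (hv0 : 0 ≤ v) (hw0 : 0 ≤ w) (ht0 : 0 ≤ t) (hu : u ^ 3 = S * c)
    (hv : v ^ 3 = e) (hw : w ^ 3 = K * B) (kt : ℝ) (hkt0 : 0 ≤ kt) (hkt : kt ^ 3 = K)
    (ht : t ^ 3 * Real.sqrt q = 1) (hSq : S * Real.sqrt q ≤ 42.875)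
    (hb : N ^ 3 * c * e ≤ n ^ 3 * B ^ 2) :
    25 * (16 * N) * u * v * w ≤ 1400 * n * kt * t * B := by
  have h1 : (25 * (16 * N) * u * v * w) ^ 3 ≤ (1400 * n * kt * t * B) ^ 3 := by
    have hT0 : 0 ≤ t ^ 3 := pow_nonneg ht0 3
    have hST : S ≤ 42.875 * t ^ 3 := by
      calc S = S * (t ^ 3 * Real.sqrt q) := by rw [ht, mul_one]
        _ = (S * Real.sqrt q) * t ^ 3 := by ring
        _ ≤ 42.875 * t ^ 3 := mul_le_mul_of_nonneg_right hSq hT0
    calc (25 * (16 * N) * u * v * w) ^ 3 = 400 ^ 3 * N ^ 3 * u ^ 3 * v ^ 3 * w ^ 3 := by ring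
      _ = 400 ^ 3 * (S * K * B) * (N ^ 3 * c * e) := by rw [hu, hv, hw]; ring
      _ ≤ 400 ^ 3 * (S * K * B) * (n ^ 3 * B ^ 2) :=
          mul_le_mul_of_nonneg_left hb (by positivity)
      _ = (400 ^ 3 * K * B * (n ^ 3 * B ^ 2)) * S := by ring
      _ ≤ (400 ^ 3 * K * B * (n ^ 3 * B ^ 2)) * (42.875 * t ^ 3) :=
          mul_le_mul_of_nonneg_left hST (by positivity)
      _ = 1400 ^ 3 * n ^ 3 * K * t ^ 3 * B ^ 3 := by ring
      _ = (1400 * n * kt * t * B) ^ 3 := by rw [← hkt]; ring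
  exact le_of_pow_le_pow_left₀ (by norm_num) (by positivity) h1

end IRk

/-- Rk -/
theorem pr_Rk : St_Rk := by
  intro k s d _ hd
  have hk0 : (0 : ℝ) ≤ (k : ℝ) := Nat.cast_nonneg _
  have hs0 : (0 : ℝ) ≤ (s : ℝ) := Nat.cast_nonneg _
  have hd0 : (1 : ℝ) ≤ (d : ℝ) := by exact_mod_cast hd
  have hK0 : (0 : ℝ) ≤ (k : ℝ) + 1 := by linarith
  have hM0 : (0 : ℝ) < (k : ℝ) + s + d := by linarith
  have hn0 : (0 : ℝ) < ((k + s + 2 : ℕ) : ℝ) := by positivity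
  have hq0 : (0 : ℝ) < 1 + ((k : ℝ) + 1) * (min (k + s + 2) d : ℕ) / ((k + s + 2 : ℕ) : ℝ) := by
    positivity
  have hquot := IRk.quot ((k : ℝ) + s + d) ((k + s + 2 : ℕ) : ℝ) d ((min (k + s + 2) d : ℕ) : ℝ)
    ((k : ℝ) + 1) hM0 hn0 (by linarith) hK0 (by exact_mod_cast Nat.min_le_left _ _)
    (by exact_mod_cast Nat.min_le_right _ _) (Nat.cast_nonneg _) (by push_cast; linarith)
  have hin : (0 : ℝ) ≤ 600 * ((k : ℝ) + s + d) / (((k : ℝ) + s + d) + ((k : ℝ) + 1) * d) := by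
    positivity
  refine IRk.fin ((k + s + d + 2 : ℕ) : ℝ) ((k + s + 2 : ℕ) : ℝ)
    (((k + s + d).choose (k + s) : ℕ) : ℝ) (((k + s + d + 1).choose (k + s + 1) : ℕ) : ℝ)
    (((k + s + d + 2).choose (k + s + 2) : ℕ) : ℝ) ((k : ℝ) + 1)
    (Real.sqrt (600 * ((k : ℝ) + s + d) / (((k : ℝ) + s + d) + ((k : ℝ) + 1) * d)))
    (1 + ((k : ℝ) + 1) * (min (k + s + 2) d : ℕ) / ((k + s + 2 : ℕ) : ℝ))
    _ _ _ _ (Nat.cast_nonneg _) hn0.le (Nat.cast_nonneg _) hK0 (Real.sqrt_nonneg _)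
    (Real.rpow_nonneg (by positivity) _) (Real.rpow_nonneg (by positivity) _)
    (Real.rpow_nonneg (by positivity) _) (Real.rpow_nonneg hq0.le _)
    (IRk.third (by positivity)) (IRk.third (by positivity)) (IRk.third (by positivity))
    _ (Real.rpow_nonneg hK0 _) (IRk.third hK0) (IRk.sixth hq0) ?_ (IRk.binom (k + s) d)
  rw [← Real.sqrt_mul hin]
  refine (Real.sqrt_le_left (by norm_num)).2 (hquot.trans (by norm_num))

end Pool.Agent.Work.MP_e17eac_co.RP
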