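import Pool.Agent.Work.MP_e17eac_co.RP.Stmts2

/-!
# Block RP, item Rt (the quotient of two neighbouring terms)
-/

set_option autoImplicit false

namespace Pool.Agent.Work.MP_e17eac_co.RP

theorem pr_Rt : St_Rt := by
  intro k s M j hk hj
  obtain ⟨b, rfl⟩ : ∃ b, M = j + (b + 1) := ⟨M - j - 1, by omega⟩
  unfold v
  have e1 : j + (b + 1) - j = b + 1 := by omega
  have e2 : j + (b + 1) - (j + 1) = b := by omega
  rw [e1, e2]
  have h1 := Nat.choose_mul_succ_eq j k
  have h2 := Nat.choose_mul_succ_eq b s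
  calc (j + 1 - k) * (b + 1) * ((j + 1).choose k * b.choose s)
      = ((j + 1).choose k * (j + 1 - k)) * (b.choose s * (b + 1)) := by ring
    _ = (j.choose k * (j + 1)) * ((b + 1).choose s * (b + 1 - s)) := by rw [← h1, h2]
    _ = (j + 1) * (b + 1 - s) * (j.choose k * (b + 1).choose s) := by ring

end Pool.Agent.Work.MP_e17eac_co.RP
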