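import Pool.Agent.Work.MP_e17eac_co.RP.Stmts2

/-!
Block RP, part 2, item Sk: sum of the products `C(j,k) C(M-j,s)` (helper96; copy of the
proof of item Sw by helper6).
-/

set_option autoImplicit false

namespace Pool.Agent.Work.MP_e17eac_co.RP

open Finset MeasureTheory

namespace ISk

theorem gen (k M : ℕ) : ∀ l : ℕ, ∑ j ∈ range (M + 1), j.choose k * (M - j).choose l =
    (M + 1).choose (k + l + 1) := by
  induction M with
  | zero =>
      intro l
      rw [Finset.sum_range_one]
      rcases k with _ | k
      · rcases l with _ | l
        · simp
        · have h1 : Nat.choose 0 (l + 1) = 0 := Nat.choose_zero_succ l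
          rw [Nat.sub_self, h1, mul_zero]
          symm
          exact Nat.choose_eq_zero_of_lt (by omega)
      · have h1 : Nat.choose 0 (k + 1) = 0 := Nat.choose_zero_succ k
        rw [h1, zero_mul]
        symm
        exact Nat.choose_eq_zero_of_lt (by omega)
  | succ M ih =>
      intro l
      rcases l with _ | l
      · rw [Finset.sum_range_succ]
        have h0 := ih 0
        have h1 : ∑ j ∈ range (M + 1), j.choose k * (M + 1 - j).choose 0 =
            ∑ j ∈ range (M + 1), j.choose k * (M - j).choose 0 := by
          refine Finset.sum_congr rfl fun j _ => ?_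
          simp
        rw [h1, h0, Nat.choose_zero_right, mul_one, add_zero, Nat.choose_succ_succ (M + 1) k]
        ring
      · rw [Finset.sum_range_succ]
        have h1 : ∑ j ∈ range (M + 1), j.choose k * (M + 1 - j).choose (l + 1) =
            ∑ j ∈ range (M + 1), j.choose k * (M - j).choose l +
            ∑ j ∈ range (M + 1), j.choose k * (M - j).choose (l + 1) := by
          rw [← Finset.sum_add_distrib]
          refine Finset.sum_congr rfl fun j hj => ?_
          have hj' : j ≤ M := by
            have := Finset.mem_range.1 hj
            omega
          have h2 : M + 1 - j = (M - j) + 1 := by omega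
          rw [h2, Nat.choose_succ_succ (M - j) l]
          ring
        have h3 : (M + 1 - (M + 1)).choose (l + 1) = 0 := by
          rw [Nat.sub_self]
          exact Nat.choose_zero_succ l
        rw [h1, ih l, ih (l + 1), h3, mul_zero, add_zero]
        have h4 : k + (l + 1) + 1 = (k + l + 1) + 1 := by omega
        rw [h4, Nat.choose_succ_succ (M + 1) (k + l + 1)]

end ISk

theorem pr_Sk : St_Sk := by
  intro k s M
  have h := ISk.gen k M s
  rw [← h]
  exact Finset.sum_congr rfl fun j _ => rfl

end Pool.Agent.Work.MP_e17eac_co.RP
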