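import Pool.Agent.Work.MP_e17eac_co.RP.Stmts2

/-!
# Block RP, part 2, item Vt: a term of Vandermonde's identity
-/

set_option autoImplicit false

namespace Pool.Agent.Work.MP_e17eac_co.RP

theorem pr_Vt : St_Vt := by
  intro k s M j hj
  have h1 := Nat.add_choose_eq j (M - j) (k + s)
  have h2 : j + (M - j) = M := Nat.add_sub_cancel' hj
  rw [h2] at h1
  rw [h1]
  show j.choose k * (M - j).choose s ≤ _
  refine Finset.single_le_sum
    (f := fun ij : ℕ × ℕ => j.choose ij.1 * (M - j).choose ij.2)
    (fun i _ => Nat.zero_le _) (a := (k, s)) ?_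
  simp

end Pool.Agent.Work.MP_e17eac_co.RP
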