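import Pool.Agent.Work.MP_e17eac_co.RP.Stmts2

set_option autoImplicit false

namespace Pool.Agent.Work.MP_e17eac_co.RP

/-- Item Wc. -/
theorem pr_Wc (hWk : St_Wk) (hVt : St_Vt) : St_Wc := by
  intro k s d j hks hd hj
  have hv := hVt k s (k + s + d) j hj
  generalize hV : v k s (k + s + d) j = V at *
  generalize hC : (k + s + d).choose (k + s) = C at *
  have hv2 : V ^ 2 ≤ C ^ 2 := Nat.pow_le_pow_left hv 2
  rcases Nat.eq_zero_or_pos k with rfl | hk
  · have h1 : (0 + s + d + (0 + 1) * d) ≤ 600 * (0 + s + d) := by omega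
    exact Nat.mul_le_mul h1 hv2
  · have hw := hWk k s d j hk hks hd hj
    rw [hV, hC] at hw
    have h1 : (k + 1) * d ≤ 2 * (k * (d + 1)) := by nlinarith
    calc ((k + s + d) + (k + 1) * d) * V ^ 2
        ≤ ((k + s + d) + 2 * (k * (d + 1))) * V ^ 2 :=
          Nat.mul_le_mul_right _ (Nat.add_le_add_left h1 _)
      _ = (k + s + d) * V ^ 2 + 2 * (k * (d + 1) * V ^ 2) := by ring
      _ ≤ (k + s + d) * C ^ 2 + 2 * (288 * (k + s + d) * C ^ 2) :=
          Nat.add_le_add (Nat.mul_le_mul_left _ hv2) (Nat.mul_le_mul_left _ hw)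
      _ = 577 * ((k + s + d) * C ^ 2) := by ring
      _ ≤ 600 * ((k + s + d) * C ^ 2) := Nat.mul_le_mul_right _ (by norm_num)
      _ = 600 * (k + s + d) * C ^ 2 := by ring

end Pool.Agent.Work.MP_e17eac_co.RP
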