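import Pool.Agent.Work.MP_e17eac_co.RP.Stmts2

/-!
# Block RP, item Wk: the largest term
-/

set_option autoImplicit false

namespace Pool.Agent.Work.MP_e17eac_co.RP

open Finset

namespace IWk

theorem gauss (L : ℕ) : 2 * ∑ i ∈ range L, (L - i) = L * (L + 1) := by
  induction L with
  | zero => simp
  | succ n ih =>
    rw [Finset.sum_range_succ']
    simp only [Nat.add_sub_add_right, Nat.sub_zero]
    rw [mul_add, ih]
    ring

/-- a slowly decreasing sequence has a large sum -/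
theorem slow (V : ℕ → ℕ) (L : ℕ) (h : ∀ i, i + 1 < L → (L - 1) * V i ≤ L * V (i + 1)) :
    ∀ i, i < L → (L - i) * V 0 ≤ L * V i := by
  intro i
  induction i with
  | zero =>
    intro _
    simp
  | succ i ih =>
    intro hi
    have h1 := ih (by omega)
    have h2 := h i hi
    obtain ⟨t, ht⟩ : ∃ t, L = i + 1 + 1 + t := ⟨L - (i + 1 + 1), by omega⟩
    have e1 : L - (i + 1) = t + 1 := by omega
    have e2 : L - i = t + 2 := by omega
    have e3 : L - 1 = i + 1 + t := by omega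
    rw [e1]
    rw [e2] at h1
    rw [e3] at h2
    have hL : 0 < L := by omega
    refine Nat.le_of_mul_le_mul_left ?_ hL
    calc L * ((t + 1) * V 0) ≤ (i + 1 + t) * ((t + 2) * V 0) := by
          rw [ht, ← mul_assoc, ← mul_assoc]
          refine Nat.mul_le_mul_right _ ?_
          nlinarith
      _ ≤ (i + 1 + t) * (L * V i) := Nat.mul_le_mul_left _ h1
      _ = L * ((i + 1 + t) * V i) := by ring
      _ ≤ L * (L * V (i + 1)) := Nat.mul_le_mul_left _ h2

theorem slow_sum (V : ℕ → ℕ) (L : ℕ) (h : ∀ i, i + 1 < L → (L - 1) * V i ≤ L * V (i + 1))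
    (hL : 0 < L) : (L + 1) * V 0 ≤ 2 * ∑ i ∈ range L, V i := by
  have h1 : ∑ i ∈ range L, (L - i) * V 0 ≤ ∑ i ∈ range L, L * V i :=
    Finset.sum_le_sum fun i hi => slow V L h i (Finset.mem_range.mp hi)
  rw [← Finset.sum_mul, ← Finset.mul_sum] at h1
  refine Nat.le_of_mul_le_mul_left ?_ hL
  calc L * ((L + 1) * V 0) = (2 * ∑ i ∈ range L, (L - i)) * V 0 := by
        rw [gauss]
        ring
    _ = 2 * ((∑ i ∈ range L, (L - i)) * V 0) := by ring
    _ ≤ 2 * (L * ∑ i ∈ range L, V i) := Nat.mul_le_mul_left _ h1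
    _ = L * (2 * ∑ i ∈ range L, V i) := by ring

/-- one step -/
theorem step (k s d m M J L i a b : ℕ) (hk : 1 ≤ k) (hks : k ≤ s) (hm : m = k + s)
    (hM : M = m + d) (hJ1 : k ≤ J) (h3 : k * (d + 1) ≤ m * (J + 1 - k))
    (h4 : m * J ≤ k * M + k) (hL : 8 * m ^ 2 * L ^ 2 ≤ k * (d + 1) * M) (h5 : 5 * L ≤ M)
    (h2J : 2 * J ≤ M + 1) (hi : i + 1 < L)
    (hR : (J + i + 1 - k) * (M - (J + i)) * b = (J + i + 1) * (M - (J + i) - s) * a) :
    (L - 1) * a ≤ L * b := by
  obtain ⟨j, hj⟩ : ∃ j, j = J + i := ⟨_, rfl⟩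
  rw [← hj] at hR
  have hjM : j < M := by omega
  have hkj : k ≤ j := by omega
  obtain ⟨A, hA⟩ : ∃ A, A = j + 1 - k := ⟨_, rfl⟩
  obtain ⟨B, hB⟩ : ∃ B, B = M - j := ⟨_, rfl⟩
  have hA0 : 0 < A := by omega
  have hB0 : 0 < B := by omega
  have hB8 : M ≤ 8 * B := by omega
  have hm0 : 0 < m := by omega
  have key : m * L ^ 2 ≤ A * B := by
    have h6 : k * (d + 1) ≤ m * A := by
      refine h3.trans (Nat.mul_le_mul_left _ ?_)
      omega
    have h7 : 8 * m ^ 2 * L ^ 2 ≤ (m * A) * (8 * B) := hL.trans (Nat.mul_le_mul h6 hB8)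
    have h8 : 8 * m * (m * L ^ 2) ≤ 8 * m * (A * B) := by
      calc 8 * m * (m * L ^ 2) = 8 * m ^ 2 * L ^ 2 := by ring
        _ ≤ (m * A) * (8 * B) := h7
        _ = 8 * m * (A * B) := by ring
    exact Nat.le_of_mul_le_mul_left h8 (by omega)
  -- integers
  obtain ⟨c, hc⟩ : ∃ c : ℕ, c = M - j - s := ⟨_, rfl⟩
  rw [← hA, ← hB] at hR
  have hc' : (M : ℤ) - j - s ≤ (B - s : ℕ) := by omega
  have hAz : (A : ℤ) = j + 1 - k := by omega
  have hBz : (B : ℤ) = M - j := by omega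
  have hmz : (m : ℤ) = k + s := by omega
  have h4z : (m : ℤ) * J ≤ k * M + k := by exact_mod_cast h4
  have hjz : (j : ℤ) = J + i := by omega
  have hiz : (i : ℤ) + 1 ≤ L := by omega
  have keyz : (m : ℤ) * L ^ 2 ≤ A * B := by exact_mod_cast key
  have hmz0 : (0 : ℤ) < m := by omega
  have hLz0 : (0 : ℤ) < L := by omega
  have e1 : ((j : ℤ) + 1) * (M - j - s) = A * B - (m * j + s - k * M) := by
    rw [hAz, hBz, hmz]
    ring
  have e2 : (m : ℤ) * j + s - k * M ≤ m * L := by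
    have : (m : ℤ) * j = m * J + m * i := by
      rw [hjz]
      ring
    have h9 : (m : ℤ) * (i + 1) ≤ m * L := mul_le_mul_of_nonneg_left hiz hmz0.le
    rw [this]
    linarith
  have e3 : (L : ℤ) * (m * j + s - k * M) ≤ A * B := by
    calc (L : ℤ) * (m * j + s - k * M) ≤ L * (m * L) := mul_le_mul_of_nonneg_left e2 hLz0.le
      _ = m * L ^ 2 := by ring
      _ ≤ A * B := keyz
  have e4 : ((L : ℤ) - 1) * (A * B) ≤ L * (((j : ℤ) + 1) * (B - s : ℕ)) := by
    have h10 : (L : ℤ) * (((j : ℤ) + 1) * (M - j - s)) ≤ L * (((j : ℤ) + 1) * (B - s : ℕ)) := by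
      refine mul_le_mul_of_nonneg_left (mul_le_mul_of_nonneg_left hc' ?_) hLz0.le
      positivity
    rw [e1] at h10
    nlinarith
  have hRz : (A : ℤ) * B * b = ((j : ℤ) + 1) * (B - s : ℕ) * a := by exact_mod_cast hR
  have hABz : (0 : ℤ) < (A : ℤ) * B := by
    have h11 : (0 : ℤ) < A := by exact_mod_cast hA0
    have h12 : (0 : ℤ) < B := by exact_mod_cast hB0
    positivity
  have fin : ((L : ℤ) - 1) * a ≤ L * b := by
    refine le_of_mul_le_mul_left ?_ hABz
    calc (A : ℤ) * B * (((L : ℤ) - 1) * a) = (((L : ℤ) - 1) * (A * B)) * a := by ring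
      _ ≤ (L * (((j : ℤ) + 1) * (B - s : ℕ))) * a :=
          mul_le_mul_of_nonneg_right e4 (Int.natCast_nonneg a)
      _ = L * (((j : ℤ) + 1) * (B - s : ℕ) * a) := by ring
      _ = L * ((A : ℤ) * B * b) := by rw [hRz]
      _ = (A : ℤ) * B * (L * b) := by ring
  have hL1 : ((L - 1 : ℕ) : ℤ) = (L : ℤ) - 1 := by omega
  have : (((L - 1) * a : ℕ) : ℤ) ≤ ((L * b : ℕ) : ℤ) := by
    rw [Nat.cast_mul, Nat.cast_mul, hL1]
    exact fin
  exact_mod_cast this

end IWk

open IWk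

theorem pr_Wk (hSk : St_Sk) (hVt : St_Vt) (hRt : St_Rt) (hMd : St_Md) : St_Wk := by
  intro k s d j hk hks hd hj
  obtain ⟨J, hJ1, hJ2, hmax, h3, h4, -⟩ := hMd k s d hk hks hd
  obtain ⟨m, hm⟩ : ∃ m, m = k + s := ⟨_, rfl⟩
  obtain ⟨M, hM⟩ : ∃ M, M = m + d := ⟨_, rfl⟩
  have hkM : k + s + d = M := by omega
  rw [hkM] at hmax hJ2 hj ⊢
  rw [hkM] at h4
  rw [← hm] at h3 h4 ⊢
  obtain ⟨C, hC⟩ : ∃ C, C = M.choose m := ⟨_, rfl⟩
  have hm0 : 0 < m := by omega
  have hM0 : 0 < M := by omega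
  -- the number `L`
  obtain ⟨L, hLd⟩ : ∃ L, L = Nat.sqrt (k * (d + 1) * M / (8 * m ^ 2)) := ⟨_, rfl⟩
  have h8m : 0 < 8 * m ^ 2 := by positivity
  have hL1 : 8 * m ^ 2 * L ^ 2 ≤ k * (d + 1) * M := by
    have h5 : L ^ 2 ≤ k * (d + 1) * M / (8 * m ^ 2) := by
      rw [hLd]
      exact Nat.sqrt_le' _
    calc 8 * m ^ 2 * L ^ 2 ≤ 8 * m ^ 2 * (k * (d + 1) * M / (8 * m ^ 2)) :=
          Nat.mul_le_mul_left _ h5
      _ ≤ k * (d + 1) * M := Nat.mul_div_le _ _
  have hL2 : k * (d + 1) * M < 8 * m ^ 2 * (L + 1) ^ 2 := by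
    have h5 : k * (d + 1) * M / (8 * m ^ 2) < (L + 1) ^ 2 := by
      rw [hLd]
      exact Nat.lt_succ_sqrt' _
    rw [mul_comm (8 * m ^ 2)]
    exact (Nat.div_lt_iff_lt_mul h8m).mp h5
  have h5L : 5 * L ≤ M := by
    have h6 : 2 * k ≤ m := by omega
    have h7 : d + 1 ≤ M := by omega
    have h8 : 2 * (k * (d + 1) * M) ≤ m * M * M := by
      calc 2 * (k * (d + 1) * M) = (2 * k) * (d + 1) * M := by ring
        _ ≤ m * M * M := Nat.mul_le_mul (Nat.mul_le_mul h6 h7) le_rfl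
    have h9 : m * (16 * m * L ^ 2) ≤ m * (M * M) := by
      calc m * (16 * m * L ^ 2) = 2 * (8 * m ^ 2 * L ^ 2) := by ring
        _ ≤ 2 * (k * (d + 1) * M) := Nat.mul_le_mul_left _ hL1
        _ ≤ m * M * M := h8
        _ = m * (M * M) := by ring
    have h10 : 16 * m * L ^ 2 ≤ M * M := Nat.le_of_mul_le_mul_left h9 hm0
    have h11 : 2 ≤ m := by omega
    have h12 : 25 * L ^ 2 ≤ M * M := by
      refine le_trans ?_ h10
      refine Nat.mul_le_mul_right _ ?_
      omega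
    by_contra hcon
    push Not at hcon
    nlinarith
  have h2J : 2 * J ≤ M + 1 := by
    have h6 : m * (2 * J) ≤ m * (M + 1) := by
      have h7 : 2 * k ≤ m := by omega
      calc m * (2 * J) = 2 * (m * J) := by ring
        _ ≤ 2 * (k * M + k) := Nat.mul_le_mul_left _ h4
        _ = (2 * k) * (M + 1) := by ring
        _ ≤ m * (M + 1) := Nat.mul_le_mul_right _ h7
    exact Nat.le_of_mul_le_mul_left h6 hm0
  -- the bound for the largest term
  obtain ⟨V, hV⟩ : ∃ V, V = v k s M := ⟨_, rfl⟩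
  have hb : m * (L + 1) * V J ≤ 2 * M * C := by
    rcases Nat.eq_zero_or_pos L with hL0 | hL0
    · rw [hL0, zero_add, mul_one]
      have h6 : V J ≤ C := by
        rw [hV, hC, hm]
        exact hVt k s M J hJ2
      calc m * V J ≤ M * C := Nat.mul_le_mul (by omega) h6
        _ ≤ 2 * M * C := by nlinarith [Nat.zero_le (M * C)]
    · have h6 := slow_sum (fun i => V (J + i)) L (fun i hi => by
        have hR := hRt k s M (J + i) (by omega) (by omega)
        rw [← hV] at hR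
        exact step k s d m M J L i (V (J + i)) (V (J + i + 1)) hk hks hm hM hJ1 h3 h4 hL1 h5L h2J hi
          hR) hL0
      simp only [add_zero] at h6
      have h7 : ∑ i ∈ range L, V (J + i) ≤ ∑ j ∈ range (M + 1), V j := by
        have e : ∑ i ∈ range L, V (J + i) = ∑ j ∈ Ico J (J + L), V j := by
          rw [Finset.sum_Ico_eq_sum_range, Nat.add_sub_cancel_left]
        rw [e]
        refine Finset.sum_le_sum_of_subset ?_
        intro x hx
        rw [Finset.mem_Ico] at hx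
        rw [Finset.mem_range]
        omega
      have h8 : ∑ j ∈ range (M + 1), V j = (M + 1).choose (m + 1) := by
        rw [hV, hSk k s M, hm]
      have h9 : m * (M + 1).choose (m + 1) ≤ M * C := by
        have e1 : (M + 1) * M.choose m = (M + 1).choose (m + 1) * (m + 1) :=
          Nat.add_one_mul_choose_eq M m
        rw [← hC] at e1
        refine Nat.le_of_mul_le_mul_left (c := m + 1) ?_ (Nat.succ_pos m)
        calc (m + 1) * (m * (M + 1).choose (m + 1)) = m * ((M + 1).choose (m + 1) * (m + 1)) := by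
              ring
          _ = m * ((M + 1) * C) := by rw [e1]
          _ = (m * M + m) * C := by ring
          _ ≤ (m * M + M) * C := Nat.mul_le_mul_right _ (by omega)
          _ = (m + 1) * (M * C) := by ring
      calc m * (L + 1) * V J = m * ((L + 1) * V J) := by ring
        _ ≤ m * (2 * ∑ i ∈ range L, V (J + i)) := Nat.mul_le_mul_left _ h6
        _ ≤ m * (2 * (M + 1).choose (m + 1)) := by
            rw [h8] at h7
            exact Nat.mul_le_mul_left _ (Nat.mul_le_mul_left _ h7)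
        _ = 2 * (m * (M + 1).choose (m + 1)) := by ring
        _ ≤ 2 * (M * C) := Nat.mul_le_mul_left _ h9
        _ = 2 * M * C := by ring
  -- assembly
  have hjJ : v k s M j ≤ V J := by
    rw [hV]
    exact hmax j hj
  rw [← hC]
  have h6 : k * (d + 1) * (V J) ^ 2 ≤ 32 * M * C ^ 2 := by
    refine Nat.le_of_mul_le_mul_left (c := M) ?_ hM0
    calc M * (k * (d + 1) * (V J) ^ 2) = (k * (d + 1) * M) * (V J) ^ 2 := by ring
      _ ≤ (8 * m ^ 2 * (L + 1) ^ 2) * (V J) ^ 2 := Nat.mul_le_mul_right _ hL2.le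
      _ = 8 * (m * (L + 1) * V J) ^ 2 := by ring
      _ ≤ 8 * (2 * M * C) ^ 2 := Nat.mul_le_mul_left _ (Nat.pow_le_pow_left hb 2)
      _ = M * (32 * M * C ^ 2) := by ring
  calc k * (d + 1) * (v k s M j) ^ 2 ≤ k * (d + 1) * (V J) ^ 2 :=
        Nat.mul_le_mul_left _ (Nat.pow_le_pow_left hjJ 2)
    _ ≤ 32 * M * C ^ 2 := h6
    _ ≤ 288 * M * C ^ 2 := by
        refine Nat.mul_le_mul_right _ (Nat.mul_le_mul_right _ (by norm_num))

end Pool.Agent.Work.MP_e17eac_co.RP
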