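import Pool.Agent.Work.MP_e17eac_co.RP.Stmts2

set_option autoImplicit false

namespace Pool.Agent.Work.MP_e17eac_co.RP

theorem pr_Yk (hSk : St_Sk) : St_Yk := by
  intro k s M
  have h := hSk (k + 1) s (M + 1)
  rw [Finset.sum_range_succ'] at h
  have h0 : v (k + 1) s (M + 1) 0 = 0 := by
    unfold v
    rw [Nat.choose_zero_succ, Nat.zero_mul]
  have h1 : ∀ j ∈ Finset.range (M + 1), (j + 1) * v k s M j =
      (k + 1) * v (k + 1) s (M + 1) (j + 1) := by
    intro j _
    unfold v
    have e : M + 1 - (j + 1) = M - j := by omega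
    rw [e, ← Nat.mul_assoc, ← Nat.mul_assoc]
    have h2 := Nat.add_one_mul_choose_eq j k
    rw [h2, Nat.mul_comm ((j + 1).choose (k + 1)) (k + 1)]
  rw [Finset.sum_congr rfl h1, ← Finset.mul_sum]
  rw [h0, Nat.add_zero] at h
  have e2 : k + 1 + s + 1 = k + s + 2 := by omega
  rw [h, e2]

end Pool.Agent.Work.MP_e17eac_co.RP
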