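import Pool.Agent.Work.MP_e17eac_co.RP.Final2
import Pool.Agent.Work.MP_e17eac_co.RP.I_Sk
import Pool.Agent.Work.MP_e17eac_co.RP.I_Yk
import Pool.Agent.Work.MP_e17eac_co.RP.I_Vt
import Pool.Agent.Work.MP_e17eac_co.RP.I_Rt
import Pool.Agent.Work.MP_e17eac_co.RP.I_Md
import Pool.Agent.Work.MP_e17eac_co.RP.I_Wk
import Pool.Agent.Work.MP_e17eac_co.RP.I_Wc
import Pool.Agent.Work.MP_e17eac_co.RP.I_Op
import Pool.Agent.Work.MP_e17eac_co.RP.I_Dy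
import Pool.Agent.Work.MP_e17eac_co.RP.I_Ok
import Pool.Agent.Work.MP_e17eac_co.RP.I_Rk
import Pool.Agent.Work.MP_e17eac_co.RP.I_KD
import Pool.Agent.Work.MP_e17eac_co.RP.I_Lk
import Pool.Agent.Work.MP_e17eac_co.RP.I_Ck
import Pool.Agent.Work.MP_e17eac_co.RP.I_Fk
import Pool.Agent.Work.MP_e17eac_co.RP.I_Mp13
import Pool.Agent.Work.MP_e17eac_co.RP.I_Ge
import Pool.Agent.Work.MP_e17eac_co.RP.I_Mk
import Pool.Agent.Work.MP_e17eac_co.RP.I_Rf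
import Pool.Agent.Work.MP_e17eac_co.RP.I_Ik

/-!
# Block RP: assembly
-/

set_option autoImplicit false

namespace Pool.Agent.Work.MP_e17eac_co.RP

theorem TWk : St_Wk := pr_Wk pr_Sk pr_Vt pr_Rt (pr_Md pr_Rt)

theorem TWc : St_Wc := pr_Wc TWk pr_Vt

theorem TOk : St_Ok := pr_Ok pr_Op pr_Dy

theorem TLk : St_Lk := pr_Lk pr_KD

theorem TFk : St_Fk := pr_Fk TWc pr_Sk (pr_Yk pr_Sk) TOk TLk pr_Ck pr_Rk

theorem TIk : St_Ik := pr_Ik TFk pr_Mp13 (pr_Ge pr_Mp13) pr_Mk pr_Rf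

end Pool.Agent.Work.MP_e17eac_co.RP
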