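import Pool.Agent.Work.MP_e17eac_co.RP.Stmts

/-!
# Block RP: the final forms
-/

set_option autoImplicit false

namespace Pool.Agent.Work.MP_e17eac_co.RP

open Finset MeasureTheory

/-- The finite theorem for even `n` and all `N > n`. -/
theorem fin_form (hFi : St_Fi) (n N : ℕ) (hn : Even n) (hn0 : 0 < n) (hN : n < N)
    (x : Fin N → ℝ × ℝ) (hx : GP x) :
    ∑ T ∈ powersetCard n (univ : Finset (Fin N)), ((bisPairs x T).card : ℝ) ≤
      52 * (n : ℝ) ^ ((4 : ℝ) / 3) * ((min n (N - n) : ℕ) : ℝ) ^ (-(1 : ℝ) / 6) *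
        (N.choose n : ℕ) := by
  obtain ⟨m, hm⟩ := hn
  obtain ⟨k, rfl⟩ : ∃ k, n = 2 * k + 2 := ⟨m - 1, by omega⟩
  obtain ⟨d, rfl⟩ : ∃ d, N = 2 * k + d + 2 := ⟨N - (2 * k + 2), by omega⟩
  have h := hFi k d (by omega) x hx
  have e1 : 2 * k + d + 2 - (2 * k + 2) = d := by omega
  have e2 : 2 * k + 2 + d = 2 * k + d + 2 := by omega
  rw [e2] at h
  rw [e1]
  exact h

/-- The theorem for independent points, even `n`. -/
theorem iid_form (hIi : St_Ii) (n : ℕ) (hn : Even n) (μ : Measure (ℝ × ℝ))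
    [IsProbabilityMeasure μ] (hμ : ∀ p q : ℝ × ℝ, p ≠ q → μ {r | side p q r = 0} = 0) :
    Integrable (fun X : Fin n → ℝ × ℝ => ((bisPairs X univ).card : ℝ))
      (Measure.pi fun _ => μ) ∧
    ∫ X : Fin n → ℝ × ℝ, ((bisPairs X univ).card : ℝ) ∂(Measure.pi fun _ => μ) ≤
      52 * (n : ℝ) ^ ((7 : ℝ) / 6) := by
  rcases Nat.eq_zero_or_pos n with rfl | hn0
  · have h0 : ∀ X : Fin 0 → ℝ × ℝ, ((bisPairs X univ).card : ℝ) = 0 := by
      intro X
      have : bisPairs X univ = ∅ := by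
        apply Finset.eq_empty_of_forall_notMem
        intro e _
        exact e.1.elim0
      rw [this]
      simp
    simp only [h0]
    refine ⟨integrable_zero _ _ _, ?_⟩
    rw [integral_zero]
    positivity
  · obtain ⟨m, hm⟩ := hn
    obtain ⟨k, rfl⟩ : ∃ k, n = 2 * k + 2 := ⟨m - 1, by omega⟩
    exact hIi k μ hμ

end Pool.Agent.Work.MP_e17eac_co.RP
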