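import Pool.Agent.Work.MP_e17eac_co.RP.Stmts2

/-!
# Block RP, part 2: the final forms
-/

set_option autoImplicit false

namespace Pool.Agent.Work.MP_e17eac_co.RP

open Finset MeasureTheory

/-- The finite theorem. -/
theorem fin_form2 (hFk : St_Fk) (n k N : ℕ) (hk : 2 * k + 2 ≤ n) (hN : n < N)
    (x : Fin N → ℝ × ℝ) (hx : GP x) :
    ∑ T ∈ powersetCard n (univ : Finset (Fin N)), ((ke x T k).card : ℝ) ≤
      1400 * (n : ℝ) * ((k : ℝ) + 1) ^ ((1 : ℝ) / 3) *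
        (1 + ((k : ℝ) + 1) * (min n (N - n) : ℕ) / (n : ℝ)) ^ (-(1 : ℝ) / 6) *
        (N.choose n : ℕ) := by
  obtain ⟨s, rfl⟩ : ∃ s, n = k + s + 2 := ⟨n - k - 2, by omega⟩
  obtain ⟨d, rfl⟩ : ∃ d, N = k + s + d + 2 := ⟨N - (k + s + 2), by omega⟩
  have h := hFk k s d (by omega) (by omega) x hx
  have e1 : k + s + d + 2 - (k + s + 2) = d := by omega
  rw [e1]
  exact h

/-- The theorem for independent points. -/
theorem iid_form2 (hIk : St_Ik) (n k : ℕ) (hk : 2 * k + 2 ≤ n) (μ : Measure (ℝ × ℝ))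
    [IsProbabilityMeasure μ] (hμ : ∀ p q : ℝ × ℝ, p ≠ q → μ {r | side p q r = 0} = 0) :
    Integrable (fun X : Fin n → ℝ × ℝ => ((ke X univ k).card : ℝ))
      (Measure.pi fun _ => μ) ∧
    ∫ X : Fin n → ℝ × ℝ, ((ke X univ k).card : ℝ) ∂(Measure.pi fun _ => μ) ≤
      1400 * (n : ℝ) * ((k : ℝ) + 1) ^ ((1 : ℝ) / 6) := by
  obtain ⟨s, rfl⟩ : ∃ s, n = k + s + 2 := ⟨n - k - 2, by omega⟩
  exact hIk k s (by omega) μ hμ

end Pool.Agent.Work.MP_e17eac_co.RP
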