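import Pool.Agent.Work.MP_e17eac_co.RP.Stmts

/-!
# Block RP, item Cb: central binomial coefficients
-/

set_option autoImplicit false

namespace Pool.Agent.Work.MP_e17eac_co.RP

namespace ICb

open Nat

lemma upper (a : ℕ) : a.centralBinom ^ 2 * (2 * a + 1) ≤ 16 ^ a := by
  induction a with
  | zero => simp
  | succ a ih =>
    have h := Nat.succ_mul_centralBinom_succ a
    have h1 : (a + 1) ^ 2 * ((a + 1).centralBinom ^ 2 * (2 * (a + 1) + 1)) ≤
        (a + 1) ^ 2 * 16 ^ (a + 1) := by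
      calc (a + 1) ^ 2 * ((a + 1).centralBinom ^ 2 * (2 * (a + 1) + 1))
          = ((a + 1) * (a + 1).centralBinom) ^ 2 * (2 * a + 3) := by ring
        _ = (2 * (2 * a + 1) * a.centralBinom) ^ 2 * (2 * a + 3) := by rw [h]
        _ = (a.centralBinom ^ 2 * (2 * a + 1)) * (4 * (2 * a + 1) * (2 * a + 3)) := by ring
        _ ≤ 16 ^ a * (16 * (a + 1) ^ 2) := by
            refine Nat.mul_le_mul ih ?_
            nlinarith
        _ = (a + 1) ^ 2 * 16 ^ (a + 1) := by ring
    exact Nat.le_of_mul_le_mul_left h1 (by positivity)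

lemma lower (a : ℕ) : 16 ^ (a + 1) ≤ 4 * (a + 1) * (a + 1).centralBinom ^ 2 := by
  induction a with
  | zero => simp [Nat.centralBinom]
  | succ a ih =>
    have h := Nat.succ_mul_centralBinom_succ (a + 1)
    have h1 : (a + 2) ^ 2 * 16 ^ (a + 2) ≤
        (a + 2) ^ 2 * (4 * (a + 2) * (a + 2).centralBinom ^ 2) := by
      calc (a + 2) ^ 2 * 16 ^ (a + 2) = 16 ^ (a + 1) * (16 * (a + 2) ^ 2) := by ring
        _ ≤ (4 * (a + 1) * (a + 1).centralBinom ^ 2) * (16 * (a + 2) ^ 2) :=
            Nat.mul_le_mul_right _ ih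
        _ = (a + 1).centralBinom ^ 2 * (4 * (a + 2)) * (16 * (a + 1) * (a + 2)) := by ring
        _ ≤ (a + 1).centralBinom ^ 2 * (4 * (a + 2)) * (4 * (2 * (a + 1) + 1) ^ 2) := by
            refine Nat.mul_le_mul_left _ ?_
            nlinarith
        _ = 4 * (a + 2) * (2 * (2 * (a + 1) + 1) * (a + 1).centralBinom) ^ 2 := by ring
        _ = 4 * (a + 2) * ((a + 1 + 1) * (a + 1 + 1).centralBinom) ^ 2 := by rw [h]
        _ = (a + 2) ^ 2 * (4 * (a + 2) * (a + 2).centralBinom ^ 2) := by ring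
    exact Nat.le_of_mul_le_mul_left h1 (by positivity)

lemma two_choose (a : ℕ) : 2 * (2 * a + 1).choose a = (a + 1).centralBinom := by
  have h1 : (a + 1).centralBinom = (2 * a + 1).choose a + (2 * a + 1).choose (a + 1) := by
    rw [Nat.centralBinom, show 2 * (a + 1) = (2 * a + 1) + 1 by ring, Nat.choose_succ_succ]
  rw [h1, Nat.choose_symm_half]
  ring

end ICb

/-- Cb -/
theorem pr_Cb : St_Cb := by
  intro m hm
  rcases Nat.even_or_odd' m with ⟨a, h | h⟩
  · subst h
    have ha : 1 ≤ a := by omega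
    have hd : 2 * a / 2 = a := by omega
    rw [hd]
    have hc : (2 * a).choose a = a.centralBinom := rfl
    rw [hc]
    have e : (4 : ℕ) ^ (2 * a) = 16 ^ a := by
      rw [pow_mul]
      norm_num
    rw [e]
    constructor
    · refine le_trans ?_ (ICb.upper a)
      nlinarith [Nat.zero_le (a.centralBinom ^ 2)]
    · obtain ⟨b, rfl⟩ : ∃ b, a = b + 1 := ⟨a - 1, by omega⟩
      refine le_trans (ICb.lower b) ?_
      nlinarith [Nat.zero_le ((b + 1).centralBinom ^ 2),
        Nat.zero_le (b * (b + 1).centralBinom ^ 2)]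
  · subst h
    have hd : (2 * a + 1) / 2 = a := by omega
    rw [hd]
    have h2 := ICb.two_choose a
    have hu := ICb.upper (a + 1)
    have hl := ICb.lower a
    rw [← h2] at hu hl
    have e : (4 : ℕ) * 4 ^ (2 * a + 1) = 16 ^ (a + 1) := by
      rw [← pow_succ', show 2 * a + 1 + 1 = 2 * (a + 1) by ring, pow_mul]
      norm_num
    generalize (2 * a + 1).choose a = b at *
    constructor
    · have : 4 * ((2 * a + 1) * b ^ 2) ≤ 4 * 4 ^ (2 * a + 1) := by
        rw [e]
        refine le_trans ?_ hu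
        nlinarith [Nat.zero_le (b ^ 2)]
      omega
    · have h3 : (a + 1) * (4 * 4 ^ (2 * a + 1)) ≤ (a + 1) * (4 * (4 * (2 * a + 1) * b ^ 2)) := by
        rw [e]
        have h4 : 16 ^ (a + 1) ≤ 16 * (a + 1) * b ^ 2 := by
          refine le_trans hl (le_of_eq ?_)
          ring
        calc (a + 1) * 16 ^ (a + 1) ≤ (a + 1) * (16 * (a + 1) * b ^ 2) :=
              Nat.mul_le_mul_left _ h4
          _ ≤ (a + 1) * (4 * (4 * (2 * a + 1) * b ^ 2)) := by
              refine Nat.mul_le_mul_left _ ?_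
              nlinarith [Nat.zero_le (a * b ^ 2)]
      have h5 := Nat.le_of_mul_le_mul_left h3 (Nat.succ_pos a)
      omega

end Pool.Agent.Work.MP_e17eac_co.RP
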