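import Pool.Agent.Work.MP_e17eac_co.RP.Stmts2

/-!
# Item Dy of block RP: the dyadic sum (helper50)
-/

set_option autoImplicit false

namespace Pool.Agent.Work.MP_e17eac_co.RP

open Finset MeasureTheory

namespace IDy

lemma sum1 (c : ℝ) (hc : 1.2599 ≤ c) (k : ℕ) :
    ∑ i ∈ range (k + 1), c ^ i ≤ 4.85 * c ^ k := by
  have hc0 : 0 < c := by norm_num at hc ⊢; linarith
  induction k with
  | zero => norm_num
  | succ k ih =>
    rw [Finset.sum_range_succ]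
    have hp : 0 < c ^ k := pow_pos hc0 k
    have h1 : c ^ (k + 1) = c ^ k * c := pow_succ c k
    rw [h1]
    have h2 : 4.85 ≤ 3.85 * c := by norm_num at hc ⊢; linarith
    nlinarith

lemma sum2 (q : ℝ) (hq0 : 0 ≤ q) (hq : 1 ≤ 4.85 * (1 - q)) (n : ℕ) :
    ∑ i ∈ range n, q ^ i ≤ 4.85 := by
  have h : ∑ i ∈ range n, q ^ i ≤ 4.85 * (1 - q ^ n) := by
    induction n with
    | zero => simp
    | succ n ih =>
      rw [Finset.sum_range_succ]
      have hp : 0 ≤ q ^ n := pow_nonneg hq0 n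
      have h1 : q ^ (n + 1) = q ^ n * q := pow_succ q n
      rw [h1]
      nlinarith
  have hp : 0 ≤ q ^ n := pow_nonneg hq0 n
  nlinarith

/-- the main computation with cube roots -/
lemma main (I : ℕ) (w : ℕ → ℝ) (a b c : ℝ) (ha : 0 < a) (hb : 0 < b) (hba : b ≤ a)
    (hc : 1.2599 ≤ c) (hw0 : ∀ i < I, 0 ≤ w i) (hwb : ∀ i < I, w i ≤ b)
    (hwa : ∀ i < I, c ^ i * w i ≤ a) :
    ∑ i ∈ range I, c ^ i * (w i) ^ 2 ≤ 9.7 * b * a := by
  have hc0 : 0 < c := by norm_num at hc ⊢; linarith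
  have hc1 : 1 < c := by norm_num at hc ⊢; linarith
  obtain ⟨q, hq⟩ : ∃ q : ℝ, q = c⁻¹ := ⟨_, rfl⟩
  have hq0 : 0 < q := by rw [hq]; exact inv_pos.2 hc0
  have hqc : q * c = 1 := by rw [hq]; exact inv_mul_cancel₀ hc0.ne'
  have hq1 : 1 ≤ 4.85 * (1 - q) := by
    norm_num at hc ⊢
    nlinarith
  -- the first `m` with `a < c^m b`
  have hex : ∃ m : ℕ, a < c ^ m * b := by
    obtain ⟨m, hm⟩ := pow_unbounded_of_one_lt (a / b) hc1
    exact ⟨m, (div_lt_iff₀ hb).1 hm⟩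
  obtain ⟨m, hm⟩ : ∃ m, Nat.find hex = m := ⟨_, rfl⟩
  have hm1 : a < c ^ m * b := by rw [← hm]; exact Nat.find_spec hex
  obtain ⟨k, hk⟩ : ∃ k, m = k + 1 := by
    rcases Nat.eq_zero_or_pos m with h0 | h0
    · exfalso
      rw [h0, pow_zero, one_mul] at hm1
      exact absurd hm1 (not_lt.2 hba)
    · exact ⟨m - 1, by omega⟩
  have hm2 : c ^ k * b ≤ a := by
    have := Nat.find_min hex (m := k) (by omega)
    exact not_lt.1 this
  subst hk
  obtain ⟨g, hg⟩ : ∃ g : ℕ → ℝ, g = fun i => if i < k + 1 then c ^ i * b ^ 2 else q ^ i * a ^ 2 :=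
    ⟨_, rfl⟩
  have hg0 : ∀ i, 0 ≤ g i := by
    intro i
    rw [hg]
    dsimp only
    split_ifs
    · exact mul_nonneg (pow_nonneg hc0.le _) (sq_nonneg _)
    · exact mul_nonneg (pow_nonneg hq0.le _) (sq_nonneg _)
  have h1 : ∀ i ∈ range I, c ^ i * (w i) ^ 2 ≤ g i := by
    intro i hi
    have hi' := Finset.mem_range.1 hi
    have hp : 0 < c ^ i := pow_pos hc0 i
    rw [hg]
    dsimp only
    split_ifs
    · exact mul_le_mul_of_nonneg_left (pow_le_pow_left₀ (hw0 i hi') (hwb i hi') 2) hp.le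
    · have h2 : (c ^ i * w i) ^ 2 ≤ a ^ 2 :=
        pow_le_pow_left₀ (mul_nonneg hp.le (hw0 i hi')) (hwa i hi') 2
      have h3 : q ^ i * c ^ i = 1 := by rw [← mul_pow, hqc, one_pow]
      have h4 : c ^ i * (w i) ^ 2 = q ^ i * (c ^ i * w i) ^ 2 := by
        have : q ^ i * (c ^ i * w i) ^ 2 = (q ^ i * c ^ i) * (c ^ i * (w i) ^ 2) := by ring
        rw [this, h3, one_mul]
      rw [h4]
      exact mul_le_mul_of_nonneg_left h2 (pow_nonneg hq0.le _)
  have h2 : ∑ i ∈ range I, g i ≤ ∑ i ∈ range (k + 1 + I), g i :=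
    Finset.sum_le_sum_of_subset_of_nonneg
      (Finset.range_mono (by omega)) (fun i _ _ => hg0 i)
  have h3 : ∑ i ∈ range (k + 1 + I), g i =
      ∑ i ∈ range (k + 1), g i + ∑ i ∈ range I, g (k + 1 + i) := Finset.sum_range_add g (k + 1) I
  have h4 : ∑ i ∈ range (k + 1), g i ≤ 4.85 * a * b := by
    have h5 : ∑ i ∈ range (k + 1), g i = (∑ i ∈ range (k + 1), c ^ i) * b ^ 2 := by
      rw [Finset.sum_mul]
      refine Finset.sum_congr rfl fun i hi => ?_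
      rw [hg]
      dsimp only
      rw [if_pos (Finset.mem_range.1 hi)]
    rw [h5]
    have h6 := sum1 c hc k
    calc (∑ i ∈ range (k + 1), c ^ i) * b ^ 2 ≤ 4.85 * c ^ k * b ^ 2 :=
          mul_le_mul_of_nonneg_right h6 (sq_nonneg _)
      _ = 4.85 * b * (c ^ k * b) := by ring
      _ ≤ 4.85 * b * a := mul_le_mul_of_nonneg_left hm2 (by positivity)
      _ = 4.85 * a * b := by ring
  have h5 : ∑ i ∈ range I, g (k + 1 + i) ≤ 4.85 * a * b := by
    have h6 : ∑ i ∈ range I, g (k + 1 + i) = (∑ i ∈ range I, q ^ i) * (q ^ (k + 1) * a ^ 2) := by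
      rw [Finset.sum_mul]
      refine Finset.sum_congr rfl fun i hi => ?_
      rw [hg]
      dsimp only
      rw [if_neg (by omega), pow_add]
      ring
    rw [h6]
    have h7 := sum2 q hq0.le hq1 I
    have h8 : q ^ (k + 1) * a ≤ b := by
      have h9 : q ^ (k + 1) * c ^ (k + 1) = 1 := by rw [← mul_pow, hqc, one_pow]
      calc q ^ (k + 1) * a ≤ q ^ (k + 1) * (c ^ (k + 1) * b) :=
            mul_le_mul_of_nonneg_left hm1.le (pow_nonneg hq0.le _)
        _ = (q ^ (k + 1) * c ^ (k + 1)) * b := by ring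
        _ = b := by rw [h9, one_mul]
    calc (∑ i ∈ range I, q ^ i) * (q ^ (k + 1) * a ^ 2) ≤ 4.85 * (q ^ (k + 1) * a ^ 2) :=
          mul_le_mul_of_nonneg_right h7 (mul_nonneg (pow_nonneg hq0.le _) (sq_nonneg _))
      _ = 4.85 * a * (q ^ (k + 1) * a) := by ring
      _ ≤ 4.85 * a * b := mul_le_mul_of_nonneg_left h8 (by positivity)
  calc ∑ i ∈ range I, c ^ i * (w i) ^ 2 ≤ ∑ i ∈ range I, g i := Finset.sum_le_sum h1
    _ ≤ 4.85 * a * b + 4.85 * a * b := by rw [h3] at h2; linarith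
    _ = 9.7 * b * a := by ring

end IDy

open IDy in
theorem pr_Dy : St_Dy := by
  intro I z Z Y hZ hZY hz0 hzZ hzY
  have hY : 0 < Y := lt_of_lt_of_le hZ hZY
  obtain ⟨c, hc⟩ : ∃ c : ℝ, c = (2 : ℝ) ^ ((1 : ℝ) / 3) := ⟨_, rfl⟩
  have hc0 : 0 < c := by rw [hc]; positivity
  have hc3 : c ^ 3 = 2 := by
    rw [hc, ← Real.rpow_natCast, ← Real.rpow_mul (by norm_num)]
    norm_num
  have hci : ∀ i : ℕ, (2 : ℝ) ^ ((i : ℝ) / 3) = c ^ i := by
    intro i
    rw [hc, ← Real.rpow_natCast, ← Real.rpow_mul (by norm_num)]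
    congr 1
    ring
  have hcl : 1.2599 ≤ c := by
    by_contra h
    push Not at h
    have h1 : c ^ 3 < 1.2599 ^ 3 := pow_lt_pow_left₀ h hc0.le (by norm_num)
    rw [hc3] at h1
    norm_num at h1
  -- cube roots
  have hcube : ∀ x : ℝ, 0 ≤ x → (x ^ ((1 : ℝ) / 3)) ^ 3 = x := by
    intro x hx
    rw [← Real.rpow_natCast, ← Real.rpow_mul hx]
    norm_num
  have hsq : ∀ x : ℝ, 0 ≤ x → x ^ ((2 : ℝ) / 3) = (x ^ ((1 : ℝ) / 3)) ^ 2 := by
    intro x hx
    rw [← Real.rpow_natCast, ← Real.rpow_mul hx]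
    norm_num
  have ha : 0 < Y ^ ((1 : ℝ) / 3) := Real.rpow_pos_of_pos hY _
  have hb : 0 < Z ^ ((1 : ℝ) / 3) := Real.rpow_pos_of_pos hZ _
  have hba : Z ^ ((1 : ℝ) / 3) ≤ Y ^ ((1 : ℝ) / 3) := Real.rpow_le_rpow hZ.le hZY (by norm_num)
  have h := main I (fun i => (z i) ^ ((1 : ℝ) / 3)) (Y ^ ((1 : ℝ) / 3)) (Z ^ ((1 : ℝ) / 3)) c
    ha hb hba hcl (fun i hi => Real.rpow_nonneg (hz0 i hi) _)
    (fun i hi => Real.rpow_le_rpow (hz0 i hi) (hzZ i hi) (by norm_num))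
    (fun i hi => by
      have h1 : c ^ i = ((2 : ℝ) ^ i) ^ ((1 : ℝ) / 3) := by
        rw [← hci i, ← Real.rpow_natCast, ← Real.rpow_mul (by norm_num)]
        congr 1
        ring
      rw [h1, ← Real.mul_rpow (by positivity) (hz0 i hi)]
      exact Real.rpow_le_rpow (mul_nonneg (by positivity) (hz0 i hi)) (hzY i hi) (by norm_num))
  refine le_trans (le_of_eq ?_) h
  refine Finset.sum_congr rfl fun i hi => ?_
  rw [hci i, hsq (z i) (hz0 i (Finset.mem_range.1 hi))]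

end Pool.Agent.Work.MP_e17eac_co.RP
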