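import Pool.Agent.Work.MP_e17eac_co.RP.Stmts

/-!
# Block RP, item Fi: the finite theorem
-/

set_option autoImplicit false

namespace Pool.Agent.Work.MP_e17eac_co.RP

open Finset

namespace IFi

theorem lev_le {M : ℕ} (x : Fin (M + 2) → ℝ × ℝ) (i j : Fin (M + 2)) (hij : i < j) :
    lev x i j ≤ M := by
  classical
  unfold lev
  have hsub : (univ.filter fun l => 0 < side (x i) (x j) (x l)) ⊆ (univ.erase i).erase j := by
    intro l hl
    rw [mem_filter] at hl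
    rw [mem_erase, mem_erase]
    refine ⟨?_, ?_, mem_univ _⟩
    · rintro rfl
      have h := hl.2
      unfold side at h
      nlinarith
    · rintro rfl
      have h := hl.2
      unfold side at h
      nlinarith
  refine (card_le_card hsub).trans ?_
  rw [card_erase_of_mem (mem_erase.2 ⟨hij.ne', mem_univ _⟩), card_erase_of_mem (mem_univ _),
    card_univ, Fintype.card_fin]
  omega

theorem bis_two {N : ℕ} (x : Fin N → ℝ × ℝ) (T : Finset (Fin N)) (hT : T.card = 2) :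
    (bisPairs x T).card ≤ 1 := by
  classical
  obtain ⟨a, b, hab, rfl⟩ := card_eq_two.1 hT
  rw [card_le_one]
  intro e he e' he'
  unfold bisPairs at he he'
  rw [mem_filter, mem_product] at he he'
  obtain ⟨⟨h1, h2⟩, h3, -⟩ := he
  obtain ⟨⟨h1', h2'⟩, h3', -⟩ := he'
  rw [mem_insert, mem_singleton] at h1 h2 h1' h2'
  rcases h1 with h1 | h1 <;> rcases h2 with h2 | h2 <;> rcases h1' with h1' | h1' <;>
    rcases h2' with h2' | h2' <;> rw [h1, h2] at h3 <;> rw [h1', h2'] at h3'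
  all_goals first
    | exact absurd h3 (lt_irrefl _)
    | exact absurd h3' (lt_irrefl _)
    | exact absurd (h3.trans h3') (lt_irrefl _)
    | exact Prod.ext (h1.trans h1'.symm) (h2.trans h2'.symm)

theorem zero_case (d : ℕ) (hd : 1 ≤ d) (x : Fin (2 * 0 + d + 2) → ℝ × ℝ) :
    ∑ T ∈ powersetCard (2 * 0 + 2) (univ : Finset (Fin (2 * 0 + d + 2))),
      ((bisPairs x T).card : ℝ) ≤
    52 * ((2 * 0 + 2 : ℕ) : ℝ) ^ ((4 : ℝ) / 3) *
      ((min (2 * 0 + 2) d : ℕ) : ℝ) ^ (-(1 : ℝ) / 6) *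
        ((2 * 0 + 2 + d).choose (2 * 0 + 2) : ℕ) := by
  have h1 : ∑ T ∈ powersetCard (2 * 0 + 2) (univ : Finset (Fin (2 * 0 + d + 2))),
      ((bisPairs x T).card : ℝ) ≤ ((2 * 0 + 2 + d).choose (2 * 0 + 2) : ℕ) := by
    have h2 : ∀ T ∈ powersetCard (2 * 0 + 2) (univ : Finset (Fin (2 * 0 + d + 2))),
        ((bisPairs x T).card : ℝ) ≤ 1 := by
      intro T hT
      have h3 := bis_two x T (by
        have := (mem_powersetCard.1 hT).2
        omega)
      exact_mod_cast h3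
    refine (sum_le_card_nsmul _ _ _ h2).trans ?_
    rw [card_powersetCard, card_univ, Fintype.card_fin, nsmul_eq_mul, mul_one]
    have : 2 * 0 + d + 2 = 2 * 0 + 2 + d := by omega
    rw [this]
  refine h1.trans ?_
  have hC : (0 : ℝ) ≤ (((2 * 0 + 2 + d).choose (2 * 0 + 2) : ℕ) : ℝ) := Nat.cast_nonneg _
  have hm0 : (0 : ℝ) < ((min (2 * 0 + 2) d : ℕ) : ℝ) := by
    have : 0 < min (2 * 0 + 2) d := lt_min (by omega) (by omega)
    exact_mod_cast this
  have hm2 : ((min (2 * 0 + 2) d : ℕ) : ℝ) ≤ 2 := by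
    have : min (2 * 0 + 2) d ≤ 2 := (min_le_left _ _).trans (by omega)
    exact_mod_cast this
  have h4 : (2 : ℝ) ^ (-(1 : ℝ) / 6) ≤ ((min (2 * 0 + 2) d : ℕ) : ℝ) ^ (-(1 : ℝ) / 6) :=
    Real.rpow_le_rpow_of_nonpos hm0 hm2 (by norm_num)
  have h5 : ((2 * 0 + 2 : ℕ) : ℝ) = 2 := by norm_num
  rw [h5]
  have h6 : (1 : ℝ) ≤ 52 * 2 ^ ((4 : ℝ) / 3) * ((min (2 * 0 + 2) d : ℕ) : ℝ) ^ (-(1 : ℝ) / 6) := by
    have h7 : (1 : ℝ) ≤ 2 ^ ((4 : ℝ) / 3) * 2 ^ (-(1 : ℝ) / 6) := by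
      rw [← Real.rpow_add (by norm_num)]
      exact Real.one_le_rpow (by norm_num) (by norm_num)
    have h8 : (0 : ℝ) < 2 ^ ((4 : ℝ) / 3) := by positivity
    have h9 := mul_le_mul_of_nonneg_left h4 h8.le
    nlinarith
  nlinarith

end IFi

/-- Fi. -/
theorem pr_Fi (hWt : St_Wt) (hSw : St_Sw) (hOp : St_Op) (hLv : St_Lv) (hCt : St_Ct)
    (hRs : St_Rs) : St_Fi := by
  intro k d hd x hx
  rcases Nat.eq_zero_or_pos k with rfl | hk
  · exact IFi.zero_case d hd x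
  classical
  have h0 := hCt k (2 * k + d) x hx
  have h1 : ∑ T ∈ powersetCard (2 * k + 2) (univ : Finset (Fin (2 * k + d + 2))),
      ((bisPairs x T).card : ℝ) =
      ∑ e ∈ (univ : Finset (Fin (2 * k + d + 2) × Fin (2 * k + d + 2))).filter
        (fun e => e.1 < e.2), (w k (2 * k + d) (lev x e.1 e.2) : ℝ) := by
    exact_mod_cast h0
  rw [h1]
  obtain ⟨P, hP⟩ : ∃ P, P = (univ : Finset (Fin (2 * k + d + 2) × Fin (2 * k + d + 2))).filter
        (fun e => e.1 < e.2) := ⟨_, rfl⟩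
  rw [← hP]
  have hmaps : ∀ e ∈ P, lev x e.1 e.2 ∈ range (2 * k + d + 1) := by
    intro e he
    rw [hP, mem_filter] at he
    rw [mem_range]
    have := IFi.lev_le x e.1 e.2 he.2
    omega
  rw [← sum_fiberwise_of_maps_to hmaps]
  obtain ⟨a, ha⟩ : ∃ a : ℕ → ℝ, a = fun j => ((P.filter fun e => lev x e.1 e.2 = j).card : ℝ) :=
    ⟨_, rfl⟩
  obtain ⟨v, hv⟩ : ∃ v : ℕ → ℝ, v = fun j => (w k (2 * k + d) j : ℝ) := ⟨_, rfl⟩
  have h2 : ∀ j ∈ range (2 * k + d + 1), ∑ e ∈ P.filter (fun e => lev x e.1 e.2 = j),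
      (w k (2 * k + d) (lev x e.1 e.2) : ℝ) = a j * v j := by
    intro j _
    rw [ha, hv]
    show _ = ((P.filter fun e => lev x e.1 e.2 = j).card : ℝ) * (w k (2 * k + d) j : ℝ)
    rw [← nsmul_eq_mul, ← sum_const]
    refine sum_congr rfl fun e he => ?_
    rw [(mem_filter.1 he).2]
  rw [sum_congr rfl h2]
  have hkr : (0 : ℝ) < k := by exact_mod_cast hk
  have hdr : (0 : ℝ) < d := by exact_mod_cast hd
  have hch : 0 < (2 * k + d).choose (2 * k) := Nat.choose_pos (by omega)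
  have hchr : (0 : ℝ) < ((2 * k + d).choose (2 * k) : ℕ) := by exact_mod_cast hch
  have hW0 : (0 : ℝ) < Real.sqrt (2 * (2 * k + d) / (k * d)) *
      ((2 * k + d).choose (2 * k) : ℕ) := by
    refine mul_pos (Real.sqrt_pos.2 ?_) hchr
    positivity
  have hZ0 : (0 : ℝ) < (((2 * k + d + 1).choose (2 * k + 1) : ℕ) : ℝ) := by
    have : 0 < (2 * k + d + 1).choose (2 * k + 1) := Nat.choose_pos (by omega)
    exact_mod_cast this
  have hbound : ∀ j ∈ range (2 * k + d + 1), 0 ≤ v j ∧ v j ≤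
      Real.sqrt (2 * (2 * k + d) / (k * d)) * ((2 * k + d).choose (2 * k) : ℕ) := by
    intro j hj
    rw [mem_range] at hj
    rw [hv]
    refine ⟨Nat.cast_nonneg _, ?_⟩
    show (w k (2 * k + d) j : ℝ) ≤ _
    have h3 := hWt k d j hk hd (by omega)
    have h4 : (k : ℝ) * d * (w k (2 * k + d) j : ℝ) ^ 2 ≤
        2 * (2 * k + d) * (((2 * k + d).choose (2 * k) : ℕ) : ℝ) ^ 2 := by exact_mod_cast h3
    refine abs_le_of_sq_le_sq' ?_ hW0.le |>.2
    rw [mul_pow, Real.sq_sqrt (by positivity), div_mul_eq_mul_div, le_div_iff₀ (by positivity)]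
    linarith
  have hsumv : ∑ j ∈ range (2 * k + d + 1), v j ≤ (((2 * k + d + 1).choose (2 * k + 1) : ℕ) : ℝ) := by
    rw [hv, ← hSw k (2 * k + d)]
    push_cast
    exact le_refl _
  have hR : ∀ R ⊆ range (2 * k + d + 1), ∑ j ∈ R, a j ≤
      13 * ((2 * k + 2 + d : ℕ) : ℝ) ^ ((4 : ℝ) / 3) * (R.card : ℝ) ^ ((2 : ℝ) / 3) := by
    intro R _
    have h3 := hLv (2 * k + d + 2) x (by omega) hx R
    have h4 : ((2 * k + d + 2 : ℕ) : ℝ) = ((2 * k + 2 + d : ℕ) : ℝ) := by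
      congr 1
      omega
    rw [h4] at h3
    refine le_trans (le_of_eq ?_) h3
    rw [card_eq_sum_card_fiberwise (s := (univ : Finset (Fin (2 * k + d + 2) ×
      Fin (2 * k + d + 2))).filter fun e => e.1 < e.2 ∧ lev x e.1 e.2 ∈ R)
      (f := fun e => lev x e.1 e.2) (t := R) (fun e he => (mem_filter.1 he).2.2)]
    rw [Nat.cast_sum, ha]
    refine sum_congr rfl fun j hj => ?_
    show ((P.filter fun e => lev x e.1 e.2 = j).card : ℝ) = _
    congr 2
    rw [hP]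
    ext e
    simp only [mem_filter, mem_univ, true_and]
    constructor
    · rintro ⟨h5, h6⟩
      exact ⟨⟨h5, by rw [h6]; exact hj⟩, h6⟩
    · rintro ⟨⟨h5, -⟩, h6⟩
      exact ⟨h5, h6⟩
  have h5 := hOp (range (2 * k + d + 1)) a v (13 * ((2 * k + 2 + d : ℕ) : ℝ) ^ ((4 : ℝ) / 3))
    (Real.sqrt (2 * (2 * k + d) / (k * d)) * ((2 * k + d).choose (2 * k) : ℕ))
    (((2 * k + d + 1).choose (2 * k + 1) : ℕ) : ℝ)
    (fun j _ => by rw [ha]; exact Nat.cast_nonneg _) hbound hW0 hZ0 hsumv (by positivity) hR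
  exact h5.trans (hRs k d hk hd)

end Pool.Agent.Work.MP_e17eac_co.RP
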