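import Pool.Agent.Work.MP_e17eac_co.RP.Stmts

/-! # Item Ii of block RP: independent points -/

set_option autoImplicit false

namespace Pool.Agent.Work.MP_e17eac_co.RP

open Finset MeasureTheory

namespace IIi

/-- the number of bisecting pairs is bounded -/
theorem bp_le {N : ℕ} (X : Fin N → ℝ × ℝ) (T : Finset (Fin N)) :
    (bisPairs X T).card ≤ N * N := by
  classical
  have h1 : (bisPairs X T).card ≤ (T ×ˢ T).card := by
    unfold bisPairs
    exact Finset.card_filter_le _ _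
  have h2 : T.card ≤ N := by simpa using Finset.card_le_univ T
  have h3 : (T ×ˢ T).card ≤ N * N := by
    rw [Finset.card_product]
    exact Nat.mul_le_mul h2 h2
  exact h1.trans h3

/-- measurability of the real function -/
theorem meas_bp (hMs : St_Ms) (N : ℕ) (T : Finset (Fin N)) :
    Measurable fun X : Fin N → ℝ × ℝ => ((bisPairs X T).card : ℝ) :=
  (measurable_from_nat (f := fun n : ℕ => (n : ℝ))).comp (hMs N T)

/-- integrability -/
theorem int_bp (hMs : St_Ms) (N : ℕ) (T : Finset (Fin N)) (μ : Measure (ℝ × ℝ))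
    [IsProbabilityMeasure μ] :
    Integrable (fun X : Fin N → ℝ × ℝ => ((bisPairs X T).card : ℝ))
      (Measure.pi fun _ => μ) := by
  refine Integrable.of_bound (C := (N * N : ℕ)) (meas_bp hMs N T).aestronglyMeasurable ?_
  refine Filter.Eventually.of_forall fun X => ?_
  rw [Real.norm_of_nonneg (Nat.cast_nonneg _)]
  exact_mod_cast bp_le X T

/-- the expectation for a subfamily -/
theorem exp_eq (hMp : St_Mp) (hMs : St_Ms) (hRe : St_Re) (N n : ℕ) (T : Finset (Fin N))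
    (h : T.card = n) (μ : Measure (ℝ × ℝ)) [IsProbabilityMeasure μ] :
    ∫ Y : Fin N → ℝ × ℝ, ((bisPairs Y T).card : ℝ) ∂(Measure.pi fun _ => μ) =
      ∫ X : Fin n → ℝ × ℝ, ((bisPairs X univ).card : ℝ) ∂(Measure.pi fun _ => μ) := by
  have mp := hMp N n (T.orderEmbOfFin h) (T.orderEmbOfFin h).injective μ
  rw [← mp.map_eq, integral_map mp.measurable.aemeasurable
    (meas_bp hMs n univ).aestronglyMeasurable]
  refine integral_congr_ae (Filter.Eventually.of_forall fun Y => ?_)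
  simp only
  rw [hRe N n T h Y]

end IIi

/-- INDEPENDENT POINTS. -/
theorem pr_Ii (hFi : St_Fi) (hMp : St_Mp) (hGe : St_Ge) (hMs : St_Ms) (hRe : St_Re) :
    St_Ii := by
  intro k μ _ hμ
  refine ⟨IIi.int_bp hMs _ _ μ, ?_⟩
  set I : ℝ := ∫ X : Fin (2 * k + 2) → ℝ × ℝ, ((bisPairs X univ).card : ℝ)
    ∂(Measure.pi fun _ => μ) with hI
  have h1 : ∑ T ∈ powersetCard (2 * k + 2) (univ : Finset (Fin (2 * k + (2 * k + 2) + 2))),
      ∫ Y : Fin (2 * k + (2 * k + 2) + 2) → ℝ × ℝ, ((bisPairs Y T).card : ℝ)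
        ∂(Measure.pi fun _ => μ) =
      (((2 * k + 2 + (2 * k + 2)).choose (2 * k + 2) : ℕ) : ℝ) * I := by
    rw [Finset.sum_congr rfl (fun T hT => IIi.exp_eq hMp hMs hRe _ (2 * k + 2) T
      (Finset.mem_powersetCard.1 hT).2 μ), Finset.sum_const, Finset.card_powersetCard,
      nsmul_eq_mul, Finset.card_univ, Fintype.card_fin]
    have : 2 * k + (2 * k + 2) + 2 = 2 * k + 2 + (2 * k + 2) := by ring
    rw [this]
  rw [← integral_finsetSum _ (fun T _ => IIi.int_bp hMs _ T μ)] at h1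
  have h2 : ∫ Y : Fin (2 * k + (2 * k + 2) + 2) → ℝ × ℝ,
      ∑ T ∈ powersetCard (2 * k + 2) (univ : Finset (Fin (2 * k + (2 * k + 2) + 2))),
        ((bisPairs Y T).card : ℝ) ∂(Measure.pi fun _ => μ) ≤
      ∫ _Y : Fin (2 * k + (2 * k + 2) + 2) → ℝ × ℝ,
        (52 * ((2 * k + 2 : ℕ) : ℝ) ^ ((4 : ℝ) / 3) *
        ((min (2 * k + 2) (2 * k + 2) : ℕ) : ℝ) ^ (-(1 : ℝ) / 6) *
        ((2 * k + 2 + (2 * k + 2)).choose (2 * k + 2) : ℕ)) ∂(Measure.pi fun _ => μ) := by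
    refine integral_mono_ae (integrable_finsetSum _ (fun T _ => IIi.int_bp hMs _ T μ))
      (integrable_const _) ?_
    filter_upwards [hGe (2 * k + (2 * k + 2) + 2) μ hμ] with Y hY
    exact hFi k (2 * k + 2) (by omega) Y hY
  rw [h1, integral_const] at h2
  simp only [probReal_univ, one_smul, min_self] at h2
  have hc : (0 : ℝ) < (((2 * k + 2 + (2 * k + 2)).choose (2 * k + 2) : ℕ) : ℝ) := by
    exact_mod_cast Nat.choose_pos (by omega)
  have hn : (0 : ℝ) < ((2 * k + 2 : ℕ) : ℝ) := by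
    exact_mod_cast Nat.succ_pos _
  have h3 : I ≤ 52 * ((2 * k + 2 : ℕ) : ℝ) ^ ((4 : ℝ) / 3) *
      ((2 * k + 2 : ℕ) : ℝ) ^ (-(1 : ℝ) / 6) := by
    have h4 : I * (((2 * k + 2 + (2 * k + 2)).choose (2 * k + 2) : ℕ) : ℝ) ≤
        (52 * ((2 * k + 2 : ℕ) : ℝ) ^ ((4 : ℝ) / 3) *
        ((2 * k + 2 : ℕ) : ℝ) ^ (-(1 : ℝ) / 6)) *
        (((2 * k + 2 + (2 * k + 2)).choose (2 * k + 2) : ℕ) : ℝ) := by
      rw [mul_comm I]
      exact h2
    exact le_of_mul_le_mul_right h4 hc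
  refine h3.trans (le_of_eq ?_)
  rw [mul_assoc, ← Real.rpow_add hn]
  norm_num

end Pool.Agent.Work.MP_e17eac_co.RP
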