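import Pool.Agent.Work.MP_e17eac_co.RP.Stmts
import Pool.Agent.Work.MP_e17eac_co.Bd.B16

/-!
# Block RP, item Lv: several levels
-/

set_option autoImplicit false

namespace Pool.Agent.Work.MP_e17eac_co.RP

open Finset MeasureTheory

namespace ILv

open Pool.Agent.Work.MP_e17eac_co.DH
open Pool.Agent.Work.MP_e17eac_co.DH.XSWEEP (EE cnt cm)

theorem mdey : PS.StMDey := PS.I_MDey PS.I_SweepAll.1 PS.I_Cinj2 PS.I_CrlP

/-- the real number part -/
theorem num (N r s : ℕ) (hN : 1 ≤ N) (h0 : r = 0 → s = 0)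
    (h : 8 * N ≤ s → s ^ 3 ≤ 512 * N ^ 4 * (2 * r) ^ 2) :
    (s : ℝ) ≤ 13 * (N : ℝ) ^ ((4 : ℝ) / 3) * (r : ℝ) ^ ((2 : ℝ) / 3) := by
  rcases Nat.eq_zero_or_pos r with hr | hr
  · rw [h0 hr]
    have : (0 : ℝ) ≤ 13 * (N : ℝ) ^ ((4 : ℝ) / 3) * (r : ℝ) ^ ((2 : ℝ) / 3) := by positivity
    simpa using this
  have hcube : s ^ 3 ≤ 2197 * N ^ 4 * r ^ 2 := by
    rcases le_or_gt (8 * N) s with h8 | h8
    · refine (h h8).trans ?_
      have : 512 * N ^ 4 * (2 * r) ^ 2 = 2048 * (N ^ 4 * r ^ 2) := by ring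
      rw [this, mul_assoc]
      exact Nat.mul_le_mul_right _ (by norm_num)
    · have h1 : s ^ 3 ≤ (8 * N) ^ 3 := Nat.pow_le_pow_left h8.le 3
      refine h1.trans ?_
      have h2 : (8 * N) ^ 3 = 512 * N ^ 3 * 1 := by ring
      rw [h2]
      have h3 : N ^ 3 ≤ N ^ 4 := Nat.pow_le_pow_right hN (by norm_num)
      have h4 : 1 ≤ r ^ 2 := Nat.one_le_pow _ _ hr
      exact Nat.mul_le_mul (Nat.mul_le_mul (by norm_num) h3) h4
  have hc : ((s : ℝ)) ^ 3 ≤ (13 * (N : ℝ) ^ ((4 : ℝ) / 3) * (r : ℝ) ^ ((2 : ℝ) / 3)) ^ 3 := by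
    have e1 : ((N : ℝ) ^ ((4 : ℝ) / 3)) ^ 3 = (N : ℝ) ^ 4 := by
      rw [← Real.rpow_natCast, ← Real.rpow_mul (Nat.cast_nonneg _), ← Real.rpow_natCast]
      norm_num
    have e2 : ((r : ℝ) ^ ((2 : ℝ) / 3)) ^ 3 = (r : ℝ) ^ 2 := by
      rw [← Real.rpow_natCast, ← Real.rpow_mul (Nat.cast_nonneg _), ← Real.rpow_natCast]
      norm_num
    rw [mul_pow, mul_pow, e1, e2]
    have : ((s ^ 3 : ℕ) : ℝ) ≤ ((2197 * N ^ 4 * r ^ 2 : ℕ) : ℝ) := by exact_mod_cast hcube
    push_cast at this
    linarith
  exact le_of_pow_le_pow_left₀ (by norm_num) (by positivity) hc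

theorem side_swap (p q r : ℝ × ℝ) : side q p r = - side p q r := by
  unfold side
  ring

theorem side_self (p r : ℝ × ℝ) : side p p r = 0 := by
  unfold side
  ring

theorem side_left (p q : ℝ × ℝ) : side p q p = 0 := by
  unfold side
  ring

theorem side_right (p q : ℝ × ℝ) : side p q q = 0 := by
  unfold side
  ring

/-- there is a third index -/
theorem third {N : ℕ} (hN : 3 ≤ N) (i j : Fin N) : ∃ l : Fin N, l ≠ i ∧ l ≠ j := by
  classical
  have h1 : (({i, j} : Finset (Fin N))).card < (univ : Finset (Fin N)).card := by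
    rw [Finset.card_univ, Fintype.card_fin]
    exact lt_of_le_of_lt Finset.card_le_two (by omega)
  obtain ⟨l, -, hl⟩ := Finset.exists_mem_notMem_of_card_lt_card h1
  refine ⟨l, ?_, ?_⟩
  · rintro rfl
    exact hl (by simp)
  · rintro rfl
    exact hl (by simp)

theorem inj {N : ℕ} (hN : 3 ≤ N) (x : Fin N → ℝ × ℝ) (hx : GP x) : Function.Injective x := by
  intro i j h
  by_contra hne
  obtain ⟨l, hl1, hl2⟩ := third hN i j
  apply hx i j l hne hl1.symm hl2.symm
  rw [h]
  exact side_self _ _

/-- A shear with distinct abscissae exists. -/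
theorem shear {N : ℕ} (x : Fin N → ℝ × ℝ) (hx : Function.Injective x) : ∃ ε : ℝ, ∀ i j, i ≠ j →
    (x i).1 + ε * (x i).2 ≠ (x j).1 + ε * (x j).2 := by
  classical
  obtain ⟨ε, hε⟩ := Set.Infinite.exists_notMem_finset (Set.infinite_univ (α := ℝ))
    ((univ : Finset (Fin N × Fin N)).image
      fun e => ((x e.1).1 - (x e.2).1) / ((x e.2).2 - (x e.1).2))
  refine ⟨ε, ?_⟩
  intro i j hij h
  apply hε.2
  rw [Finset.mem_image]
  refine ⟨(i, j), Finset.mem_univ _, ?_⟩
  have h1 : (x i).1 - (x j).1 = ε * ((x j).2 - (x i).2) := by linarith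
  have h2 : (x j).2 - (x i).2 ≠ 0 := by
    intro h3
    rw [h3, mul_zero] at h1
    exact hij (hx (Prod.ext (by linarith) (by linarith)))
  show ((x i).1 - (x j).1) / ((x j).2 - (x i).2) = ε
  rw [h1]
  field_simp

open Classical in
/-- every other point is on one of the two sides -/
theorem part {N : ℕ} (x : Fin N → ℝ × ℝ) (hx : GP x) (i j : Fin N) (hij : i ≠ j) :
    lev x i j + (univ.filter fun l => side (x i) (x j) (x l) < 0).card + 2 = N := by
  unfold lev
  have h1 : Disjoint (univ.filter fun l => 0 < side (x i) (x j) (x l))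
      (univ.filter fun l => side (x i) (x j) (x l) < 0) := by
    rw [Finset.disjoint_left]
    intro l h h'
    rw [Finset.mem_filter] at h h'
    linarith [h.2, h'.2]
  have h2 : Disjoint ((univ.filter fun l => 0 < side (x i) (x j) (x l)) ∪
      (univ.filter fun l => side (x i) (x j) (x l) < 0)) ({i, j} : Finset (Fin N)) := by
    rw [Finset.disjoint_left]
    intro l h h'
    rw [Finset.mem_union, Finset.mem_filter, Finset.mem_filter] at h
    rw [Finset.mem_insert, Finset.mem_singleton] at h'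
    rcases h' with rfl | rfl
    · rw [side_left] at h
      rcases h with h | h <;> exact lt_irrefl _ h.2
    · rw [side_right] at h
      rcases h with h | h <;> exact lt_irrefl _ h.2
  have h3 : ((univ.filter fun l => 0 < side (x i) (x j) (x l)) ∪
      (univ.filter fun l => side (x i) (x j) (x l) < 0)) ∪ ({i, j} : Finset (Fin N)) = univ := by
    apply Finset.eq_univ_of_forall
    intro l
    rw [Finset.mem_union, Finset.mem_union, Finset.mem_filter, Finset.mem_filter,
      Finset.mem_insert, Finset.mem_singleton]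
    by_cases hli : l = i
    · exact Or.inr (Or.inl hli)
    by_cases hlj : l = j
    · exact Or.inr (Or.inr hlj)
    left
    rcases lt_or_gt_of_ne (hx i j l hij (Ne.symm hli) (Ne.symm hlj)) with h | h
    · exact Or.inr ⟨Finset.mem_univ _, h⟩
    · exact Or.inl ⟨Finset.mem_univ _, h⟩
  have h4 := congrArg Finset.card h3
  rw [Finset.card_union_of_disjoint h2, Finset.card_union_of_disjoint h1, Finset.card_pair hij,
    Finset.card_univ, Fintype.card_fin] at h4
  exact h4

/-- coordinates for the sweep -/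
theorem coord {N : ℕ} (hN : 3 ≤ N) (x : Fin N → ℝ × ℝ) (hx : GP x) :
    ∃ (X Y : Fin N → ℝ) (u : ℝ), 0 < u ∧ (∀ i, 0 ≤ X i ∧ X i ≤ 1) ∧ Function.Injective X ∧
      ∀ i j l, (X j - X i) * (Y l - Y i) - (Y j - Y i) * (X l - X i) =
        side (x i) (x j) (x l) / u := by
  classical
  obtain ⟨ε, hε⟩ := shear x (inj hN x hx)
  have hne : (univ : Finset (Fin N)).Nonempty := ⟨⟨0, by omega⟩, Finset.mem_univ _⟩
  obtain ⟨i0, -, hmin⟩ := Finset.exists_min_image univ
    (fun i : Fin N => (x i).1 + ε * (x i).2) hne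
  obtain ⟨i1, -, hmax⟩ := Finset.exists_max_image univ
    (fun i : Fin N => (x i).1 + ε * (x i).2) hne
  set z : Fin N → ℝ := fun i => (x i).1 + ε * (x i).2 with hz
  set u : ℝ := z i1 - z i0 + 1 with hu
  have hu0 : 0 < u := by
    have := hmin i1 (Finset.mem_univ _)
    have h' : z i0 ≤ z i1 := this
    rw [hu]
    linarith
  refine ⟨fun i => (z i - z i0) / u, fun i => (x i).2, u, hu0, ?_, ?_, ?_⟩
  · intro i
    have h1 : z i0 ≤ z i := hmin i (Finset.mem_univ _)
    have h2 : z i ≤ z i1 := hmax i (Finset.mem_univ _)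
    constructor
    · exact div_nonneg (by linarith) hu0.le
    · show (z i - z i0) / u ≤ 1
      rw [div_le_one hu0, hu]
      linarith
  · intro i j h
    by_contra hne
    apply hε i j hne
    have h' : (z i - z i0) / u = (z j - z i0) / u := h
    have h'' := (div_left_inj' hu0.ne').1 h'
    show z i = z j
    linarith
  · intro i j l
    show ((z j - z i0) / u - (z i - z i0) / u) * ((x l).2 - (x i).2) -
      ((x j).2 - (x i).2) * ((z l - z i0) / u - (z i - z i0) / u) = _
    simp only [hz]
    unfold side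
    field_simp
    ring

open Classical in
/-- the number of lines below is the number of points on the right -/
theorem cnt_eq {N : ℕ} (x : Fin N → ℝ × ℝ) (X Y : Fin N → ℝ) (u : ℝ) (hu : 0 < u)
    (hd : ∀ i j l, (X j - X i) * (Y l - Y i) - (Y j - Y i) * (X l - X i) =
        side (x i) (x j) (x l) / u) (i j : Fin N) (hij : X i < X j) :
    cnt X Y i j = (univ.filter fun l => side (x i) (x j) (x l) < 0).card := by
  unfold cnt
  congr 1
  apply Finset.filter_congr
  intro l _
  unfold XSWEEP.ht cm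
  have hD : 0 < X j - X i := by linarith
  have h1 := hd i j l
  have h2 : side (x i) (x j) (x l) < 0 ↔ side (x i) (x j) (x l) / u < 0 := by
    rw [div_neg_iff]
    constructor
    · intro h
      exact Or.inr ⟨h, hu⟩
    · rintro (⟨-, h⟩ | ⟨h, -⟩)
      · linarith
      · exact h
  rw [h2, ← h1]
  have h3 : (Y l + X l * ((Y i - Y j) / (X j - X i)) - (Y i + X i * ((Y i - Y j) / (X j - X i)))) *
      (X j - X i) = (X j - X i) * (Y l - Y i) - (Y j - Y i) * (X l - X i) := by
    field_simp
    ring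
  rw [← h3]
  constructor
  · intro h
    exact mul_neg_of_neg_of_pos (by linarith) hD
  · intro h
    have := neg_of_mul_neg_left h hD.le
    linarith

end ILv

open Classical in
theorem pr_Lv : St_Lv := by
  intro N x hN hx R
  obtain ⟨X, Y, u, hu, h01, hinj, hd⟩ := ILv.coord hN x hx
  have hgp : DH.XSWEEP.GP X Y := by
    intro i j l hij hil hjl h
    have h1 := hd i j l
    rw [h, sub_self] at h1
    rcases div_eq_zero_iff.1 h1.symm with h2 | h2
    · exact hx i j l hij hil hjl h2
    · exact hu.ne' h2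
  set R' : Finset ℕ := R ∪ R.image (fun r => N - 2 - r) with hR'
  have hRc : R'.card ≤ 2 * R.card := by
    refine (Finset.card_union_le _ _).trans ?_
    have := Finset.card_image_le (s := R) (f := fun r => N - 2 - r)
    omega
  set s : ℕ := ∑ r ∈ R', (DH.XSWEEP.EE X Y r).card with hs
  have hm := ILv.mdey (Fin N) X Y h01 hinj hgp R'
  rw [Fintype.card_fin] at hm
  have hnum := ILv.num N R.card s (by omega) (by
    intro h0
    have : R = ∅ := Finset.card_eq_zero.1 h0
    rw [hs, hR', this]
    simp) (by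
    intro h8
    refine (hm h8).trans ?_
    exact Nat.mul_le_mul_left _ (Nat.pow_le_pow_left hRc 2))
  refine le_trans ?_ hnum
  norm_cast
  -- the map
  have hswap : ∀ i j : Fin N, (univ.filter fun l => side (x j) (x i) (x l) < 0).card =
      lev x i j := by
    intro i j
    unfold lev
    congr 1
    apply Finset.filter_congr
    intro l _
    rw [ILv.side_swap (x i) (x j) (x l)]
    constructor <;> intro h <;> linarith
  have hmem : ∀ e ∈ (univ : Finset (Fin N × Fin N)).filter
      (fun e => e.1 < e.2 ∧ lev x e.1 e.2 ∈ R),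
      (if X e.1 < X e.2 then e else (e.2, e.1)) ∈ R'.biUnion (DH.XSWEEP.EE X Y) := by
    intro e he
    rw [Finset.mem_filter] at he
    obtain ⟨-, hlt, hR⟩ := he
    rw [Finset.mem_biUnion]
    by_cases h : X e.1 < X e.2
    · rw [if_pos h]
      refine ⟨N - 2 - lev x e.1 e.2, ?_, ?_⟩
      · rw [hR', Finset.mem_union]
        exact Or.inr (Finset.mem_image.2 ⟨_, hR, rfl⟩)
      · rw [DH.XSWEEP.mem_EE]
        refine ⟨h, ?_⟩
        rw [ILv.cnt_eq x X Y u hu hd e.1 e.2 h]
        have := ILv.part x hx e.1 e.2 hlt.ne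
        omega
    · rw [if_neg h]
      have h' : X e.2 < X e.1 :=
        lt_of_le_of_ne (not_lt.1 h) (fun h'' => hlt.ne' (hinj h''))
      refine ⟨lev x e.1 e.2, ?_, ?_⟩
      · rw [hR', Finset.mem_union]
        exact Or.inl hR
      · rw [DH.XSWEEP.mem_EE]
        refine ⟨h', ?_⟩
        show DH.XSWEEP.cnt X Y e.2 e.1 = _
        rw [ILv.cnt_eq x X Y u hu hd e.2 e.1 h', hswap]
  have hcard : ((univ : Finset (Fin N × Fin N)).filter
      (fun e => e.1 < e.2 ∧ lev x e.1 e.2 ∈ R)).card ≤ (R'.biUnion (DH.XSWEEP.EE X Y)).card := by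
    apply Finset.card_le_card_of_injOn
      (fun e : Fin N × Fin N => if X e.1 < X e.2 then e else (e.2, e.1))
    · intro e he
      exact hmem e he
    · intro e he e' he' h
      have h1 := (Finset.mem_filter.1 he).2.1
      have h2 := (Finset.mem_filter.1 he').2.1
      simp only at h
      split_ifs at h with h3 h4 h4
      · exact h
      · exfalso
        have a1 := congrArg Prod.fst h
        have a2 := congrArg Prod.snd h
        simp only at a1 a2
        rw [a1, a2] at h1
        exact lt_asymm h1 h2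
      · exfalso
        have a1 := congrArg Prod.fst h
        have a2 := congrArg Prod.snd h
        simp only at a1 a2
        rw [← a1, ← a2] at h2
        exact lt_asymm h1 h2
      · have a1 := congrArg Prod.fst h
        have a2 := congrArg Prod.snd h
        simp only at a1 a2
        exact Prod.ext a2 a1
  exact hcard.trans Finset.card_biUnion_le

end Pool.Agent.Work.MP_e17eac_co.RP
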