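import Pool.Agent.Work.MP_e17eac_co.RP.Stmts

/-! Item Ms: the number of bisecting pairs is a measurable function of the points. -/

set_option autoImplicit false

namespace Pool.Agent.Work.MP_e17eac_co.RP

open Finset MeasureTheory

namespace IMs

theorem meas_side {N : ℕ} (i j l : Fin N) :
    Measurable fun X : Fin N → ℝ × ℝ => side (X i) (X j) (X l) := by
  unfold side
  fun_prop

/-- Counting functions of measurable conditions are measurable. -/
theorem meas_card {α β : Type} [MeasurableSpace β] (T : Finset α) (P : α → β → Prop)
    [inst : ∀ X, DecidablePred fun l => P l X] (hP : ∀ l, MeasurableSet {X | P l X}) :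
    Measurable fun X : β => (T.filter fun l => P l X).card := by
  simp only [Finset.card_filter]
  refine Finset.measurable_sum _ fun l _ => ?_
  exact Measurable.ite (hP l) measurable_const measurable_const

end IMs

theorem pr_Ms : St_Ms := by
  intro N T
  unfold bisPairs
  refine IMs.meas_card (T ×ˢ T) _ fun e => ?_
  have h1 : MeasurableSet {X : Fin N → ℝ × ℝ | e.1 < e.2} := by
    exact MeasurableSet.const _
  have h2 : ∀ l, MeasurableSet {X : Fin N → ℝ × ℝ | 0 < side (X e.1) (X e.2) (X l)} := fun l =>
    measurableSet_lt measurable_const (IMs.meas_side e.1 e.2 l)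
  have h3 : ∀ l, MeasurableSet {X : Fin N → ℝ × ℝ | side (X e.1) (X e.2) (X l) < 0} := fun l =>
    measurableSet_lt (IMs.meas_side e.1 e.2 l) measurable_const
  refine h1.inter (MeasurableSet.inter ?_ ?_)
  · exact measurableSet_eq_fun
      (((IMs.meas_card T _ h2).add_const 1).const_mul 2) measurable_const
  · exact measurableSet_eq_fun
      (((IMs.meas_card T _ h3).add_const 1).const_mul 2) measurable_const

end Pool.Agent.Work.MP_e17eac_co.RP
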