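import Pool.Agent.Work.MP_e17eac_co.RP.Stmts2

/-!
# Block RP, item Rf: reindexing of the directed edges (variant of item Re)
-/

set_option autoImplicit false

namespace Pool.Agent.Work.MP_e17eac_co.RP

open Finset

namespace IRf

/-- Counting along the increasing enumeration. -/
theorem cnt {N n : ℕ} (T : Finset (Fin N)) (h : T.card = n) (p : Fin N → Prop)
    [DecidablePred p] [DecidablePred fun i : Fin n => p (T.orderEmbOfFin h i)] :
    ((univ : Finset (Fin n)).filter fun i => p (T.orderEmbOfFin h i)).card =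
      (T.filter p).card := by
  have h1 : (T.filter p) =
      ((univ : Finset (Fin n)).filter fun i => p (T.orderEmbOfFin h i)).map
        (T.orderEmbOfFin h).toEmbedding := by
    ext l
    simp only [mem_filter, mem_map, mem_univ, true_and]
    constructor
    · rintro ⟨hl, hp⟩
      have h2 : l ∈ (univ : Finset (Fin n)).map (T.orderEmbOfFin h).toEmbedding := by
        rw [map_orderEmbOfFin_univ]; exact hl
      obtain ⟨i, -, hi⟩ := mem_map.mp h2
      have hi' : T.orderEmbOfFin h i = l := hi
      exact ⟨i, by rw [hi']; exact hp, hi⟩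
    · rintro ⟨i, hp, hi⟩
      have hi' : T.orderEmbOfFin h i = l := hi
      subst hi'
      exact ⟨orderEmbOfFin_mem T h i, hp⟩
  rw [h1, card_map]

end IRf

theorem pr_Rf : St_Rf := by
  classical
  intro N n k T h X
  have c1 : ∀ i j : Fin n,
      ((univ : Finset (Fin n)).filter fun l => 0 < side (X (T.orderEmbOfFin h i))
        (X (T.orderEmbOfFin h j)) (X (T.orderEmbOfFin h l))).card =
      (T.filter fun l => 0 < side (X (T.orderEmbOfFin h i))
        (X (T.orderEmbOfFin h j)) (X l)).card := fun i j =>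
    IRf.cnt T h (fun l => 0 < side (X (T.orderEmbOfFin h i)) (X (T.orderEmbOfFin h j)) (X l))
  unfold ke
  refine card_bij (fun e _ => (T.orderEmbOfFin h e.1, T.orderEmbOfFin h e.2)) ?_ ?_ ?_
  · rintro ⟨i, j⟩ he
    rw [mem_filter] at he ⊢
    obtain ⟨-, hij, h1⟩ := he
    refine ⟨mem_product.mpr ⟨orderEmbOfFin_mem T h i, orderEmbOfFin_mem T h j⟩,
      fun e => hij ((T.orderEmbOfFin h).injective e), ?_⟩
    have a := c1 i j
    dsimp only at h1 ⊢
    simp only [a] at h1
    exact h1
  · rintro ⟨i, j⟩ _ ⟨i', j'⟩ _ hh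
    have h1 : i = i' := (T.orderEmbOfFin h).injective (Prod.mk.inj hh).1
    have h2 : j = j' := (T.orderEmbOfFin h).injective (Prod.mk.inj hh).2
    rw [h1, h2]
  · rintro ⟨a, b⟩ he
    rw [mem_filter] at he
    obtain ⟨hab, hlt, h1⟩ := he
    rw [mem_product] at hab
    have ha : a ∈ (univ : Finset (Fin n)).map (T.orderEmbOfFin h).toEmbedding := by
      rw [map_orderEmbOfFin_univ]; exact hab.1
    have hb : b ∈ (univ : Finset (Fin n)).map (T.orderEmbOfFin h).toEmbedding := by
      rw [map_orderEmbOfFin_univ]; exact hab.2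
    obtain ⟨i, -, hi⟩ := mem_map.mp ha
    obtain ⟨j, -, hj⟩ := mem_map.mp hb
    have hi' : T.orderEmbOfFin h i = a := hi
    have hj' : T.orderEmbOfFin h j = b := hj
    subst hi' hj'
    refine ⟨(i, j), ?_, rfl⟩
    rw [mem_filter]
    refine ⟨mem_product.mpr ⟨mem_univ _, mem_univ _⟩, fun e => hlt (congrArg (T.orderEmbOfFin h) e), ?_⟩
    have a := c1 i j
    dsimp only at h1 ⊢
    simp only [a]
    exact h1

end Pool.Agent.Work.MP_e17eac_co.RP
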