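import Pool.Agent.Work.MP_e17eac_co.RP.Stmts

/-!
# Block RP, item Rs: the pure estimate (helper82)
-/

set_option autoImplicit false

namespace Pool.Agent.Work.MP_e17eac_co.RP

open Finset MeasureTheory

namespace IRs

/-- the estimate with real numbers -/
theorem main (N n B C0 Z Q m : ℝ) (hN : 0 < N) (hn : 0 < n) (hB : 0 < B)
    (hC0 : 0 ≤ C0) (hQ : 0 ≤ Q) (hm : 0 < m) (hZ : Z = n / N * B)
    (hC : C0 ≤ (n / N) ^ (2 : ℕ) * B) (hQm : Q * m ≤ 64) :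
    2 * (13 * N ^ ((4 : ℝ) / 3)) * (Real.sqrt Q * C0) ^ ((1 : ℝ) / 3) * Z ^ ((2 : ℝ) / 3) ≤
      52 * n ^ ((4 : ℝ) / 3) * m ^ (-(1 : ℝ) / 6) * B := by
  have hr : 0 < n / N := by positivity
  have h1 : (Real.sqrt Q * C0) ^ ((1 : ℝ) / 3) ≤
      Q ^ ((1 : ℝ) / 6) * (n / N) ^ ((2 : ℝ) / 3) * B ^ ((1 : ℝ) / 3) := by
    calc (Real.sqrt Q * C0) ^ ((1 : ℝ) / 3) ≤
          (Real.sqrt Q * ((n / N) ^ (2 : ℕ) * B)) ^ ((1 : ℝ) / 3) :=
          Real.rpow_le_rpow (by positivity)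
            (mul_le_mul_of_nonneg_left hC (Real.sqrt_nonneg _)) (by norm_num)
      _ = (Real.sqrt Q) ^ ((1 : ℝ) / 3) * (((n / N) ^ (2 : ℕ)) ^ ((1 : ℝ) / 3) *
            B ^ ((1 : ℝ) / 3)) := by
          rw [Real.mul_rpow (Real.sqrt_nonneg _) (by positivity),
            Real.mul_rpow (by positivity) hB.le]
      _ = Q ^ ((1 : ℝ) / 6) * (n / N) ^ ((2 : ℝ) / 3) * B ^ ((1 : ℝ) / 3) := by
          rw [Real.sqrt_eq_rpow, ← Real.rpow_mul hQ, ← Real.rpow_natCast (n / N) 2,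
            ← Real.rpow_mul hr.le, mul_assoc]
          norm_num
  have h2 : Z ^ ((2 : ℝ) / 3) = (n / N) ^ ((2 : ℝ) / 3) * B ^ ((2 : ℝ) / 3) := by
    rw [hZ, Real.mul_rpow hr.le hB.le]
  have h3 : Q ^ ((1 : ℝ) / 6) ≤ 2 * m ^ (-(1 : ℝ) / 6) := by
    have e1 : Q ≤ 64 * m⁻¹ := by
      rw [← div_eq_mul_inv, le_div_iff₀ hm]
      exact hQm
    calc Q ^ ((1 : ℝ) / 6) ≤ (64 * m⁻¹) ^ ((1 : ℝ) / 6) :=
          Real.rpow_le_rpow hQ e1 (by norm_num)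
      _ = (64 : ℝ) ^ ((1 : ℝ) / 6) * (m⁻¹) ^ ((1 : ℝ) / 6) :=
          Real.mul_rpow (by norm_num) (by positivity)
      _ = 2 * m ^ (-(1 : ℝ) / 6) := by
          congr 1
          · rw [show (64 : ℝ) = 2 ^ (6 : ℝ) by norm_num, ← Real.rpow_mul (by norm_num)]
            norm_num
          · rw [Real.inv_rpow hm.le, ← Real.rpow_neg hm.le]
            congr 1
            norm_num
  have h4 : N ^ ((4 : ℝ) / 3) * ((n / N) ^ ((2 : ℝ) / 3) * (n / N) ^ ((2 : ℝ) / 3)) =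
      n ^ ((4 : ℝ) / 3) := by
    rw [← Real.rpow_add hr, show (2 : ℝ) / 3 + 2 / 3 = 4 / 3 by norm_num,
      ← Real.mul_rpow hN.le hr.le, mul_div_cancel₀ _ hN.ne']
  have h5 : B ^ ((1 : ℝ) / 3) * B ^ ((2 : ℝ) / 3) = B := by
    rw [← Real.rpow_add hB]
    norm_num
  calc 2 * (13 * N ^ ((4 : ℝ) / 3)) * (Real.sqrt Q * C0) ^ ((1 : ℝ) / 3) * Z ^ ((2 : ℝ) / 3)
      ≤ 2 * (13 * N ^ ((4 : ℝ) / 3)) *
          (Q ^ ((1 : ℝ) / 6) * (n / N) ^ ((2 : ℝ) / 3) * B ^ ((1 : ℝ) / 3)) *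
          ((n / N) ^ ((2 : ℝ) / 3) * B ^ ((2 : ℝ) / 3)) := by
        rw [h2]
        exact mul_le_mul_of_nonneg_right (mul_le_mul_of_nonneg_left h1 (by positivity))
          (by positivity)
    _ = 26 * Q ^ ((1 : ℝ) / 6) *
          (N ^ ((4 : ℝ) / 3) * ((n / N) ^ ((2 : ℝ) / 3) * (n / N) ^ ((2 : ℝ) / 3))) *
          (B ^ ((1 : ℝ) / 3) * B ^ ((2 : ℝ) / 3)) := by ring
    _ = 26 * Q ^ ((1 : ℝ) / 6) * n ^ ((4 : ℝ) / 3) * B := by rw [h4, h5]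
    _ ≤ 26 * (2 * m ^ (-(1 : ℝ) / 6)) * n ^ ((4 : ℝ) / 3) * B := by
        refine mul_le_mul_of_nonneg_right (mul_le_mul_of_nonneg_right
          (mul_le_mul_of_nonneg_left h3 (by norm_num)) (by positivity)) hB.le
    _ = 52 * n ^ ((4 : ℝ) / 3) * m ^ (-(1 : ℝ) / 6) * B := by ring

end IRs

/-- Rs -/
theorem pr_Rs : St_Rs := by
  intro k d hk hd
  have hk' : (1 : ℝ) ≤ k := by exact_mod_cast hk
  have hd' : (1 : ℝ) ≤ d := by exact_mod_cast hd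
  have e0 : 2 * k + 2 + d = 2 * k + d + 1 + 1 := by ring
  have e1 : (2 * k + d + 1 + 1) * (2 * k + d + 1).choose (2 * k + 1) =
      (2 * k + 2 + d).choose (2 * k + 2) * (2 * k + 2) := by
    have h := Nat.add_one_mul_choose_eq (2 * k + d + 1) (2 * k + 1)
    rw [e0]
    exact h
  have e2 : (2 * k + d + 1) * (2 * k + d).choose (2 * k) =
      (2 * k + d + 1).choose (2 * k + 1) * (2 * k + 1) :=
    Nat.add_one_mul_choose_eq (2 * k + d) (2 * k)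
  have e3 : ((2 * k + 2 + d : ℕ) : ℝ) * (((2 * k + d + 1).choose (2 * k + 1) : ℕ) : ℝ) =
      (((2 * k + 2 + d).choose (2 * k + 2) : ℕ) : ℝ) * ((2 * k + 2 : ℕ) : ℝ) := by
    rw [← e0] at e1
    exact_mod_cast e1
  have e4 : ((2 * k + d + 1 : ℕ) : ℝ) * (((2 * k + d).choose (2 * k) : ℕ) : ℝ) =
      (((2 * k + d + 1).choose (2 * k + 1) : ℕ) : ℝ) * ((2 * k + 1 : ℕ) : ℝ) := by
    exact_mod_cast e2
  have hB : (0 : ℝ) < (((2 * k + 2 + d).choose (2 * k + 2) : ℕ) : ℝ) := by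
    exact_mod_cast Nat.choose_pos (by omega)
  have hN : (0 : ℝ) < ((2 * k + 2 + d : ℕ) : ℝ) := by positivity
  have hn : (0 : ℝ) < ((2 * k + 2 : ℕ) : ℝ) := by positivity
  have hZ0 : (0 : ℝ) ≤ (((2 * k + d + 1).choose (2 * k + 1) : ℕ) : ℝ) := Nat.cast_nonneg _
  have hm : (0 : ℝ) < ((min (2 * k + 2) d : ℕ) : ℝ) := by
    have : 0 < min (2 * k + 2) d := by omega
    exact_mod_cast this
  have hZ : (((2 * k + d + 1).choose (2 * k + 1) : ℕ) : ℝ) =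
      ((2 * k + 2 : ℕ) : ℝ) / ((2 * k + 2 + d : ℕ) : ℝ) *
        (((2 * k + 2 + d).choose (2 * k + 2) : ℕ) : ℝ) := by
    rw [div_mul_eq_mul_div, eq_div_iff hN.ne']
    linarith
  have hM : (0 : ℝ) < ((2 * k + d + 1 : ℕ) : ℝ) := by positivity
  have hC : (((2 * k + d).choose (2 * k) : ℕ) : ℝ) ≤
      (((2 * k + 2 : ℕ) : ℝ) / ((2 * k + 2 + d : ℕ) : ℝ)) ^ (2 : ℕ) *
        (((2 * k + 2 + d).choose (2 * k + 2) : ℕ) : ℝ) := by
    have f1 : (((2 * k + d).choose (2 * k) : ℕ) : ℝ) =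
        ((2 * k + 1 : ℕ) : ℝ) / ((2 * k + d + 1 : ℕ) : ℝ) *
          (((2 * k + d + 1).choose (2 * k + 1) : ℕ) : ℝ) := by
      rw [div_mul_eq_mul_div, eq_div_iff hM.ne']
      linarith
    have f2 : ((2 * k + 1 : ℕ) : ℝ) / ((2 * k + d + 1 : ℕ) : ℝ) ≤
        ((2 * k + 2 : ℕ) : ℝ) / ((2 * k + 2 + d : ℕ) : ℝ) := by
      rw [div_le_div_iff₀ hM hN]
      push_cast
      nlinarith
    rw [f1, pow_two, mul_assoc, ← hZ]
    exact mul_le_mul_of_nonneg_right f2 hZ0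
  have hQm : (2 * (2 * (k : ℝ) + d) / (k * d)) * ((min (2 * k + 2) d : ℕ) : ℝ) ≤ 64 := by
    have g1 : ((min (2 * k + 2) d : ℕ) : ℝ) ≤ d := by exact_mod_cast min_le_right _ _
    have g2 : ((min (2 * k + 2) d : ℕ) : ℝ) ≤ 4 * k := by
      have : min (2 * k + 2) d ≤ 4 * k := (min_le_left _ _).trans (by omega)
      exact_mod_cast this
    rw [div_mul_eq_mul_div, div_le_iff₀ (by positivity)]
    nlinarith [mul_le_mul_of_nonneg_left g1 (by positivity : (0 : ℝ) ≤ k),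
      mul_le_mul_of_nonneg_left g2 (by positivity : (0 : ℝ) ≤ d),
      (by positivity : (0 : ℝ) < (k : ℝ) * d)]
  exact IRs.main _ _ _ _ _ _ _ hN hn hB (Nat.cast_nonneg _) (by positivity) hm hZ hC hQm

end Pool.Agent.Work.MP_e17eac_co.RP
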