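import Pool.Agent.Work.MP_e17eac_co.RP.Stmts

set_option autoImplicit false

namespace Pool.Agent.Work.MP_e17eac_co.RP

namespace IUn

theorem choose_step (k j n : ℕ) (hk : k ≤ j) (hn : j ≤ n) :
    j.choose k * (n + 1).choose k ≤ (j + 1).choose k * n.choose k := by
  have h1 := Nat.choose_mul_succ_eq j k
  have h2 := Nat.choose_mul_succ_eq n k
  obtain ⟨s, rfl⟩ := Nat.exists_eq_add_of_le hk
  obtain ⟨t, rfl⟩ := Nat.exists_eq_add_of_le hn
  have e1 : k + s + 1 - k = s + 1 := by omega
  have e2 : k + s + t + 1 - k = s + t + 1 := by omega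
  rw [e1] at h1
  rw [e2] at h2
  have hpos : 0 < (s + 1) * (k + s + t + 1) := by positivity
  refine Nat.le_of_mul_le_mul_right ?_ hpos
  have h3 : (s + 1) * (k + s + t + 1) ≤ (k + s + 1) * (s + t + 1) := by nlinarith
  calc (k + s).choose k * (k + s + t + 1).choose k * ((s + 1) * (k + s + t + 1))
      ≤ (k + s).choose k * (k + s + t + 1).choose k * ((k + s + 1) * (s + t + 1)) :=
        Nat.mul_le_mul_left _ h3
    _ = ((k + s).choose k * (k + s + 1)) * ((k + s + t + 1).choose k * (s + t + 1)) := by ring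
    _ = ((k + s + 1).choose k * (s + 1)) * ((k + s + t).choose k * (k + s + t + 1)) := by
        rw [h1, ← h2]
    _ = (k + s + 1).choose k * (k + s + t).choose k * ((s + 1) * (k + s + t + 1)) := by ring

theorem step (k M j : ℕ) (h : 2 * j + 1 ≤ M) : w k M j ≤ w k M (j + 1) := by
  unfold w
  rcases Nat.lt_or_ge j k with hk | hk
  · rw [Nat.choose_eq_zero_of_lt hk, Nat.zero_mul]
    exact Nat.zero_le _
  · have h1 := choose_step k j (M - (j + 1)) hk (by omega)
    have e : M - (j + 1) + 1 = M - j := by omega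
    rw [e] at h1
    exact h1

theorem low (k M j : ℕ) (h : j ≤ M / 2) : w k M j ≤ w k M (M / 2) := by
  induction h using Nat.decreasingInduction with
  | self => exact le_refl _
  | of_succ i hi ih => exact le_trans (step k M i (by omega)) ih

theorem symm (k M j : ℕ) (h : j ≤ M) : w k M j = w k M (M - j) := by
  unfold w
  rw [Nat.sub_sub_self h, Nat.mul_comm]

end IUn

theorem pr_Un : St_Un := by
  intro k M j hj
  rcases Nat.lt_or_ge (M / 2) j with h | h
  · rw [IUn.symm k M j hj]
    exact IUn.low k M (M - j) (by omega)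
  · exact IUn.low k M j h

end Pool.Agent.Work.MP_e17eac_co.RP
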