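import Pool.Agent.Work.MP_e17eac_co.RP.Stmts

/-!
# Block RP, item Wt: the largest weight
-/

set_option autoImplicit false

namespace Pool.Agent.Work.MP_e17eac_co.RP

namespace IWt

open Nat

theorem multinom (k a b : ℕ) :
    ((k + a).choose k * (k + b).choose k) * (2 * k + (a + b)).choose (k + a) =
      (2 * k + (a + b)).choose (2 * k) * (2 * k).choose k * (a + b).choose a := by
  have h1 : (k + a).choose k * k ! * a ! = (k + a)! := by
    have := Nat.choose_mul_factorial_mul_factorial (n := k + a) (k := k) (by omega)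
    rwa [show k + a - k = a by omega] at this
  have h2 : (k + b).choose k * k ! * b ! = (k + b)! := by
    have := Nat.choose_mul_factorial_mul_factorial (n := k + b) (k := k) (by omega)
    rwa [show k + b - k = b by omega] at this
  have h3 : (2 * k + (a + b)).choose (k + a) * (k + a)! * (k + b)! = (2 * k + (a + b))! := by
    have := Nat.choose_mul_factorial_mul_factorial (n := 2 * k + (a + b)) (k := k + a) (by omega)
    rwa [show 2 * k + (a + b) - (k + a) = k + b by omega] at this
  have h4 : (2 * k + (a + b)).choose (2 * k) * (2 * k)! * (a + b)! = (2 * k + (a + b))! := by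
    have := Nat.choose_mul_factorial_mul_factorial (n := 2 * k + (a + b)) (k := 2 * k) (by omega)
    rwa [show 2 * k + (a + b) - (2 * k) = a + b by omega] at this
  have h5 : (2 * k).choose k * k ! * k ! = (2 * k)! := by
    have := Nat.choose_mul_factorial_mul_factorial (n := 2 * k) (k := k) (by omega)
    rwa [show 2 * k - k = k by omega] at this
  have h6 : (a + b).choose a * a ! * b ! = (a + b)! := by
    have := Nat.choose_mul_factorial_mul_factorial (n := a + b) (k := a) (by omega)
    rwa [show a + b - a = b by omega] at this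
  have hk : 0 < k ! := Nat.factorial_pos k
  have ha : 0 < a ! := Nat.factorial_pos a
  have hb : 0 < b ! := Nat.factorial_pos b
  have hpos : 0 < k ! * k ! * a ! * b ! := by positivity
  apply Nat.eq_of_mul_eq_mul_right hpos
  calc ((k + a).choose k * (k + b).choose k) * (2 * k + (a + b)).choose (k + a) *
        (k ! * k ! * a ! * b !)
      = (2 * k + (a + b)).choose (k + a) * ((k + a).choose k * k ! * a !) *
          ((k + b).choose k * k ! * b !) := by ring
    _ = (2 * k + (a + b))! := by rw [h1, h2, h3]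
    _ = (2 * k + (a + b)).choose (2 * k) * ((2 * k).choose k * k ! * k !) *
          ((a + b).choose a * a ! * b !) := by rw [h5, h6, h4]
    _ = (2 * k + (a + b)).choose (2 * k) * (2 * k).choose k * (a + b).choose a *
          (k ! * k ! * a ! * b !) := by ring

theorem main (hCb : St_Cb) (k d : ℕ) (hk : 1 ≤ k) (hd : 1 ≤ d) :
    k * d * (w k (2 * k + d) ((2 * k + d) / 2)) ^ 2 ≤
      2 * (2 * k + d) * ((2 * k + d).choose (2 * k)) ^ 2 := by
  obtain ⟨a, b, hab, ha⟩ : ∃ a b : ℕ, d = a + b ∧ a = d / 2 :=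
    ⟨d / 2, d - d / 2, by omega, rfl⟩
  have hM : (2 * k + d) / 2 = k + a := by omega
  have hM2 : 2 * k + d - (k + a) = k + b := by omega
  have hC1 := (hCb (2 * k) (by omega)).1
  have hC2 := (hCb d hd).1
  have hC3 := (hCb (2 * k + d) (by omega)).2
  rw [hM] at hC3 ⊢
  rw [show 2 * k / 2 = k by omega] at hC1
  rw [← ha] at hC2
  have hmul := multinom k a b
  rw [← hab] at hmul
  have hw : w k (2 * k + d) (k + a) = (k + a).choose k * (k + b).choose k := by
    unfold w
    rw [hM2]
  rw [hw]
  set W := (k + a).choose k * (k + b).choose k with hW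
  set X := (2 * k + d).choose (k + a) with hX
  set Y := (2 * k + d).choose (2 * k) with hY
  set U := (2 * k).choose k with hU
  set V := d.choose a with hV
  -- `2 k d W^2 4^M ≤ 4 M Y^2 4^M`
  have e1 : (2 * k * d * W ^ 2) * 4 ^ (2 * k + d) ≤
      (4 * (2 * k + d) * Y ^ 2) * 4 ^ (2 * k + d) := by
    calc (2 * k * d * W ^ 2) * 4 ^ (2 * k + d)
        ≤ (2 * k * d * W ^ 2) * (4 * (2 * k + d) * X ^ 2) := Nat.mul_le_mul_left _ hC3
      _ = 2 * k * d * (4 * (2 * k + d)) * (W * X) ^ 2 := by ring
      _ = 2 * k * d * (4 * (2 * k + d)) * (Y * U * V) ^ 2 := by rw [hmul]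
      _ = (4 * (2 * k + d) * Y ^ 2) * ((2 * k * U ^ 2) * (d * V ^ 2)) := by ring
      _ ≤ (4 * (2 * k + d) * Y ^ 2) * (4 ^ (2 * k) * 4 ^ d) :=
          Nat.mul_le_mul_left _ (Nat.mul_le_mul hC1 hC2)
      _ = (4 * (2 * k + d) * Y ^ 2) * 4 ^ (2 * k + d) := by rw [pow_add]
  have e2 := Nat.le_of_mul_le_mul_right e1 (by positivity)
  have e3 : 2 * (k * d * W ^ 2) ≤ 2 * (2 * (2 * k + d) * Y ^ 2) := by
    calc 2 * (k * d * W ^ 2) = 2 * k * d * W ^ 2 := by ring
      _ ≤ 4 * (2 * k + d) * Y ^ 2 := e2
      _ = 2 * (2 * (2 * k + d) * Y ^ 2) := by ring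
  exact Nat.le_of_mul_le_mul_left e3 (by norm_num)

end IWt

theorem pr_Wt (hCb : St_Cb) (hUn : St_Un) : St_Wt := by
  intro k d j hk hd hj
  refine le_trans ?_ (IWt.main hCb k d hk hd)
  exact Nat.mul_le_mul_left _ (Nat.pow_le_pow_left (hUn k (2 * k + d) j hj) 2)

end Pool.Agent.Work.MP_e17eac_co.RP
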