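import Pool.Agent.Work.MP_e17eac_co.PS.T2St
import Pool.Agent.Work.MP_e17eac_co.Defs

/-!
# Block RP: halving lines of random points (captain helper13)

THEOREM. (1) For every even `n ≥ 1`, `d ≥ 1` and all `n + d` points in general position the average
number of bisectors of the `n`-point subsets is at most `C n^(4/3) min(n,d)^(-1/6)`. (2) For every
probability measure on the plane without mass on lines the expected number of bisectors of `n`
independent points is at most `C n^(7/6)`.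

Every docstring is the complete proof. Item `X`: statement `St_X`, file `RP/I_X.lean`, theorem
`pr_X`, namespace as here, auxiliary lemmas in the NEW sub-namespace `IX`.
-/

set_option autoImplicit false

namespace Pool.Agent.Work.MP_e17eac_co.RP

open Finset MeasureTheory

/-- No three of the points are on a common line. -/
def GP {ι : Type} (x : ι → ℝ × ℝ) : Prop :=
  ∀ i j l, i ≠ j → i ≠ l → j ≠ l → side (x i) (x j) (x l) ≠ 0

open Classical in
/-- The number of points strictly to the left of the directed line from `x i` to `x j`. -/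
noncomputable def lev {N : ℕ} (x : Fin N → ℝ × ℝ) (i j : Fin N) : ℕ :=
  (univ.filter fun l => 0 < side (x i) (x j) (x l)).card

open Classical in
/-- The pairs `i < j` such that the line through `x i` and `x j` bisects the points `x l`, `l ∈ T`:
each of its two open sides contains exactly `|T| / 2 - 1` of them. -/
noncomputable def bisPairs {N : ℕ} (x : Fin N → ℝ × ℝ) (T : Finset (Fin N)) :
    Finset (Fin N × Fin N) :=
  (T ×ˢ T).filter fun e => e.1 < e.2 ∧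
    2 * ((T.filter fun l => 0 < side (x e.1) (x e.2) (x l)).card + 1) = T.card ∧
    2 * ((T.filter fun l => side (x e.1) (x e.2) (x l) < 0).card + 1) = T.card

/-- `w k M j = C(j, k) C(M - j, k)` -/
def w (k M j : ℕ) : ℕ := j.choose k * (M - j).choose k

/-! ## Numbers -/

/-- Cb (EASY).  CENTRAL BINOMIAL COEFFICIENTS.  Let `c a = Nat.centralBinom a`, `c (a+1) (a+1) = 2 (2a+1) c a`
(`Nat.succ_mul_centralBinom_succ`).  By induction `c a ^ 2 * (2 a + 1) ≤ 16 ^ a` (step: `4 (2a+1)(2a+3) ≤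
16 (a+1)^2`) and for `a ≥ 1` `16 ^ a ≤ 4 a c a ^ 2` (`a = 1`: `16 ≤ 16`; step: `(2a+1)^2 ≥ 4 a (a+1)`).  Now
`(2a).choose a = c a` and `2 (2a+1).choose a = c (a+1)`.  So for `m = 2a`: `m c^2 ≤ 16^a`, `4 m c^2 = 8 a c^2 ≥ 16^a`;
for `m = 2a + 1`, `b = m.choose a = c (a+1)/2`: `m b^2 ≤ (2a+1) 16^(a+1)/(4 (2a+3)) ≤ 4^m`, and
`4 m b^2 = (2a+1) c(a+1)^2 ≥ (2a+1) 16^(a+1)/(4(a+1)) ≥ 4^m`. -/
def St_Cb : Prop := ∀ m : ℕ, 1 ≤ m → m * (m.choose (m / 2)) ^ 2 ≤ 4 ^ m ∧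
  4 ^ m ≤ 4 * m * (m.choose (m / 2)) ^ 2

/-- Un (EASY).  UNIMODAL.  For `2 j + 1 ≤ M`: `w k M j ≤ w k M (j + 1)`: this is clear for `j < k` (`w k M j = 0`); otherwise
`C(j+1,k) (j+1-k) = (j+1) C(j,k)`, `C(M-j-1,k) (M-j) = (M-j-k) C(M-j,k)`, and
`(j+1)(M-j-k) ≥ (j+1-k)(M-j)` because `k (M-j) ≥ k (j+1)`.  By induction `w k M j ≤ w k M (M/2)` for `j ≤ M/2`; and
`w k M j = w k M (M - j)` for `j ≤ M`. -/
def St_Un : Prop := ∀ k M j : ℕ, j ≤ M → w k M j ≤ w k M (M / 2)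

/-- Wt (EASY-MEDIUM).  THE LARGEST WEIGHT.  `M = 2k + d`, `m = M/2 = k + d/2`.  By Un it is enough to treat `j = m`.  Multinomial
coefficients: `w k M m * C(M, m) = C(M, 2k) * C(2k, k) * C(d, m - k)`, both are
`M! / (k! (m-k)! k! (M-m-k)!)` (`Nat.choose_mul`, `Nat.add_choose`, or `Nat.choose_eq_factorial_div_factorial` /
`Nat.choose_mul_factorial_mul_factorial`), and `m - k = d/2`.  So with Cb (for `2k`, `d`, `M`):
`w^2 * 4^M ≤ w^2 * 4 M C(M,m)^2 = 4 M C(M,2k)^2 C(2k,k)^2 C(d,d/2)^2`, and multiply by `2k` and `d`: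
`2k d w^2 4^M ≤ 4 M C(M,2k)^2 4^(2k) 4^d = 4 M C(M,2k)^2 4^M`.  USES Cb Un. -/
def St_Wt : Prop := ∀ k d j : ℕ, 1 ≤ k → 1 ≤ d → j ≤ 2 * k + d →
  k * d * (w k (2 * k + d) j) ^ 2 ≤ 2 * (2 * k + d) * ((2 * k + d).choose (2 * k)) ^ 2

/-- Sw (EASY).  SUM OF THE WEIGHTS.  More generally `∑_{j ≤ M} C(j,k) C(M-j,l) = C(M+1, k+l+1)`: induction on `M` for all `l`,
`C(M+1-j, l+1) = C(M-j, l+1) + C(M-j, l)` (`Nat.choose_succ_succ`; the term `j = M+1` is `C(M+1,k) C(0,l+1) = 0`), and for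
`l = 0` `Nat.sum_range_choose_mul..` / `Nat.sum_Icc_choose` (hockey stick) or induction. -/
def St_Sw : Prop := ∀ k M : ℕ, ∑ j ∈ range (M + 1), w k M j = (M + 1).choose (2 * k + 1)

/-- Op (EASY-MEDIUM).  Let `t = Z / W > 0`, `lam = A t^(-1/3)`.  If `A = 0` all `a j` are `≤ 0` (take `R = {j}`).  Let `A > 0` and
`R = {j ∈ J : lam < a j}`.  Then `lam |R| ≤ ∑_R a ≤ A |R|^(2/3)`, so `|R|^(1/3) ≤ A/lam = t^(1/3)`, `|R| ≤ t`.  So
`∑_R a j v j ≤ W ∑_R a ≤ W A t^(2/3) = A W^(1/3) Z^(2/3)`, and `∑_{J minus R} a j v j ≤ lam Z = A W^(1/3) Z^(2/3)`. -/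
def St_Op : Prop := ∀ (J : Finset ℕ) (a v : ℕ → ℝ) (A W Z : ℝ), (∀ j ∈ J, 0 ≤ a j) →
  (∀ j ∈ J, 0 ≤ v j ∧ v j ≤ W) → 0 < W → 0 < Z → ∑ j ∈ J, v j ≤ Z → 0 ≤ A →
  (∀ R ⊆ J, ∑ j ∈ R, a j ≤ A * (R.card : ℝ) ^ ((2 : ℝ) / 3)) →
  ∑ j ∈ J, a j * v j ≤ 2 * A * W ^ ((1 : ℝ) / 3) * Z ^ ((2 : ℝ) / 3)

/-! ## Points -/

/-- Lv (MEDIUM).  SEVERAL LEVELS.  Landed: the multilevel bound of Dey, `I_MDey I_SweepAll.1 I_Cinj2 I_CrlP : StMDey`
(file Bd/B16.lean; statement PS/T2St.lean).  (a) A shear `(p1, p2) ↦ (p1 + ε p2, p2)` with suitable `ε` makes the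
abscissae different and does not change `side` (`XPts.exists_shear` in FINAL/Pts.lean, `XResS.side_sh`); the points
are different because `N ≥ 3` and `GP`.  (b) `X i = ((x i).1 - min)/(max - min + 1) ∈ [0,1]`, `Y i = (x i).2`: `side` is divided
by a positive number (proof of `XPts.ordered` in FINAL/Pts.lean).  `XSWEEP.GP X Y` is `GP`.  (c) For `X i < X j` the number
`cnt X Y i j` (Bd/B12.lean: lines `l` below the common point of the lines `i` and `j`, `s = cm X Y i j`) is the number of the `l`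
with `side (x i) (x j) (x l) < 0`: `Y l + X l s < Y i + X i s`, `Y i + X i s = Y j + X j s`, so
`(X j - X i)(Y l - Y i) < (Y j - Y i)(X l - X i)` (multiply by `X j - X i > 0`).  (d) For different `i`, `j` exactly `N - 2` points are not
on the line, so for a pair with `lev x i j ∈ R`: if `X i < X j` then `cnt X Y i j = N - 2 - lev`, otherwise `(j, i)` has
`cnt X Y j i = lev` (`side` changes sign).  So the pairs (`i < j`, one of the two orders each) are mapped injectively to the union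
of the `EE X Y r`, `r ∈ R' = R ∪ image (N - 2 - ·) R`, `|R'| ≤ 2 |R|` (the `EE X Y r` are disjoint).  (e) If
`8 N ≤ ∑_{r ∈ R'} |EE X Y r| = s` then `s^3 ≤ 512 N^4 |R'|^2`, so `s ≤ 8 N^(4/3) (2|R|)^(2/3) ≤ 13 N^(4/3) |R|^(2/3)`;
otherwise `s ≤ 8 N ≤ 13 N^(4/3) |R|^(2/3)` (`R` not empty; for `R` empty there are no pairs). -/
def St_Lv : Prop := ∀ (N : ℕ) (x : Fin N → ℝ × ℝ), 3 ≤ N → GP x → ∀ R : Finset ℕ,
  (((univ : Finset (Fin N × Fin N)).filter fun e => e.1 < e.2 ∧ lev x e.1 e.2 ∈ R).card : ℝ) ≤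
    13 * (N : ℝ) ^ ((4 : ℝ) / 3) * (R.card : ℝ) ^ ((2 : ℝ) / 3)

/-- Ct (MEDIUM).  COUNTING THE SUBSETS.  `N = M + 2`, `n = 2k + 2`.  Exchange the sums: for a pair `i < j` let `L`, `R` be the sets
of the points strictly left and right of the line, `|L| = lev x i j`; every `l ≠ i, j` is in exactly one of them (`GP`), and `i, j` are
in none (`side p q p = side p q q = 0`), so `|L| + |R| = M`.  The sets `T` with `|T| = 2k + 2` and `(i,j) ∈ bisPairs x T` are
exactly the sets `{i, j} ∪ A ∪ B`, `A ⊆ L`, `B ⊆ R`, `|A| = |B| = k` (`A = T ∩ L`, `B = T ∩ R`), so their number is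
`C(|L|,k) C(|R|,k) = w k M (lev x i j)` (`Finset.card_powersetCard`, `Finset.card_bij` / `card_nbij'` with
`powersetCard k L ×ˢ powersetCard k R`). -/
def St_Ct : Prop := ∀ (k M : ℕ) (x : Fin (M + 2) → ℝ × ℝ), GP x →
  ∑ T ∈ powersetCard (2 * k + 2) (univ : Finset (Fin (M + 2))), (bisPairs x T).card =
    ∑ e ∈ (univ : Finset (Fin (M + 2) × Fin (M + 2))).filter (fun e => e.1 < e.2),
      w k M (lev x e.1 e.2)

/-- Rs (EASY).  For `N = n + d`, `n = 2k + 2`, `k ≥ 1`, `M = 2k + d`.  The pure estimate: `W = (2 M/(k d))^(1/2) C(M,2k)`,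
`Z = C(M+1,2k+1)`, `B = C(N,n)`: `C(M+1,2k+1) = (n/N) B` and `C(M,2k) = (n(n-1)/(N(N-1))) B ≤ (n/N)^2 B`
(`Nat.succ_mul_choose_eq`).  So the left side is `≤ 26 N^(4/3) (2 M/(k d))^(1/6) (n/N)^(2/3) (n/N)^(2/3) B =
26 n^(4/3) (2 M/(k d))^(1/6) B`, and `k ≥ n/4`, `M ≤ n + d ≤ 2 max n d`, so
`2 M/(k d) ≤ 16 max(n,d)/(n d) = 16/min(n,d)`, `16^(1/6) ≤ 2`. -/
def St_Rs : Prop := ∀ k d : ℕ, 1 ≤ k → 1 ≤ d →
  2 * (13 * ((2 * k + 2 + d : ℕ) : ℝ) ^ ((4 : ℝ) / 3)) *
    (Real.sqrt (2 * (2 * k + d) / (k * d)) * ((2 * k + d).choose (2 * k) : ℕ)) ^ ((1 : ℝ) / 3) *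
    (((2 * k + d + 1).choose (2 * k + 1) : ℕ) : ℝ) ^ ((2 : ℝ) / 3) ≤
  52 * ((2 * k + 2 : ℕ) : ℝ) ^ ((4 : ℝ) / 3) *
    ((min (2 * k + 2) d : ℕ) : ℝ) ^ (-(1 : ℝ) / 6) * ((2 * k + 2 + d).choose (2 * k + 2) : ℕ)

/-- Fi (EASY-MEDIUM).  THE FINITE THEOREM.  `n = 2k + 2`, `M = 2k + d`, `N = M + 2 = n + d`.  `k = 0`: every `T` has two elements, so
`(bisPairs x T).card ≤ 1`, the sum is `≤ C(N,2)`, and `2^(4/3) min(2,d)^(-1/6) ≥ 1`.  `k ≥ 1`: Ct; group the pairs by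
`j = lev x e.1 e.2 ∈ range (M+1)` (`lev ≤ M` because `i`, `j` are not counted; `Finset.sum_fiberwise_of_maps_to`): the sum is
`∑_{j ≤ M} a j w k M j`, `a j` = number of pairs with level `j`.  Op with `A = 13 N^(4/3)` (Lv: `∑_R a j` is the number of pairs with
level in `R`), `W = sqrt(2 M/(k d)) C(M,2k)` (Wt), `Z = C(M+1,2k+1)` (Sw); then Rs.  USES Wt Sw Op Lv Ct Rs. -/
def St_Fi : Prop := ∀ (k d : ℕ), 1 ≤ d → ∀ x : Fin (2 * k + d + 2) → ℝ × ℝ, GP x →
  ∑ T ∈ powersetCard (2 * k + 2) (univ : Finset (Fin (2 * k + d + 2))),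
    ((bisPairs x T).card : ℝ) ≤
  52 * ((2 * k + 2 : ℕ) : ℝ) ^ ((4 : ℝ) / 3) *
    ((min (2 * k + 2) d : ℕ) : ℝ) ^ (-(1 : ℝ) / 6) * ((2 * k + 2 + d).choose (2 * k + 2) : ℕ)

/-! ## Independent points -/

/-- Mp (EASY-MEDIUM).  SUBFAMILIES OF INDEPENDENT POINTS.  The coordinates are independent under the product measure
(`ProbabilityTheory.iIndepFun_pi`), so the coordinates `X (e i)` are (`iIndepFun.precomp`), each has law `μ`
(`measurePreserving_eval`), and `ProbabilityTheory.iIndepFun_iff_map_fun_eq_pi_map`.  Measurability: `measurable_pi_lambda`. -/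
def St_Mp : Prop := ∀ (N n : ℕ) (e : Fin n → Fin N), Function.Injective e →
  ∀ (μ : Measure (ℝ × ℝ)) [IsProbabilityMeasure μ],
  MeasurePreserving (fun (X : Fin N → ℝ × ℝ) (i : Fin n) => X (e i))
    (Measure.pi fun _ => μ) (Measure.pi fun _ => μ)

/-- Ge (MEDIUM).  GENERAL POSITION ALMOST SURELY.  Finitely many triples.  For different `i, j, l` and `N ≥ 3` apply
`measurePreserving_piFinSuccAbove (fun _ => μ) l`: the product measure is `μ × μ^(N-1)`; with `i = l.succAbove i'`, `j = l.succAbove j'`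
the set is `{(z, Y) : side (Y i') (Y j') z = 0}` (closed, so measurable).  By Fubini (`Measure.measure_prod_null` after
`Prod.swap`) it is enough that for almost all `Y` the `z`-section is null: it is a null set by hypothesis if `Y i' ≠ Y j'`.
And `Y i' = Y j'` has measure `0`: in the same way (`piFinSuccAbove` for `i'`) it is enough that points are null sets, and
a point `p` is on the line through `p` and `p + (1, 0)`, which is a null set.  (Or use Mp with `Fin 3 → Fin N`.) -/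
def St_Ge : Prop := ∀ (N : ℕ) (μ : Measure (ℝ × ℝ)) [IsProbabilityMeasure μ],
  (∀ p q : ℝ × ℝ, p ≠ q → μ {r | side p q r = 0} = 0) →
  ∀ᵐ X ∂(Measure.pi fun _ : Fin N => μ), GP X

/-- Ms (EASY).  The function is a finite sum of indicator functions of measurable sets: the number of `l ∈ T` with
`0 < side (X i) (X j) (X l)` is a finite sum of indicators of open sets (`side` is continuous), so measurable with values in `ℕ`. -/
def St_Ms : Prop := ∀ (N : ℕ) (T : Finset (Fin N)),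
  Measurable fun X : Fin N → ℝ × ℝ => (bisPairs X T).card

/-- Re (EASY).  Let `e = T.orderEmbOfFin h : Fin n ↪o Fin N`; it maps `univ` onto `T` and preserves `<`, so
`(i, j) ↦ (e i, e j)` maps `bisPairs (fun i => X (e i)) univ` onto `bisPairs X T` (counts of `univ` are counts of `T`). -/
def St_Re : Prop := ∀ (N n : ℕ) (T : Finset (Fin N)) (h : T.card = n) (X : Fin N → ℝ × ℝ),
  (bisPairs (fun i => X (T.orderEmbOfFin h i)) (univ : Finset (Fin n))).card =
    (bisPairs X T).card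

/-- Ii (EASY-MEDIUM).  INDEPENDENT POINTS.  `n = 2k + 2`, `N = 2 n = n + d`, `d = n`.  For every `T` with `|T| = n`:
`∫ (bisPairs X univ).card dμ^n = ∫ (bisPairs Y T).card dμ^N` by Mp with `e = T.orderEmbOfFin`, Re
(`MeasurePreserving.integral_comp'` or `integral_map`, measurability Ms; the functions are bounded by `N^2`, so integrable).
Sum over the `C(N,n)` sets `T` (`integral_finset_sum`): `C(N,n) ∫ .. = ∫ ∑_T (bisPairs Y T).card dμ^N`, and for almost all `Y` (Ge) the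
sum is `≤ 52 n^(4/3) n^(-1/6) C(N,n)` by Fi (`Fin (2k+d+2)`, `N = 2k + 2 + d`; cast or choose `N := 2k + d + 2` from the start);
`integral_mono_ae`, total mass `1`; divide by `C(N,n) > 0`; `n^(4/3) n^(-1/6) = n^(7/6)`.  USES Fi Mp Ge Ms Re. -/
def St_Ii : Prop := ∀ (k : ℕ) (μ : Measure (ℝ × ℝ)) [IsProbabilityMeasure μ],
  (∀ p q : ℝ × ℝ, p ≠ q → μ {r | side p q r = 0} = 0) →
  Integrable (fun X : Fin (2 * k + 2) → ℝ × ℝ => ((bisPairs X univ).card : ℝ))
    (Measure.pi fun _ => μ) ∧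
  ∫ X : Fin (2 * k + 2) → ℝ × ℝ, ((bisPairs X univ).card : ℝ) ∂(Measure.pi fun _ => μ) ≤
    52 * ((2 * k + 2 : ℕ) : ℝ) ^ ((7 : ℝ) / 6)

end Pool.Agent.Work.MP_e17eac_co.RP
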