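import Pool.Agent.Work.MP_e17eac_co.RP.Stmts

/-!
# Block RP, part 2: `k`-edges (captain helper13)

THEOREM. (1) For `n ≥ 2`, `2 k + 2 ≤ n < N` and all `N` points in general position the average number
of directed `k`-edges (pairs `(i, j)` with exactly `k` points on the left side) of the `n`-point
subsets is at most `1400 n (k+1)^(1/3) (1 + (k+1) min(n,N-n)/n)^(-1/6)`. (2) For every probability
measure on the plane without mass on lines the expected number of directed `k`-edges of `n`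
independent points is at most `1400 n (k+1)^(1/6)`, `2 k + 2 ≤ n`.

Every docstring is the complete proof; rules for the items as in part 1 (`RP/Stmts.lean`).
-/

set_option autoImplicit false

namespace Pool.Agent.Work.MP_e17eac_co.RP

open Finset MeasureTheory

open Classical in
/-- The directed `k`-edges of the points `x l`, `l ∈ T`: pairs `(i, j)` of different elements of `T` such
that exactly `k` of the points are strictly to the left of the directed line from `x i` to `x j`. -/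
noncomputable def ke {N : ℕ} (x : Fin N → ℝ × ℝ) (T : Finset (Fin N)) (k : ℕ) :
    Finset (Fin N × Fin N) :=
  (T ×ˢ T).filter fun e => e.1 ≠ e.2 ∧
    (T.filter fun l => 0 < side (x e.1) (x e.2) (x l)).card = k

/-- `v k s M j = C(j, k) C(M - j, s)` -/
def v (k s M j : ℕ) : ℕ := j.choose k * (M - j).choose s

/-! ## Numbers -/

/-- Sk (EASY).  Induction on `M` for all `s`: for `s + 1` the term `j = M + 1` is `C(M+1,k) C(0,s+1) = 0`, and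
`C(M+1-j, s+1) = C(M-j, s+1) + C(M-j, s)` for `j ≤ M` (Pascal), so the sum for `(M+1, s+1)` is the sum of those for
`(M, s+1)` and `(M, s)`, and `C(M+1,k+s+2) + C(M+1,k+s+1) = C(M+2,k+s+2)`.  `s = 0`: hockey stick
(`Finset.sum_range_succ`, induction: `∑_{j ≤ M} C(j,k) = C(M+1,k+1)`). -/
def St_Sk : Prop := ∀ k s M : ℕ, ∑ j ∈ range (M + 1), v k s M j = (M + 1).choose (k + s + 1)

/-- Yk (EASY).  `(j + 1) C(j,k) = (k + 1) C(j+1,k+1)` (`Nat.succ_mul_choose_eq`), so the sum is `(k + 1)` times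
`∑_{j ≤ M} C(j+1,k+1) C(M-j,s) = ∑_{j' ≤ M+1} C(j',k+1) C(M+1-j',s)` (the term `j' = 0` is `0`; `Finset.sum_range_succ'`) and Sk
for `(k+1, s, M+1)`.  USES Sk. -/
def St_Yk : Prop := ∀ k s M : ℕ, ∑ j ∈ range (M + 1), (j + 1) * v k s M j =
  (k + 1) * (M + 2).choose (k + s + 2)

/-- Vt (EASY).  A term of Vandermonde's identity `∑_{a+b=k+s} C(j,a) C(M-j,b) = C(M,k+s)` (`Nat.add_choose_eq`). -/
def St_Vt : Prop := ∀ k s M j : ℕ, j ≤ M → v k s M j ≤ M.choose (k + s)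

/-- Rt (EASY).  THE QUOTIENT.  `C(j+1,k) (j+1-k) = (j+1) C(j,k)` and `C(M-j-1,s) (M-j) = (M-j-s) C(M-j,s)` (`Nat.choose_mul_succ_eq`
and `Nat.succ_mul_choose_eq` or `Nat.choose_succ_right_eq`; if `M - j < s` both sides are `0`). -/
def St_Rt : Prop := ∀ k s M j : ℕ, k ≤ j → j < M →
  (j + 1 - k) * (M - j) * v k s M (j + 1) = (j + 1) * (M - j - s) * v k s M j

/-- Md (EASY-MEDIUM).  THE MODE.  `m = k + s`, `M = m + d`.  Let `J = (k M - s) / m + 1` (natural division; `k M ≥ s`): so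
`m (J - 1) ≤ k M - s < m J`.  From Rt: for `k ≤ j < M`: `m j + s ≤ k M` implies `v j ≤ v (j+1)` (because
`(j+1)(M-j-s) - (j+1-k)(M-j) = k M - m j - s` if `M - j ≥ s`; if `m j + s ≤ k M` then `M - j ≥ s`: otherwise
`m j + s ≥ m (M - s) + s + m > ..`, or simply: `m (M-j) ≥ m M - k M + s = s M + s ≥ m s`), and `m j + s ≥ k M` implies
`v (j+1) ≤ v j`.  For `j < k` `v j = 0`.  So `v` increases up to `J` and decreases after `J` (`J ≤ M`: `m J ≤ k M + k ≤ m M`, as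
`k ≤ s`, `M ≥ 1`).  The two inequalities: `m J ≥ k M - s + 1`, so `m (J+1-k) ≥ k d + k + 1`; `m J ≤ k M - s + m = k M + k`.
USES Rt. -/
def St_Md : Prop := ∀ k s d : ℕ, 1 ≤ k → k ≤ s → 1 ≤ d → ∃ J : ℕ,
  k ≤ J ∧ J ≤ k + s + d ∧ (∀ j ≤ k + s + d, v k s (k + s + d) j ≤ v k s (k + s + d) J) ∧
  k * (d + 1) ≤ (k + s) * (J + 1 - k) ∧ (k + s) * J ≤ k * (k + s + d) + k ∧
  k * (k + s + d) ≤ (k + s) * J + s

/-- Wk (MEDIUM).  THE LARGEST TERM.  `m = k + s ≥ 2`, `M = m + d ≥ 3`, `J` from Md.  Let `L` be the largest natural number with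
`8 m^2 L^2 ≤ k (d+1) M`.  CASE `L ≤ 1`: `k (d+1) M < 32 m^2 ≤ 32 M^2`, so `k (d+1) < 32 M`, and `v ≤ C(M,m)` (Vt).
CASE `L ≥ 2`.  Claim: for `j = J + i`, `0 ≤ i < L`: `(L - 1) v j ≤ L v (j+1)`.  By Rt it is enough that
`L (j+1)(M-j-s) ≥ (L-1)(j+1-k)(M-j)`; `(j+1)(M-j-s) = (j+1-k)(M-j) - (m j + s - k M)` (integers), so this says
`L (m j + s - k M) ≤ (j+1-k)(M-j)`.  Now `m j + s - k M ≤ m (i+1) ≤ m L` (Md: `m (J-1) + s ≤ k M`, from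
`(k+s) J ≤ k M + k`), `m (j+1-k) ≥ k (d+1)`, and `m (M-J) ≥ m M - k M - k = s M - k ≥ (m M - m)/2`, so `M - j ≥ (M-1)/2 - L`.
From `8 m^2 L^2 ≤ k (d+1) M ≤ (m/2) M^2` we get `16 m L^2 ≤ M^2`, so (`m ≥ 2`) `L ≤ M/(4 sqrt 2)`, `5 L ≤ M`, so
`M - j ≥ (M-1)/2 - M/5 ≥ M/8` (`M ≥ 3`).  So `m (j+1-k)(M-j) ≥ k (d+1) M/8 ≥ m^2 L^2`, as wanted.  (In particular `M - j > 0`, `j < M`.)
So `v (J+i) ≥ (1 - 1/L)^i v J ≥ v J / 4` for `0 ≤ i < L` (`(1 - 1/L)^L ≥ 1/4` for `L ≥ 2`), and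
`L v J / 4 ≤ ∑ v = C(M+1,m+1) ≤ (M/m) C(M,m)` (Sk; `(m+1) C(M+1,m+1) = (M+1) C(M,m)`, `(M+1) m ≤ M (m+1)`).
`8 m^2 (L+1)^2 > k (d+1) M`, `L + 1 ≤ 3L/2`: `18 m^2 L^2 > k (d+1) M`.  So
`(v J)^2 k (d+1) ≤ 16 M^2 C^2/(m^2 L^2) k (d+1) ≤ 288 M C^2`.  USES Sk Vt Rt Md. -/
def St_Wk : Prop := ∀ k s d j : ℕ, 1 ≤ k → k ≤ s → 1 ≤ d → j ≤ k + s + d →
  k * (d + 1) * (v k s (k + s + d) j) ^ 2 ≤ 288 * (k + s + d) * ((k + s + d).choose (k + s)) ^ 2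

/-- Wc (EASY).  `k ≥ 1`: `(k+1) d ≤ 2 k (d+1)`, so with Wk and Vt the left side is `≤ M C^2 + 2 * 288 M C^2`.  `k = 0`: `d ≤ M` and
Vt.  USES Wk Vt. -/
def St_Wc : Prop := ∀ k s d j : ℕ, k ≤ s → 1 ≤ d → j ≤ k + s + d →
  ((k + s + d) + (k + 1) * d) * (v k s (k + s + d) j) ^ 2 ≤
    600 * (k + s + d) * ((k + s + d).choose (k + s)) ^ 2

/-- Dy (EASY-MEDIUM).  Put `q = 2^(-1/3)`, `1/(1-q) ≤ 4.85`.  Let `μ = Y/Z ≥ 1`.  The `i` with `2^i ≤ μ`: `z i ≤ Z`, and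
`∑ 2^(i/3) ≤ μ^(1/3) (1 + q + q^2 + ..) ≤ 4.85 μ^(1/3)` (let `i0` be the largest such `i`, `2^(i/3) = 2^(i0/3) q^(i0-i)`), in all
`4.85 μ^(1/3) Z^(2/3) = 4.85 Y^(1/3) Z^(1/3)`.  The `i` with `2^i > μ`: `2^i z i ≤ Y`, so
`2^(i/3) (z i)^(2/3) ≤ Y^(2/3) 2^(-i/3)`, and `∑ 2^(-i/3) ≤ μ^(-1/3) (1 + q + ..)`, in all
`4.85 Y^(2/3) μ^(-1/3) = 4.85 Y^(1/3) Z^(1/3)`. -/
def St_Dy : Prop := ∀ (I : ℕ) (z : ℕ → ℝ) (Z Y : ℝ), 0 < Z → Z ≤ Y → (∀ i < I, 0 ≤ z i) →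
  (∀ i < I, z i ≤ Z) → (∀ i < I, 2 ^ i * z i ≤ Y) →
  ∑ i ∈ range I, (2 : ℝ) ^ ((i : ℝ) / 3) * (z i) ^ ((2 : ℝ) / 3) ≤
    9.7 * Z ^ ((1 : ℝ) / 3) * Y ^ ((1 : ℝ) / 3)

/-- Ok (EASY-MEDIUM).  DYADIC BLOCKS.  `B i = {j ∈ range (M+1) : 2^i ≤ j + 1 < 2^(i+1)}`, `i = Nat.log 2 (j+1) < I = M + 1`,
`z i = ∑_{B i} v`: `∑ z i ≤ Z`, `2^i z i ≤ ∑_{B i} (j+1) v j ≤ Y`.  For `R ⊆ B i` all elements are `≤ K = 2^(i+1) - 1`, so
`∑_R a ≤ A (2^(i+1))^(1/3) |R|^(2/3)`.  Op for `B i` (if `z i > 0`; otherwise all `v j = 0` on `B i` and the sum is `0`):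
`∑_{B i} a v ≤ 2 A 2^((i+1)/3) W^(1/3) (z i)^(2/3)`.  Sum over `i` (`Finset.sum_fiberwise_of_maps_to`), Dy, and
`2 * 2^(1/3) * 9.7 ≤ 25`.  USES Op Dy. -/
def St_Ok : Prop := ∀ (M : ℕ) (a u : ℕ → ℝ) (A W Z Y : ℝ), (∀ j ≤ M, 0 ≤ a j) →
  (∀ j ≤ M, 0 ≤ u j ∧ u j ≤ W) → 0 < W → 0 < Z → Z ≤ Y → ∑ j ∈ range (M + 1), u j ≤ Z →
  ∑ j ∈ range (M + 1), ((j : ℝ) + 1) * u j ≤ Y → 0 ≤ A →
  (∀ (K : ℕ) (R : Finset ℕ), R ⊆ range (M + 1) → (∀ j ∈ R, j ≤ K) →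
    ∑ j ∈ R, a j ≤ A * ((K : ℝ) + 1) ^ ((1 : ℝ) / 3) * (R.card : ℝ) ^ ((2 : ℝ) / 3)) →
  ∑ j ∈ range (M + 1), a j * u j ≤
    25 * A * W ^ ((1 : ℝ) / 3) * Z ^ ((1 : ℝ) / 3) * Y ^ ((1 : ℝ) / 3)

/-- Rk (EASY-MEDIUM).  THE NUMBERS.  `m = k + s`, `M = m + d`, `n = m + 2`, `N = M + 2 = n + d`, `B = C(N,n)`:
`N C(M+1,m+1) = n B`, `N (N-1) C(M,m) = n (n-1) B`, so `C(M,m) ≤ (n/N)^2 B`.  So
`25 (16 N) (sqrt(600 M/(M+(k+1)d)) C(M,m))^(1/3) C(M+1,m+1)^(1/3) ((k+1) B)^(1/3) ≤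
400 N 600^(1/6) (M/(M+(k+1)d))^(1/6) (n/N)^(2/3) (n/N)^(1/3) (k+1)^(1/3) B = 400 * 600^(1/6) n (k+1)^(1/3) (..)^(1/6) B`.
`M ≤ n + d ≤ 2 max n d` and `d/max(n,d) = min(n,d)/n`, so `M/(M+(k+1)d) = 1/(1+(k+1)d/M) ≤ 2/(1+(k+1)min(n,d)/n)`.
`400 * (1200)^(1/6) ≤ 1400` (`1200 ≤ 3.5^6 = 1838`). -/
def St_Rk : Prop := ∀ k s d : ℕ, k ≤ s → 1 ≤ d →
  25 * (16 * ((k + s + d + 2 : ℕ) : ℝ)) *
    (Real.sqrt (600 * (k + s + d) / ((k + s + d) + (k + 1) * d)) *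
      ((k + s + d).choose (k + s) : ℕ)) ^ ((1 : ℝ) / 3) *
    (((k + s + d + 1).choose (k + s + 1) : ℕ) : ℝ) ^ ((1 : ℝ) / 3) *
    (((k : ℝ) + 1) * ((k + s + d + 2).choose (k + s + 2) : ℕ)) ^ ((1 : ℝ) / 3) ≤
  1400 * ((k + s + 2 : ℕ) : ℝ) * ((k : ℝ) + 1) ^ ((1 : ℝ) / 3) *
    (1 + ((k : ℝ) + 1) * (min (k + s + 2) d : ℕ) / ((k + s + 2 : ℕ) : ℝ)) ^ (-(1 : ℝ) / 6) *
    ((k + s + d + 2).choose (k + s + 2) : ℕ)

/-! ## Points -/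

/-- KD (MEDIUM).  SEVERAL LOW LEVELS (copy of `XMDey.cross_card`, `XMDey.arith` and `I_MDey` in Bd/B16.lean; you may import that
file and use its lemmas and `I_SweepAll.1 I_Cinj2 I_CrlP`).  Only change: the first component `tokB` of the injection is in
`(K r).S 0`, which has `r + 1 ≤ Q + 1` elements, so the number of crossing pairs is at most `|Rs|^2 (Q + 1) n`.  Proof: (a) for
every `K : KSys` and `n ≤ K.N` the set `K.S n` is the image of `K.S 0` under `K.pos n` (induction: `S_succ`, `pos`), so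
`tokB n = (pos n).symm (a n) ∈ K.S 0` for `n < K.N` (`a_mem`), and all `K.S n` have the same cardinality.  (b) At an edge
`n < K.N` of the sweep of the level `r`: `L (t n)` is the common height of `a n` and `b n` (`below`, `above`, `meet`), all other
lines have a different height (`third`), those in `S n` are below, those not in `S n` above; so `S n` minus `a n` is the set counted by
`XSWEEP.cnt x y (b n) (a n) = r` (`StSweepAll`: `(b n, a n) ∈ EE x y r`, `tm = t n`), and `|S n| = r + 1`.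
Then `V s^2 ≤ 4 n s^3 + X`, `8 n s ≤ V ≤ 16 n s`: `V^3 ≤ 256 n^2 * 2 X ≤ 512 n^3 (Q+1) |Rs|^2`. -/
def St_KD : Prop := ∀ (ι : Type) [Fintype ι] [DecidableEq ι] (x y : ι → ℝ),
  (∀ i, 0 ≤ x i ∧ x i ≤ 1) → Function.Injective x → DH.XSWEEP.GP x y →
  ∀ (Rs : Finset ℕ) (Q : ℕ), (∀ r ∈ Rs, r ≤ Q) →
  8 * Fintype.card ι ≤ ∑ r ∈ Rs, (DH.XSWEEP.EE x y r).card →
  (∑ r ∈ Rs, (DH.XSWEEP.EE x y r).card) ^ 3 ≤
    512 * (Fintype.card ι) ^ 3 * (Q + 1) * Rs.card ^ 2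

/-- Lk (MEDIUM).  As Lv (steps (a), (b), (c)), with KD.  The pairs `(i, j)` with `X j < X i` and `lev x i j = r`: `(j, i) ∈ EE X Y r`.
The pairs with `X i < X j` and `lev x i j = r`: `lev` is the number of the points above the line, so for the reflected points
`(X, -Y)` (general position too) `(i, j) ∈ EE X (-Y) r`.  So the number is at most the sum of the two sums over `r ∈ R`, each of
which is `≤ 8 N (K+1)^(1/3) |R|^(2/3)` (KD, or `< 8 N` and `R` not empty).  USES KD. -/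
def St_Lk : Prop := ∀ (N : ℕ) (x : Fin N → ℝ × ℝ), 3 ≤ N → GP x → ∀ (K : ℕ) (R : Finset ℕ),
  (∀ r ∈ R, r ≤ K) →
  (((univ : Finset (Fin N × Fin N)).filter fun e => e.1 ≠ e.2 ∧ lev x e.1 e.2 ∈ R).card : ℝ) ≤
    16 * (N : ℝ) * ((K : ℝ) + 1) ^ ((1 : ℝ) / 3) * (R.card : ℝ) ^ ((2 : ℝ) / 3)

/-- Ck (MEDIUM).  As Ct: for `i ≠ j` let `L`, `R` be the sets of the points strictly left and right, `|L| = lev x i j`,
`|L| + |R| = M`.  The sets `T` with `|T| = k + s + 2` and `(i, j) ∈ ke x T k` are the sets `{i,j} ∪ A ∪ B`, `A ⊆ L`, `B ⊆ R`,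
`|A| = k`, `|B| = s`. -/
def St_Ck : Prop := ∀ (k s M : ℕ) (x : Fin (M + 2) → ℝ × ℝ), GP x →
  ∑ T ∈ powersetCard (k + s + 2) (univ : Finset (Fin (M + 2))), (ke x T k).card =
    ∑ e ∈ (univ : Finset (Fin (M + 2) × Fin (M + 2))).filter (fun e => e.1 ≠ e.2),
      v k s M (lev x e.1 e.2)

/-- Fk (EASY-MEDIUM).  THE FINITE THEOREM.  `M = k + s + d`, `N = M + 2 ≥ 3`.  Ck; group the pairs by `j = lev x e.1 e.2 ≤ M` (`i`, `j` are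
not counted): `∑_{j ≤ M} a j v k s M j`, `a j` = number of pairs `e.1 ≠ e.2` with level `j`.  Ok with `A = 16 N` (Lk: `∑_R a j` is the
number of pairs with level in `R`), `W = sqrt(600 M/(M+(k+1)d)) C(M,k+s)` (Wc), `Z = C(M+1,k+s+1)` (Sk),
`Y = (k+1) C(M+2,k+s+2)` (Yk; `Z ≤ Y` by Pascal); then Rk.  USES Wc Sk Yk Ok Lk Ck Rk. -/
def St_Fk : Prop := ∀ (k s d : ℕ), k ≤ s → 1 ≤ d → ∀ x : Fin (k + s + d + 2) → ℝ × ℝ, GP x →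
  ∑ T ∈ powersetCard (k + s + 2) (univ : Finset (Fin (k + s + d + 2))),
    ((ke x T k).card : ℝ) ≤
  1400 * ((k + s + 2 : ℕ) : ℝ) * ((k : ℝ) + 1) ^ ((1 : ℝ) / 3) *
    (1 + ((k : ℝ) + 1) * (min (k + s + 2) d : ℕ) / ((k + s + 2 : ℕ) : ℝ)) ^ (-(1 : ℝ) / 6) *
    ((k + s + d + 2).choose (k + s + 2) : ℕ)

/-! ## Independent points -/

/-- Mk (EASY).  As Ms. -/
def St_Mk : Prop := ∀ (N k : ℕ) (T : Finset (Fin N)),
  Measurable fun X : Fin N → ℝ × ℝ => (ke X T k).card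

/-- Rf (EASY).  As Re. -/
def St_Rf : Prop := ∀ (N n k : ℕ) (T : Finset (Fin N)) (h : T.card = n) (X : Fin N → ℝ × ℝ),
  (ke (fun i => X (T.orderEmbOfFin h i)) (univ : Finset (Fin n)) k).card = (ke X T k).card

/-- Ik (EASY-MEDIUM).  As Ii with `n = k + s + 2`, `d = n`, Fk: `(1 + (k+1) n/n)^(-1/6) = (k+2)^(-1/6) ≤ (k+1)^(-1/6)`.
USES Fk Mp Ge Mk Rf. -/
def St_Ik : Prop := ∀ (k s : ℕ), k ≤ s → ∀ (μ : Measure (ℝ × ℝ)) [IsProbabilityMeasure μ],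
  (∀ p q : ℝ × ℝ, p ≠ q → μ {r | side p q r = 0} = 0) →
  Integrable (fun X : Fin (k + s + 2) → ℝ × ℝ => ((ke X univ k).card : ℝ))
    (Measure.pi fun _ => μ) ∧
  ∫ X : Fin (k + s + 2) → ℝ × ℝ, ((ke X univ k).card : ℝ) ∂(Measure.pi fun _ => μ) ≤
    1400 * ((k + s + 2 : ℕ) : ℝ) * ((k : ℝ) + 1) ^ ((1 : ℝ) / 6)

end Pool.Agent.Work.MP_e17eac_co.RP
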